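import Pool.Agent.Lib.MP_010b1d_an.Basic

/-! Smooth approximation of Sobolev maps. -/

set_option autoImplicit false

open MeasureTheory Set Filter Topology Function Metric
open scoped Convolution

namespace Pool.Agent.Lib.MP_010b1d_an

variable {n : ℕ}

/-- Continuous maps of class `W^{1,n}_loc` with weak derivative `g`. -/
structure Sob (Ω : Set (E n)) (f : E n → E n) (g : E n → E n →L[ℝ] E n) : Prop where
  opn : IsOpen Ω
  cont : ContinuousOn f Ω
  meas : AEStronglyMeasurable g (volume.restrict Ω)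
  int : ∀ C : Set (E n), IsCompact C → C ⊆ Ω → IntegrableOn (fun x => ‖g x‖ ^ n) C
  weak : ∀ φ : E n → ℝ, ContDiff ℝ 1 φ → HasCompactSupport φ → tsupport φ ⊆ Ω → ∀ i : Fin n,
    ∫ x in Ω, (fderiv ℝ φ x (ev i)) • f x = - ∫ x in Ω, φ x • g x (ev i)

lemma pratt {α : Type*} [MeasurableSpace α] {μ : Measure α} {S : Set α} (hS : MeasurableSet S)
    (hSf : μ S ≠ ⊤) {G : α → ℝ} {Gk : ℕ → α → ℝ} {Φ : α → ℝ} {Φk : ℕ → α → ℝ} {C : ℝ}
    (hC : 0 ≤ C) (hG : Integrable G μ) (hGk : ∀ k, Integrable (Gk k) μ)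
    (hGk0 : ∀ k x, 0 ≤ Gk k x) (hG0 : ∀ x, 0 ≤ G x) (hint : ∀ k, ∫ x, Gk k x ∂μ = ∫ x, G x ∂μ)
    (hlim : ∀ᵐ x ∂μ, Tendsto (fun k => Gk k x) atTop (𝓝 (G x)))
    (hΦm : ∀ k, AEStronglyMeasurable (Φk k) (μ.restrict S))
    (hb : ∀ k, ∀ x ∈ S, |Φk k x| ≤ C * (1 + Gk k x))
    (hΦ : ∀ᵐ x ∂μ.restrict S, Tendsto (fun k => Φk k x) atTop (𝓝 (Φ x))) :
    IntegrableOn Φ S μ ∧
      Tendsto (fun k => ∫ x in S, Φk k x ∂μ) atTop (𝓝 (∫ x in S, Φ x ∂μ)) := by
  have : IsFiniteMeasure (μ.restrict S) := isFiniteMeasure_restrict.2 hSf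
  have hA1 : Tendsto (fun k => ∫ x, max (G x - Gk k x) 0 ∂μ) atTop (𝓝 (∫ _x, (0 : ℝ) ∂μ)) := by
    refine tendsto_integral_of_dominated_convergence G
      (fun k => ((hG.sub (hGk k)).sup (integrable_zero _ _ _)).aestronglyMeasurable) hG
      (fun k => Eventually.of_forall fun x => ?_) ?_
    · rw [Real.norm_eq_abs, abs_of_nonneg (le_max_right _ _)]
      exact max_le (by linarith [hGk0 k x]) (hG0 x)
    · filter_upwards [hlim] with x hx
      have := ((tendsto_const_nhds (x := G x)).sub hx).max (tendsto_const_nhds (x := (0 : ℝ)))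
      simpa using this
  rw [integral_zero] at hA1
  have hI1 : ∀ k, Integrable (fun x => max (G x - Gk k x) 0) μ := fun k =>
    (hG.sub (hGk k)).sup (integrable_zero _ _ _)
  have hI2 : ∀ k, Integrable (fun x => max (Gk k x - G x) 0) μ := fun k =>
    ((hGk k).sub hG).sup (integrable_zero _ _ _)
  have hA2 : ∀ k, ∫ x, max (Gk k x - G x) 0 ∂μ = ∫ x, max (G x - Gk k x) 0 ∂μ := by
    intro k
    have e : (fun x => max (Gk k x - G x) 0) =
        fun x => max (G x - Gk k x) 0 + (Gk k x - G x) := by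
      funext x
      rcases le_total (Gk k x) (G x) with h | h
      · rw [max_eq_right (by linarith), max_eq_left (by linarith)]; ring
      · rw [max_eq_left (by linarith), max_eq_right (by linarith)]; ring
    have hI3 : Integrable (fun x => Gk k x - G x) μ := (hGk k).sub hG
    rw [e, integral_add (hI1 k) hI3, integral_sub (hGk k) hG, hint k]
    ring
  have hB : Integrable (fun x => C * (1 + G x)) (μ.restrict S) :=
    ((integrable_const (1 : ℝ)).add hG.restrict).const_mul C
  have hB0 : ∀ x, 0 ≤ C * (1 + G x) := fun x => mul_nonneg hC (by linarith [hG0 x])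
  have hΦb : ∀ᵐ x ∂μ.restrict S, |Φ x| ≤ C * (1 + G x) := by
    filter_upwards [hΦ, ae_restrict_of_ae hlim, ae_restrict_mem hS] with x h1 h2 h3
    exact le_of_tendsto_of_tendsto' h1.abs ((tendsto_const_nhds.add h2).const_mul C)
      fun k => hb k x h3
  have hΦm' : AEStronglyMeasurable Φ (μ.restrict S) :=
    aestronglyMeasurable_of_tendsto_ae atTop hΦm hΦ
  have hΦi : IntegrableOn Φ S μ := hB.mono' hΦm' hΦb
  refine ⟨hΦi, ?_⟩
  set T : ℕ → α → ℝ := fun k x => max (-(C * (1 + G x))) (min (C * (1 + G x)) (Φk k x)) with hT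
  have hTm : ∀ k, AEStronglyMeasurable (T k) (μ.restrict S) := fun k =>
    hB.aestronglyMeasurable.neg.sup (hB.aestronglyMeasurable.inf (hΦm k))
  have hTb : ∀ k x, ‖T k x‖ ≤ C * (1 + G x) := by
    intro k x
    rw [Real.norm_eq_abs, abs_le]
    exact ⟨le_max_left _ _, max_le (by linarith [hB0 x]) (min_le_left _ _)⟩
  have hT1 : Tendsto (fun k => ∫ x in S, T k x ∂μ) atTop (𝓝 (∫ x in S, Φ x ∂μ)) := by
    refine tendsto_integral_of_dominated_convergence _ hTm hB
      (fun k => Eventually.of_forall (hTb k)) ?_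
    filter_upwards [hΦ, hΦb] with x h1 h2
    have := (tendsto_const_nhds (x := -(C * (1 + G x)))).max
      ((tendsto_const_nhds (x := C * (1 + G x))).min h1)
    rwa [min_eq_right (abs_le.1 h2).2, max_eq_right (abs_le.1 h2).1] at this
  have hΦki : ∀ k, IntegrableOn (Φk k) S μ := fun k =>
    (((integrable_const (1 : ℝ)).add (hGk k).restrict).const_mul C).mono' (hΦm k) (by
      filter_upwards [ae_restrict_mem hS] with x hx using hb k x hx)
  have hTi : ∀ k, IntegrableOn (T k) S μ := fun k =>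
    hB.mono' (hTm k) (Eventually.of_forall (hTb k))
  have hT2 : Tendsto (fun k => ∫ x in S, Φk k x ∂μ - ∫ x in S, T k x ∂μ) atTop (𝓝 0) := by
    have h0 : Tendsto (fun k => C * ∫ x, max (Gk k x - G x) 0 ∂μ) atTop (𝓝 0) := by
      simp only [hA2]
      simpa using hA1.const_mul C
    refine squeeze_zero_norm (fun k => ?_) h0
    rw [← integral_sub (hΦki k) (hTi k)]
    calc ‖∫ x in S, Φk k x - T k x ∂μ‖ ≤ ∫ x in S, C * max (Gk k x - G x) 0 ∂μ := by
          refine norm_integral_le_of_norm_le ((hI2 k).restrict.const_mul C) ?_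
          filter_upwards [ae_restrict_mem hS] with x hx
          have h1 := abs_le.1 (hb k x hx)
          have h2 : C * (Gk k x - G x) ≤ C * max (Gk k x - G x) 0 :=
            mul_le_mul_of_nonneg_left (le_max_left _ _) hC
          have h3 : 0 ≤ C * max (Gk k x - G x) 0 := mul_nonneg hC (le_max_right _ _)
          have h4 := hB0 x
          rw [Real.norm_eq_abs, abs_le]
          simp only [hT]
          rcases le_total (C * (1 + G x)) (Φk k x) with h5 | h5
          · have h6 : -(C * (1 + G x)) ≤ C * (1 + G x) := by linarith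
            rw [min_eq_left h5, max_eq_right h6]
            constructor <;> nlinarith
          · rw [min_eq_right h5]
            rcases le_total (-(C * (1 + G x))) (Φk k x) with h6 | h6
            · rw [max_eq_right h6]
              constructor <;> nlinarith
            · rw [max_eq_left h6]
              constructor <;> nlinarith
      _ ≤ ∫ x, C * max (Gk k x - G x) 0 ∂μ :=
          setIntegral_le_integral ((hI2 k).const_mul C)
            (Eventually.of_forall fun x => mul_nonneg hC (le_max_right _ _))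
      _ = _ := integral_const_mul _ _
  have := hT2.add hT1
  simpa using this

lemma tangent_pow {a b : ℝ} (ha : 0 ≤ a) (hb : 0 ≤ b) (n : ℕ) :
    b ^ n + n * b ^ (n - 1) * (a - b) ≤ a ^ n := by
  rcases hb.eq_or_lt with h0 | hpos
  · subst h0
    rcases n with _ | _ | n <;> simp
    positivity
  · have h1 := one_add_mul_le_pow (a := a / b - 1) (by
      have : 0 ≤ a / b := by positivity
      linarith) n
    have e : 1 + (a / b - 1) = a / b := by ring
    rw [e, div_pow, le_div_iff₀ (by positivity)] at h1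
    refine le_trans (le_of_eq ?_) h1
    rcases n with _ | n
    · simp
    · simp only [Nat.add_sub_cancel]
      field_simp
      ring

lemma jensen_conv {F : Type*} [NormedAddCommGroup F] [NormedSpace ℝ F]
    {ψ : E n → ℝ} (hψ0 : ∀ t, 0 ≤ ψ t) (hψ1 : ∫ t, ψ t = 1) (hψc : Continuous ψ)
    (hψs : HasCompactSupport ψ) {g : E n → F} (hg : Integrable g)
    (hG : Integrable fun x => ‖g x‖ ^ n) (x : E n) :
    ‖(ψ ⋆[ContinuousLinearMap.lsmul ℝ ℝ, volume] g : E n → F) x‖ ^ n ≤
      (ψ ⋆[ContinuousLinearMap.lsmul ℝ ℝ, volume] (fun x => ‖g x‖ ^ n) : E n → ℝ) x := by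
  have i1 : Integrable fun t => ψ t * ‖g (x - t)‖ :=
    hψs.convolutionExists_left (ContinuousLinearMap.lsmul ℝ ℝ) hψc hg.norm.locallyIntegrable x
  have i2 : Integrable fun t => ψ t * ‖g (x - t)‖ ^ n :=
    hψs.convolutionExists_left (ContinuousLinearMap.lsmul ℝ ℝ) hψc hG.locallyIntegrable x
  have i0 : Integrable ψ := hψc.integrable_of_hasCompactSupport hψs
  set b := ∫ t, ψ t * ‖g (x - t)‖ with hb
  have hb0 : 0 ≤ b := integral_nonneg fun t => mul_nonneg (hψ0 t) (norm_nonneg _)
  have h1 : ‖(ψ ⋆[ContinuousLinearMap.lsmul ℝ ℝ, volume] g : E n → F) x‖ ≤ b := by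
    rw [convolution_lsmul]
    refine norm_integral_le_of_norm_le i1 (Eventually.of_forall fun t => ?_)
    rw [norm_smul, Real.norm_eq_abs, abs_of_nonneg (hψ0 t)]
  refine (pow_le_pow_left₀ (norm_nonneg _) h1 n).trans ?_
  rw [convolution_lsmul]
  have h2 : ∫ t, (ψ t * (b ^ n - n * b ^ (n - 1) * b) + n * b ^ (n - 1) * (ψ t * ‖g (x - t)‖))
      = b ^ n := by
    rw [integral_add (i0.mul_const _) (i1.const_mul _), integral_mul_const, integral_const_mul,
      hψ1, ← hb]
    ring
  rw [← h2]
  refine integral_mono ((i0.mul_const _).add (i1.const_mul _)) i2 fun t => ?_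
  have := mul_le_mul_of_nonneg_left (tangent_pow (norm_nonneg (g (x - t))) hb0 n) (hψ0 t)
  simp only [smul_eq_mul]
  linarith

lemma Sob.integrableOn {Ω : Set (E n)} {f : E n → E n} {g : E n → E n →L[ℝ] E n}
    (h : Sob Ω f g) (hn : 1 ≤ n) {K : Set (E n)} (hK : IsCompact K) (hKΩ : K ⊆ Ω) :
    IntegrableOn g K := by
  have : IsFiniteMeasure (volume.restrict K) := isFiniteMeasure_restrict.2 hK.measure_lt_top.ne
  refine ((integrable_const (1 : ℝ)).add (h.int K hK hKΩ)).mono'
    (h.meas.mono_measure (Measure.restrict_mono hKΩ le_rfl)) (Eventually.of_forall fun x => ?_)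
  exact le_one_add_pow _ (norm_nonneg _) hn

lemma integrable_ind {F : Type*} [NormedAddCommGroup F] {g : E n → F} {K : Set (E n)}
    (hK : MeasurableSet K) (hg : IntegrableOn g K) : Integrable (K.indicator g) :=
  hg.integrable_indicator hK

lemma clm_ext {F : Type*} [NormedAddCommGroup F] [NormedSpace ℝ F] {A B : E n →L[ℝ] F}
    (h : ∀ i, A (ev i) = B (ev i)) : A = B := by
  refine ContinuousLinearMap.coe_injective ((bas n).ext fun i => ?_)
  simpa [bas_apply] using h i

lemma Sob.fderiv_conv {Ω : Set (E n)} {f : E n → E n} {g : E n → E n →L[ℝ] E n}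
    (h : Sob Ω f g) (hn : 1 ≤ n) {K : Set (E n)} (hK : IsCompact K) (hKΩ : K ⊆ Ω)
    (φ : ContDiffBump (0 : E n)) {x : E n} (hx : closedBall x φ.rOut ⊆ K) :
    fderiv ℝ (φ.normed volume ⋆[ContinuousLinearMap.lsmul ℝ ℝ, volume] K.indicator f) x =
      (φ.normed volume ⋆[ContinuousLinearMap.lsmul ℝ ℝ, volume] K.indicator g :
        E n → E n →L[ℝ] E n) x := by
  have hf' : Integrable (K.indicator f) :=
    (integrable_indicator_iff hK.measurableSet).2
      ((h.cont.mono hKΩ).integrableOn_compact hK)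
  have hg' : Integrable (K.indicator g) := integrable_ind hK.measurableSet (h.integrableOn hn hK hKΩ)
  set ψ := φ.normed volume with hψ
  have hψ1 : ContDiff ℝ 1 ψ := φ.contDiff_normed
  have hψs : HasCompactSupport ψ := φ.hasCompactSupport_normed
  rw [(hψs.hasFDerivAt_convolution_left (ContinuousLinearMap.lsmul ℝ ℝ) hψ1
    hf'.locallyIntegrable x).fderiv]
  refine clm_ext fun i => ?_
  have i1 := ((hψs.fderiv ℝ).convolutionExists_left
    ((ContinuousLinearMap.lsmul ℝ ℝ : ℝ →L[ℝ] E n →L[ℝ] E n).precompL (E n))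
    (hψ1.continuous_fderiv one_ne_zero) hf'.locallyIntegrable x).integrable_swap
  have i2 := (hψs.convolutionExists_left
    (ContinuousLinearMap.lsmul ℝ ℝ : ℝ →L[ℝ] (E n →L[ℝ] E n) →L[ℝ] (E n →L[ℝ] E n))
    hψ1.continuous hg'.locallyIntegrable x).integrable_swap
  rw [convolution_eq_swap, convolution_eq_swap, ContinuousLinearMap.integral_apply i1,
    ContinuousLinearMap.integral_apply i2]
  simp only [ContinuousLinearMap.precompL_apply, ContinuousLinearMap.lsmul_apply,
    smul_apply]
  have hsupp : tsupport (fun y => ψ (x - y)) ⊆ closedBall x φ.rOut := by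
    refine closure_minimal (fun y hy => ?_) isClosed_closedBall
    have : x - y ∈ support ψ := hy
    rw [hψ, φ.support_normed_eq, mem_ball_zero_iff] at this
    rw [mem_closedBall, dist_comm, dist_eq_norm]
    exact this.le
  have hc : ContDiff ℝ 1 fun y => ψ (x - y) := hψ1.comp (contDiff_const.sub contDiff_id)
  have hw := h.weak (fun y => ψ (x - y)) hc
    ((isCompact_closedBall x φ.rOut).of_isClosed_subset (isClosed_tsupport _) hsupp)
    (hsupp.trans (hx.trans hKΩ)) i
  have hd : ∀ y, fderiv ℝ (fun y => ψ (x - y)) y (ev i) = - fderiv ℝ ψ (x - y) (ev i) := by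
    intro y
    have := ((hψ1.differentiable one_ne_zero) (x - y)).hasFDerivAt.comp y
      ((hasFDerivAt_const x y).sub (hasFDerivAt_id y))
    have e := this.fderiv
    simp only [Function.comp_def] at e
    rw [e]
    simp
  have z1 : ∀ y, y ∉ K → fderiv ℝ ψ (x - y) (ev i) = 0 := by
    intro y hy
    have h1 : y ∉ tsupport (fun y => ψ (x - y)) := fun h2 => hy (hx (hsupp h2))
    have h2 := hd y
    rw [fderiv_of_notMem_tsupport ℝ h1] at h2
    simpa using h2
  have z2 : ∀ y, y ∉ K → ψ (x - y) = 0 := by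
    intro y hy
    have h1 : y ∉ tsupport (fun y => ψ (x - y)) := fun h2 => hy (hx (hsupp h2))
    exact image_eq_zero_of_notMem_tsupport (f := fun y => ψ (x - y)) h1
  have e1 : ∫ y, fderiv ℝ ψ (x - y) (ev i) • K.indicator f y =
      - ∫ y in Ω, (fderiv ℝ (fun y => ψ (x - y)) y (ev i)) • f y := by
    rw [← integral_neg, ← integral_indicator h.opn.measurableSet]
    refine integral_congr_ae (Eventually.of_forall fun y => ?_)
    by_cases hy : y ∈ K
    · simp [indicator_of_mem hy, indicator_of_mem (hKΩ hy), hd]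
    · by_cases hy' : y ∈ Ω
      · simp [indicator_of_mem hy', hd, z1 y hy]
      · simp [indicator_of_notMem hy', z1 y hy]
  have e2 : ∫ y, ψ (x - y) • K.indicator g y (ev i) = ∫ y in Ω, ψ (x - y) • g y (ev i) := by
    rw [← integral_indicator h.opn.measurableSet]
    refine integral_congr_ae (Eventually.of_forall fun y => ?_)
    by_cases hy : y ∈ K
    · simp [indicator_of_mem hy, indicator_of_mem (hKΩ hy)]
    · by_cases hy' : y ∈ Ω
      · simp [indicator_of_mem hy', z2 y hy]
      · simp [indicator_of_notMem hy', z2 y hy]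
  rw [e1, e2, hw, neg_neg]

/-- Smooth approximation on a compact set, with convergence of integrals of natural growth. -/
theorem Sob.approx {Ω : Set (E n)} {f : E n → E n} {g : E n → E n →L[ℝ] E n}
    (h : Sob Ω f g) (hn : 1 ≤ n) {K : Set (E n)} (hK : IsCompact K) (hKΩ : K ⊆ Ω) :
    ∃ fk : ℕ → E n → E n, (∀ k, ContDiff ℝ 2 (fk k)) ∧ TendstoUniformlyOn fk f atTop K ∧
      ∀ S : Set (E n), MeasurableSet S → S ⊆ K →
      ∀ Ψ : E n × E n × (E n →L[ℝ] E n) → ℝ, Continuous Ψ →
        (∀ R : ℝ, ∃ C : ℝ, ∀ x ∈ S, ∀ y : E n, ‖y‖ ≤ R → ∀ A : E n →L[ℝ] E n,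
          |Ψ (x, y, A)| ≤ C * (1 + ‖A‖ ^ n)) →
        IntegrableOn (fun x => Ψ (x, f x, g x)) S ∧
          Tendsto (fun k => ∫ x in S, Ψ (x, fk k x, fderiv ℝ (fk k) x)) atTop
            (𝓝 (∫ x in S, Ψ (x, f x, g x))) := by
  obtain ⟨δ, hδ, hδΩ⟩ := hK.exists_cthickening_subset_open h.opn hKΩ
  set K' := cthickening δ K with hK'
  have hK'c : IsCompact K' := hK.cthickening
  have hKK' : K ⊆ K' := self_subset_cthickening K
  let φ : ℕ → ContDiffBump (0 : E n) := fun k =>
    ⟨δ / (k + 1) / 2, δ / (k + 1), by positivity, half_lt_self (by positivity)⟩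
  have hφ1 : ∀ k, (φ k).rOut ≤ δ := fun k =>
    div_le_self hδ.le (by linarith [(Nat.cast_nonneg k : (0 : ℝ) ≤ k)])
  have hφ2 : Tendsto (fun k => (φ k).rOut) atTop (𝓝 0) := by
    have := tendsto_one_div_add_atTop_nhds_zero_nat (𝕜 := ℝ) |>.const_mul δ
    simpa [φ, div_eq_mul_inv] using this
  have hφ3 : ∀ᶠ k in atTop, (φ k).rOut ≤ 2 * (φ k).rIn :=
    Eventually.of_forall fun k => le_of_eq (by simp only [φ]; ring)
  have hball : ∀ k, ∀ x ∈ K, closedBall x (φ k).rOut ⊆ K' := fun k x hx =>
    (closedBall_subset_closedBall (hφ1 k)).trans (closedBall_subset_cthickening hx δ)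
  have hf' : Integrable (K'.indicator f) :=
    (integrable_indicator_iff hK'c.measurableSet).2
      ((h.cont.mono hδΩ).integrableOn_compact hK'c)
  have hg' : Integrable (K'.indicator g) :=
    integrable_ind hK'c.measurableSet (h.integrableOn hn hK'c hδΩ)
  have hG' : Integrable fun x => ‖K'.indicator g x‖ ^ n := by
    have := (integrable_indicator_iff hK'c.measurableSet).2 (h.int K' hK'c hδΩ)
    refine this.congr (Eventually.of_forall fun x => ?_)
    by_cases hx : x ∈ K'
    · simp [indicator_of_mem hx]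
    · simp [indicator_of_notMem hx, zero_pow (show n ≠ 0 by omega)]
  let fk : ℕ → E n → E n := fun k =>
    (φ k).normed volume ⋆[ContinuousLinearMap.lsmul ℝ ℝ, volume] K'.indicator f
  have hfk : ∀ k, ContDiff ℝ 2 (fk k) := fun k =>
    (φ k).hasCompactSupport_normed.contDiff_convolution_left _ (n := 2) (φ k).contDiff_normed
      hf'.locallyIntegrable
  have hdist : ∀ k, ∀ x ∈ K, ∀ ε : ℝ, (∀ y ∈ K', dist y x < (φ k).rOut → dist (f y) (f x) ≤ ε) →
      dist (fk k x) (f x) ≤ ε := by
    intro k x hx ε hε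
    have := (φ k).dist_normed_convolution_le (μ := volume) (x₀ := x) (ε := ε)
      hf'.aestronglyMeasurable (fun y hy => by
        have hy' := hball k x hx (ball_subset_closedBall hy)
        rw [indicator_of_mem hy', indicator_of_mem (hKK' hx)]
        exact hε y hy' hy)
    rwa [indicator_of_mem (hKK' hx)] at this
  have hunif : TendstoUniformlyOn fk f atTop K := by
    rw [Metric.tendstoUniformlyOn_iff]
    intro ε hε
    have huc := hK'c.uniformContinuousOn_of_continuous (h.cont.mono hδΩ)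
    rw [Metric.uniformContinuousOn_iff] at huc
    obtain ⟨η, hη, hη'⟩ := huc (ε / 2) (half_pos hε)
    filter_upwards [hφ2.eventually (gt_mem_nhds hη)] with k hk x hx
    have := hdist k x hx (ε / 2) fun y hy hyx => (hη' y hy x (hKK' hx) (hyx.trans hk)).le
    rw [dist_comm]
    linarith
  refine ⟨fk, hfk, hunif, fun S hS hSK Ψ hΨ hgr => ?_⟩
  obtain ⟨R, hR⟩ := hK'c.exists_bound_of_continuousOn (h.cont.mono hδΩ)
  have hfkR : ∀ k, ∀ x ∈ K, ‖fk k x‖ ≤ 3 * R := by
    intro k x hx
    have h1 := hdist k x hx (2 * R) fun y hy _ => by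
      have := dist_le_norm_add_norm (f y) (f x)
      linarith [hR y hy, hR x (hKK' hx)]
    have h2 := norm_le_norm_add_norm_sub' (fk k x) (f x)
    rw [dist_eq_norm] at h1
    linarith [hR x (hKK' hx)]
  obtain ⟨C, hC⟩ := hgr (3 * R)
  have hder : ∀ k, ∀ x ∈ K, fderiv ℝ (fk k) x =
      ((φ k).normed volume ⋆[ContinuousLinearMap.lsmul ℝ ℝ, volume] K'.indicator g :
        E n → E n →L[ℝ] E n) x := fun k x hx => h.fderiv_conv hn hK'c hδΩ (φ k) (hball k x hx)
  refine pratt (G := fun x => ‖K'.indicator g x‖ ^ n)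
    (Gk := fun k => (φ k).normed volume ⋆[ContinuousLinearMap.lsmul ℝ ℝ, volume]
      (fun x => ‖K'.indicator g x‖ ^ n)) (C := max C 0) hS
    ((measure_mono hSK).trans_lt hK.measure_lt_top).ne (le_max_right _ _) hG'
    (fun k => (φ k).integrable_normed.integrable_convolution _ hG') (fun k x => ?_)
    (fun x => by positivity) (fun k => ?_)
    (ContDiffBump.ae_convolution_tendsto_right_of_locallyIntegrable hφ2 hφ3 hG'.locallyIntegrable)
    (fun k => ?_) (fun k x hx => ?_) ?_
  · rw [convolution_lsmul]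
    exact integral_nonneg fun t => smul_nonneg ((φ k).nonneg_normed t) (by positivity)
  · rw [integral_convolution _ (φ k).integrable_normed hG', (φ k).integral_normed]
    simp
  · refine Continuous.aestronglyMeasurable (hΨ.comp ?_)
    exact continuous_id.prodMk ((hfk k).continuous.prodMk ((hfk k).continuous_fderiv two_ne_zero))
  · refine (hC x hx _ (hfkR k x (hSK hx)) _).trans ?_
    have h1 := jensen_conv ((φ k).nonneg_normed (μ := volume)) (φ k).integral_normed
      (φ k).continuous_normed (φ k).hasCompactSupport_normed hg' hG' x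
    rw [← hder k x (hSK hx)] at h1
    have h2 : 0 ≤ ‖fderiv ℝ (fk k) x‖ ^ n := by positivity
    exact mul_le_mul (le_max_left _ _) (by linarith) (by linarith) (le_max_right _ _)
  · have h1 := ContDiffBump.ae_convolution_tendsto_right_of_locallyIntegrable (μ := volume)
      hφ2 hφ3 hg'.locallyIntegrable
    filter_upwards [ae_restrict_of_ae h1, ae_restrict_mem hS] with x h2 hx
    rw [indicator_of_mem (hKK' (hSK hx))] at h2
    refine (hΨ.tendsto _).comp (tendsto_const_nhds.prodMk_nhds
      ((hunif.tendsto_at (hSK hx)).prodMk_nhds ?_))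
    simpa only [hder _ x (hSK hx)] using h2

end Pool.Agent.Lib.MP_010b1d_an
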