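import Mathlib

/-! Linear algebra: the determinant form, the cofactor map and the Cramer identity. -/

set_option autoImplicit false

open MeasureTheory Set Filter Topology Function

namespace Pool.Agent.Lib.MP_010b1d_an

/-- Euclidean space. -/
abbrev E (n : ℕ) := EuclideanSpace ℝ (Fin n)

variable {n : ℕ}

/-- The standard basis. -/
noncomputable def bas (n : ℕ) : Module.Basis (Fin n) ℝ (E n) :=
  (EuclideanSpace.basisFun (Fin n) ℝ).toBasis

/-- The standard basis vectors. -/
noncomputable def ev (i : Fin n) : E n := EuclideanSpace.single i 1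

lemma bas_apply (i : Fin n) : bas n i = ev i := by
  simp [bas, ev]

lemma bas_repr (x : E n) (i : Fin n) : (bas n).repr x i = x i := by
  simp [bas]

lemma norm_ev (i : Fin n) : ‖ev i‖ = 1 := by simp [ev]

lemma sum_ev (x : E n) : ∑ i, x i • ev i = x := by
  have := (bas n).sum_repr x
  simpa [bas_apply, bas_repr] using this

lemma continuous_basdet : Continuous fun v : Fin n → E n => (bas n).det v := by
  simp only [Module.Basis.det_apply]
  refine Continuous.matrix_det ?_
  refine continuous_pi fun i => continuous_pi fun j => ?_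
  simp only [Module.Basis.toMatrix_apply, bas_repr]
  fun_prop

/-- The determinant as a continuous multilinear form. -/
noncomputable def DD (n : ℕ) : ContinuousMultilinearMap ℝ (fun _ : Fin n => E n) ℝ :=
  ⟨(bas n).det.toMultilinearMap, continuous_basdet⟩

lemma DD_apply (v : Fin n → E n) : DD n v = (bas n).det v := rfl

/-- Columns of a linear map. -/
noncomputable def cols (A : E n →L[ℝ] E n) : Fin n → E n := fun i => A (ev i)

/-- Jacobian determinant. -/
noncomputable def jac (A : E n →L[ℝ] E n) : ℝ := LinearMap.det (A : E n →ₗ[ℝ] E n)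

lemma DD_cols (A : E n →L[ℝ] E n) : DD n (cols A) = jac A := by
  have h := (bas n).det_comp (A : E n →ₗ[ℝ] E n) (bas n)
  rw [Module.Basis.det_self, mul_one] at h
  rw [DD_apply, jac, ← h]
  congr 1
  funext i
  simp [cols, bas_apply]

/-- The adjugate of `A` applied to `h`. -/
noncomputable def cof (A : E n →L[ℝ] E n) (h : E n) : E n :=
  ∑ i, DD n (update (cols A) i h) • ev i

lemma cramer (v : Fin n → E n) (h : E n) :
    ∑ i, DD n (update v i h) • v i = DD n v • h := by
  have h1 := Matrix.mulVec_cramer ((bas n).toMatrix v) ((bas n).repr h)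
  ext j
  have h2 := congrFun h1 j
  simp only [Matrix.mulVec, dotProduct, Matrix.cramer_apply, Pi.smul_apply, smul_eq_mul] at h2
  simp only [DD_apply, Module.Basis.det_apply, Module.Basis.toMatrix_update]
  simp only [WithLp.ofLp_sum, WithLp.ofLp_smul, Finset.sum_apply, Pi.smul_apply, smul_eq_mul]
  rw [bas_repr] at h2
  rw [← h2]
  refine Finset.sum_congr rfl fun i _ => ?_
  rw [Module.Basis.toMatrix_apply, bas_repr, mul_comm]

lemma apply_cof (A : E n →L[ℝ] E n) (h : E n) : A (cof A h) = jac A • h := by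
  rw [cof, map_sum, ← DD_cols, ← cramer]
  simp [cols]

lemma continuous_cols : Continuous fun A : E n →L[ℝ] E n => cols A := by
  unfold cols
  fun_prop

lemma continuous_jac : Continuous fun A : E n →L[ℝ] E n => jac A := by
  simp only [← DD_cols]
  exact (DD n).cont.comp continuous_cols

lemma continuous_cof : Continuous fun p : (E n →L[ℝ] E n) × E n => cof p.1 p.2 := by
  unfold cof
  refine continuous_finsetSum _ fun i _ => ?_
  have h1 : Continuous fun p : (E n →L[ℝ] E n) × E n => DD n (update (cols p.1) i p.2) :=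
    (DD n).cont.comp ((continuous_cols.comp continuous_fst).update i continuous_snd)
  exact h1.smul continuous_const

lemma continuous_cof' {X : Type*} [TopologicalSpace X] {A : X → E n →L[ℝ] E n} {w : X → E n}
    (hA : Continuous A) (hw : Continuous w) : Continuous fun x => cof (A x) (w x) :=
  continuous_cof.comp (f := fun x => (A x, w x)) (hA.prodMk hw)

lemma norm_cols_le (A : E n →L[ℝ] E n) (i : Fin n) : ‖cols A i‖ ≤ ‖A‖ := by
  simpa [cols, norm_ev] using A.le_opNorm (ev i)

lemma abs_jac_le (A : E n →L[ℝ] E n) : |jac A| ≤ ‖DD n‖ * ‖A‖ ^ n := by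
  rw [← DD_cols]
  refine ((DD n).le_opNorm _).trans ?_
  refine mul_le_mul_of_nonneg_left ?_ (norm_nonneg _)
  calc ∏ i, ‖cols A i‖ ≤ ∏ _i : Fin n, ‖A‖ :=
        Finset.prod_le_prod (fun i _ => norm_nonneg _) fun i _ => norm_cols_le A i
    _ = ‖A‖ ^ n := by simp

lemma abs_update_le (A : E n →L[ℝ] E n) (i : Fin n) (h : E n) :
    |DD n (update (cols A) i h)| ≤ ‖DD n‖ * (‖h‖ * ‖A‖ ^ (n - 1)) := by
  refine ((DD n).le_opNorm _).trans ?_
  refine mul_le_mul_of_nonneg_left ?_ (norm_nonneg _)
  rw [← Finset.mul_prod_erase Finset.univ _ (Finset.mem_univ i), update_self]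
  refine mul_le_mul_of_nonneg_left ?_ (norm_nonneg _)
  calc ∏ j ∈ Finset.univ.erase i, ‖update (cols A) i h j‖
      ≤ ∏ _j ∈ Finset.univ.erase i, ‖A‖ := by
        refine Finset.prod_le_prod (fun i _ => norm_nonneg _) fun j hj => ?_
        rw [update_of_ne (Finset.ne_of_mem_erase hj)]
        exact norm_cols_le A j
    _ = ‖A‖ ^ (n - 1) := by simp

lemma norm_cof_le (A : E n →L[ℝ] E n) (h : E n) :
    ‖cof A h‖ ≤ n * ‖DD n‖ * (‖h‖ * ‖A‖ ^ (n - 1)) := by
  refine (norm_sum_le _ _).trans ?_
  calc ∑ i, ‖DD n (update (cols A) i h) • ev i‖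
      ≤ ∑ _i : Fin n, ‖DD n‖ * (‖h‖ * ‖A‖ ^ (n - 1)) := by
        refine Finset.sum_le_sum fun i _ => ?_
        rw [norm_smul, norm_ev, mul_one]
        exact abs_update_le A i h
    _ = _ := by simp [mul_assoc]

lemma pow_pred_le (a : ℝ) (ha : 0 ≤ a) (n : ℕ) : a ^ (n - 1) ≤ 1 + a ^ n := by
  rcases le_total a 1 with h | h
  · have := pow_le_one₀ (n := n - 1) ha h
    have := pow_nonneg ha n
    linarith
  · have := pow_le_pow_right₀ h (Nat.sub_le n 1)
    linarith

lemma le_one_add_pow (a : ℝ) (ha : 0 ≤ a) {n : ℕ} (hn : 1 ≤ n) : a ≤ 1 + a ^ n := by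
  rcases le_total a 1 with h | h
  · have := pow_nonneg ha n
    linarith
  · have := pow_le_pow_right₀ h hn
    rw [pow_one] at this
    linarith

/-- The key pointwise bound for the adjugate in terms of the inner dilatation. -/
lemma cof_bound (hn : 2 ≤ n) {K KI : ℝ} (hKI : 0 ≤ KI) (A : E n →L[ℝ] E n)
    (h1 : ‖A‖ ^ n ≤ K * jac A) (hK : 0 < K)
    (h2 : ∀ h : E n, ‖h‖ = 1 → jac A ≤ KI * ‖A h‖ ^ n) (y : E n) :
    ‖cof A y‖ ^ n ≤ KI * jac A ^ (n - 1) * ‖y‖ ^ n := by
  have hJ : 0 ≤ jac A := by
    by_contra hneg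
    have := mul_neg_of_pos_of_neg hK (not_le.1 hneg)
    have := pow_nonneg (norm_nonneg A) n
    linarith
  rcases hJ.eq_or_lt with h0 | hpos
  · have hA : ‖A‖ = 0 := by
      rw [← h0, mul_zero] at h1
      exact pow_eq_zero_iff (by omega) |>.1 (le_antisymm h1 (by positivity))
    have := norm_cof_le A y
    rw [hA, zero_pow (by omega), mul_zero, mul_zero] at this
    have h3 : ‖cof A y‖ = 0 := le_antisymm this (norm_nonneg _)
    rw [h3, zero_pow (by omega)]
    positivity
  · by_cases hc : cof A y = 0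
    · rw [hc, norm_zero, zero_pow (by omega)]
      positivity
    · have hcn : 0 < ‖cof A y‖ := norm_pos_iff.2 hc
      have h3 := h2 (‖cof A y‖⁻¹ • cof A y) (by
        rw [norm_smul, norm_inv, norm_norm, inv_mul_cancel₀ hcn.ne'])
      rw [map_smul, apply_cof, norm_smul, norm_smul, norm_inv, norm_norm, Real.norm_eq_abs,
        abs_of_pos hpos, mul_pow, mul_pow, inv_pow] at h3
      have h4 : jac A ^ n = jac A * jac A ^ (n - 1) := by
        rw [← pow_succ']; congr 1; omega
      have h5 : 0 < ‖cof A y‖ ^ n := pow_pos hcn n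
      rw [h4] at h3
      have h6 : jac A * ‖cof A y‖ ^ n ≤ jac A * (KI * jac A ^ (n - 1) * ‖y‖ ^ n) := by
        have := mul_le_mul_of_nonneg_right h3 h5.le
        calc _ ≤ _ := this
          _ = _ := by field_simp
      exact le_of_mul_le_mul_left h6 hpos

/-- Young inequality with the sharp constant, in polynomial form. -/
lemma young (hn : 2 ≤ n) {KI a b p : ℝ} (hKI : 0 ≤ KI) (ha : 0 ≤ a) (hb : 0 ≤ b) (hp : 0 ≤ p)
    (h : a ^ n ≤ KI * p ^ (n - 1)) :
    a * b ≤ p + ((n - 1 : ℝ) ^ (n - 1) / (n : ℝ) ^ n) * KI * b ^ n := by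
  have hn1 : (0 : ℝ) < n - 1 := by
    have : (2 : ℝ) ≤ n := by exact_mod_cast hn
    linarith
  have hn0 : (0 : ℝ) < n := by linarith
  set q := ((n - 1 : ℝ) ^ (n - 1) / (n : ℝ) ^ n) * KI * b ^ n with hq
  have hq0 : 0 ≤ q := by positivity
  rcases hp.eq_or_lt with h0 | hpos
  · rw [← h0, zero_pow (by omega), mul_zero] at h
    have : a = 0 := pow_eq_zero_iff (by omega) |>.1 (le_antisymm h (by positivity))
    rw [this, zero_mul]
    linarith
  · set x := p / (n - 1) with hx
    have hx0 : 0 < x := by positivity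
    have hb1 := one_add_mul_le_pow (a := (q / x - 1) / n) (by
      have : -1 ≤ (q / x - 1) / n := by
        rw [le_div_iff₀ hn0]
        have : 0 ≤ q / x := by positivity
        linarith
      linarith) n
    have e1 : 1 + (n : ℝ) * ((q / x - 1) / n) = q / x := by field_simp; ring
    have e2 : 1 + (q / x - 1) / n = (p + q) / (n * x) := by
      have : p = (n - 1) * x := by rw [hx]; field_simp
      rw [this]; field_simp; ring
    rw [e1, e2, div_pow, div_le_div_iff₀ hx0 (by positivity), mul_pow] at hb1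
    have e3 : x ^ n = x * x ^ (n - 1) := by
      rw [← pow_succ']; congr 1; omega
    have e4 : q * ((n : ℝ) ^ n * x ^ n) = (KI * p ^ (n - 1) * b ^ n) * x := by
      rw [e3, hq, hx, div_pow]; field_simp
    rw [e4] at hb1
    have h7 : KI * p ^ (n - 1) * b ^ n ≤ (p + q) ^ n := le_of_mul_le_mul_right hb1 hx0
    have h8 : (a * b) ^ n ≤ (p + q) ^ n := by
      rw [mul_pow]
      exact (mul_le_mul_of_nonneg_right h (by positivity)).trans h7
    exact (pow_le_pow_iff_left₀ (by positivity) (by positivity) (by omega)).1 h8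

end Pool.Agent.Lib.MP_010b1d_an
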