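import Pool.Agent.Lib.MP_010b1d_an.Basic

/-! One-dimensional cutoff functions and radial functions. -/

set_option autoImplicit false

open MeasureTheory Set Filter Topology Function Metric

namespace Pool.Agent.Lib.MP_010b1d_an

variable {n : ℕ}

/-- A smooth transition from 0 to 1. -/
noncomputable def zt : ℝ → ℝ := Real.smoothTransition

/-- Its derivative. -/
noncomputable def zd : ℝ → ℝ := deriv zt

lemma contDiff_zt : ContDiff ℝ 2 zt := Real.smoothTransition.contDiff (n := 2)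

lemma contDiff_zt1 : ContDiff ℝ 1 zt := contDiff_zt.of_le one_le_two

lemma hasDerivAt_zt (s : ℝ) : HasDerivAt zt (zd s) s :=
  (contDiff_zt1.differentiable one_ne_zero s).hasDerivAt

lemma continuous_zd : Continuous zd := (contDiff_one_iff_deriv.1 contDiff_zt1).2

lemma zt_nonneg (s : ℝ) : 0 ≤ zt s := Real.smoothTransition.nonneg s
lemma zt_le_one (s : ℝ) : zt s ≤ 1 := Real.smoothTransition.le_one s
lemma zt_zero {s : ℝ} (h : s ≤ 0) : zt s = 0 := Real.smoothTransition.zero_of_nonpos h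
lemma zt_one {s : ℝ} (h : 1 ≤ s) : zt s = 1 := Real.smoothTransition.one_of_one_le h
lemma zt_pos {s : ℝ} (h : 0 < s) : 0 < zt s := Real.smoothTransition.pos_of_pos h
lemma zt_mono : Monotone zt := Real.smoothTransition.monotone
lemma zd_nonneg (s : ℝ) : 0 ≤ zd s := zt_mono.deriv_nonneg

lemma zd_zero {s : ℝ} (h : s ≤ 0) : zd s = 0 :=
  IsLocalMin.deriv_eq_zero (Eventually.of_forall fun t => by rw [zt_zero h]; exact zt_nonneg t)

lemma zd_one {s : ℝ} (h : 1 ≤ s) : zd s = 0 :=
  IsLocalMax.deriv_eq_zero (Eventually.of_forall fun t => by rw [zt_one h]; exact zt_le_one t)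

lemma zd_bdd : ∃ B : ℝ, 1 ≤ B ∧ ∀ s, zd s ≤ B := by
  obtain ⟨B, hB⟩ := (isCompact_Icc (a := (0 : ℝ)) (b := 1)).exists_bound_of_continuousOn
    continuous_zd.continuousOn
  refine ⟨max B 1, le_max_right _ _, fun s => ?_⟩
  rcases le_total s 0 with h | h
  · rw [zd_zero h]; positivity
  rcases le_total 1 s with h' | h'
  · rw [zd_one h']; positivity
  exact ((le_abs_self _).trans (hB s ⟨h, h'⟩)).trans (le_max_left _ _)

lemma integral_zd : ∫ s, zd s = 1 := by
  rw [← intervalIntegral.integral_eq_integral_of_support_subset (a := 0) (b := 1),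
    intervalIntegral.integral_eq_sub_of_hasDerivAt (fun s _ => hasDerivAt_zt s)
      (continuous_zd.intervalIntegrable _ _), zt_one le_rfl, zt_zero le_rfl, sub_zero]
  intro s hs
  by_contra h
  rw [mem_Ioc, not_and_or, not_lt, not_le] at h
  rcases h with h | h
  · exact hs (zd_zero h)
  · exact hs (zd_one h.le)

/-- The primitive of `zt`. -/
noncomputable def chi (s : ℝ) : ℝ := ∫ t in (0 : ℝ)..s, zt t

lemma hasDerivAt_chi (s : ℝ) : HasDerivAt chi (zt s) s :=
  (contDiff_zt.continuous.integral_hasStrictDerivAt 0 s).hasDerivAt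

lemma contDiff_chi : ContDiff ℝ 1 chi := by
  refine contDiff_one_iff_deriv.2 ⟨fun s => (hasDerivAt_chi s).differentiableAt, ?_⟩
  have : deriv chi = zt := funext fun s => (hasDerivAt_chi s).deriv
  rw [this]
  exact contDiff_zt.continuous

lemma chi_sub (a b : ℝ) : chi b - chi a = ∫ t in a..b, zt t :=
  intervalIntegral.integral_interval_sub_left (contDiff_zt.continuous.intervalIntegrable _ _)
    (contDiff_zt.continuous.intervalIntegrable _ _)

lemma chi_zero {s : ℝ} (h : s ≤ 0) : chi s = 0 := by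
  unfold chi
  rw [intervalIntegral.integral_congr (g := fun _ => 0)]
  · simp
  · intro t ht
    rw [uIcc_of_ge h] at ht
    exact zt_zero ht.2

lemma chi_mono : Monotone chi := by
  intro a b hab
  have := intervalIntegral.integral_nonneg (μ := volume) hab fun t _ => zt_nonneg t
  rw [← chi_sub] at this
  linarith

lemma chi_nonneg (s : ℝ) : 0 ≤ chi s := by
  rcases le_total s 0 with h | h
  · rw [chi_zero h]
  · have := chi_mono h
    rwa [chi_zero le_rfl] at this

lemma chi_sub_le {a b : ℝ} (hab : a ≤ b) : chi b - chi a ≤ b - a := by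
  rw [chi_sub]
  have := intervalIntegral.integral_mono_on (μ := volume) hab
    (contDiff_zt.continuous.intervalIntegrable _ _)
    (continuous_const (y := (1 : ℝ)).intervalIntegrable _ _) fun t _ => zt_le_one t
  simpa using this

lemma chi_sub_eq {a b : ℝ} (ha : 1 ≤ a) (hab : a ≤ b) : chi b - chi a = b - a := by
  rw [chi_sub, intervalIntegral.integral_congr (g := fun _ => 1)]
  · simp
  · intro t ht
    rw [uIcc_of_le hab] at ht
    exact zt_one (ha.trans ht.1)

lemma le_chi (s : ℝ) : s - 1 ≤ chi s := by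
  rcases le_total s 1 with h | h
  · linarith [chi_nonneg s]
  · linarith [chi_sub_eq le_rfl h, chi_nonneg 1]

/-- A truncated version of `chi`. -/
noncomputable def GG (m s : ℝ) : ℝ := chi s - chi (s - m)

/-- Its derivative. -/
noncomputable def Gd (m s : ℝ) : ℝ := zt s - zt (s - m)

lemma hasDerivAt_GG (m s : ℝ) : HasDerivAt (GG m) (Gd m s) s := by
  have := (hasDerivAt_chi s).sub ((hasDerivAt_chi (s - m)).comp_sub_const s m)
  exact this

lemma contDiff_GG (m : ℝ) : ContDiff ℝ 1 (GG m) :=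
  contDiff_chi.sub (contDiff_chi.comp (contDiff_id.sub contDiff_const))

lemma contDiff_Gd (m : ℝ) : ContDiff ℝ 1 (Gd m) :=
  contDiff_zt1.sub (contDiff_zt1.comp (contDiff_id.sub contDiff_const))

lemma hasDerivAt_Gd (m s : ℝ) : HasDerivAt (Gd m) (zd s - zd (s - m)) s := by
  have := (hasDerivAt_zt s).sub ((hasDerivAt_zt (s - m)).comp_sub_const s m)
  exact this

lemma GG_zero {m s : ℝ} (hm : 0 ≤ m) (h : s ≤ 0) : GG m s = 0 := by
  rw [GG, chi_zero h, chi_zero (by linarith), sub_zero]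

lemma GG_top {m s : ℝ} (hm : 0 ≤ m) (h : m + 1 ≤ s) : GG m s = m := by
  rw [GG, chi_sub_eq (by linarith) (by linarith)]; ring

lemma GG_le {m : ℝ} (hm : 0 ≤ m) (s : ℝ) : GG m s ≤ m := by
  have := chi_sub_le (a := s - m) (b := s) (by linarith)
  rw [GG]; linarith

lemma GG_nonneg {m : ℝ} (hm : 0 ≤ m) (s : ℝ) : 0 ≤ GG m s := by
  have := chi_mono (show s - m ≤ s by linarith)
  rw [GG]; linarith

lemma GG_eq_chi {m s : ℝ} (h : s ≤ m) : GG m s = chi s := by
  rw [GG, chi_zero (s := s - m) (by linarith), sub_zero]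

lemma Gd_nonneg {m : ℝ} (hm : 0 ≤ m) (s : ℝ) : 0 ≤ Gd m s := by
  have := zt_mono (show s - m ≤ s by linarith)
  rw [Gd]; linarith

lemma Gd_le_one (m s : ℝ) : Gd m s ≤ 1 := by
  rw [Gd]; linarith [zt_le_one s, zt_nonneg (s - m)]

lemma Gd_zero {m s : ℝ} (hm : 0 ≤ m) (h : s ≤ 0) : Gd m s = 0 := by
  rw [Gd, zt_zero h, zt_zero (by linarith), sub_zero]

lemma Gd_top {m s : ℝ} (hm : 0 ≤ m) (h : m + 1 ≤ s) : Gd m s = 0 := by
  rw [Gd, zt_one (by linarith), zt_one (by linarith), sub_self]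

lemma GG_mono {m : ℝ} (hm : 0 ≤ m) : Monotone (GG m) :=
  monotone_of_deriv_nonneg (fun s => (hasDerivAt_GG m s).differentiableAt) fun s => by
    rw [(hasDerivAt_GG m s).deriv]; exact Gd_nonneg hm s

lemma integral_Gd_pow (hn : 1 ≤ n) {m : ℝ} (hm : 0 ≤ m) : ∫ s, Gd m s ^ n ≤ m + 1 := by
  rw [← intervalIntegral.integral_eq_integral_of_support_subset (a := 0) (b := m + 1)]
  · have := intervalIntegral.integral_mono_on (μ := volume) (show (0 : ℝ) ≤ m + 1 by linarith)
      (((contDiff_Gd m).continuous.pow n).intervalIntegrable _ _)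
      (continuous_const (y := (1 : ℝ)).intervalIntegrable _ _)
      fun t _ => pow_le_one₀ (Gd_nonneg hm t) (Gd_le_one m t)
    simpa using this
  · intro s hs
    by_contra h
    rw [mem_Ioc, not_and_or, not_lt, not_le] at h
    rcases h with h | h
    · exact hs (by simp [Gd_zero hm h, zero_pow (show n ≠ 0 by omega)])
    · exact hs (by simp [Gd_top hm h.le, zero_pow (show n ≠ 0 by omega)])

/-- Logarithmic level of `y` relative to the centre `y0` and the scale `lam`. -/
noncomputable def lv (lam : ℝ) (y0 y : E n) : ℝ := Real.log (max ‖y - y0‖ lam / (2 * lam))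

/-- The weight `|y - y0|^{-n}`, cut off near the centre. -/
noncomputable def wt (lam : ℝ) (y0 y : E n) : ℝ := (max ‖y - y0‖ lam ^ n)⁻¹

lemma continuous_lv {lam : ℝ} (hl : 0 < lam) (y0 : E n) : Continuous (lv lam y0) := by
  unfold lv
  refine Continuous.log (by fun_prop) fun y => ?_
  have : 0 < max ‖y - y0‖ lam := lt_max_of_lt_right hl
  positivity

lemma continuous_wt {lam : ℝ} (hl : 0 < lam) (y0 : E n) : Continuous (wt lam y0) := by
  unfold wt
  refine Continuous.inv₀ (by fun_prop) fun y => ?_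
  have : 0 < max ‖y - y0‖ lam := lt_max_of_lt_right hl
  positivity

lemma wt_pos {lam : ℝ} (hl : 0 < lam) (y0 y : E n) : 0 < wt lam y0 y := by
  have : 0 < max ‖y - y0‖ lam := lt_max_of_lt_right hl
  unfold wt
  positivity

lemma wt_eq {lam : ℝ} (hl : 0 < lam) (y0 y : E n) :
    wt lam y0 y = ((2 * lam) ^ n)⁻¹ * Real.exp (-(n * lv lam y0 y)) := by
  have : 0 < max ‖y - y0‖ lam := lt_max_of_lt_right hl
  rw [Real.exp_neg, Real.exp_nat_mul, lv, Real.exp_log (by positivity), wt, div_pow]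
  field_simp

lemma wt_eq' {lam : ℝ} {y0 y : E n} (h : lam ≤ ‖y - y0‖) : wt lam y0 y = (‖y - y0‖ ^ n)⁻¹ := by
  rw [wt, max_eq_left h]

lemma lv_le {lam : ℝ} (hl : 0 < lam) {y0 y : E n} {t : ℝ} (h : ‖y - y0‖ ≤ t) (ht : lam ≤ t) :
    lv lam y0 y ≤ Real.log (t / (2 * lam)) := by
  have : 0 < max ‖y - y0‖ lam := lt_max_of_lt_right hl
  refine Real.log_le_log (by positivity) ?_
  gcongr
  exact max_le h ht

lemma le_lv {lam : ℝ} (hl : 0 < lam) {y0 y : E n} {t : ℝ} (h : t ≤ ‖y - y0‖) (ht : 0 < t) :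
    Real.log (t / (2 * lam)) ≤ lv lam y0 y := by
  refine Real.log_le_log (by positivity) ?_
  gcongr
  exact le_max_of_le_left h

lemma lv_nonpos {lam : ℝ} (hl : 0 < lam) {y0 y : E n} (h : ‖y - y0‖ ≤ 2 * lam) :
    lv lam y0 y ≤ 0 := by
  have := lv_le hl h (by linarith)
  rwa [div_self (by positivity), Real.log_one] at this

lemma one_le_lv {lam : ℝ} (hl : 0 < lam) {y0 y : E n} (h : 11 / 2 * lam ≤ ‖y - y0‖) :
    1 ≤ lv lam y0 y := by
  refine le_trans ?_ (le_lv hl h (by positivity))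
  rw [Real.le_log_iff_exp_le (by positivity)]
  have := Real.exp_one_lt_d9
  have e : 11 / 2 * lam / (2 * lam) = 11 / 4 := by field_simp; norm_num
  rw [e]
  linarith

lemma lv_eventually {lam : ℝ} (hl : 0 < lam) {y0 y : E n} (h : lam < ‖y - y0‖) :
    lv lam y0 =ᶠ[𝓝 y] fun y => Real.log (‖y - y0‖ ^ 2) / 2 - Real.log (2 * lam) := by
  have : ∀ᶠ z in 𝓝 y, lam < ‖z - y0‖ :=
    (isOpen_lt continuous_const (by fun_prop)).mem_nhds h
  filter_upwards [this] with z hz
  rw [lv, max_eq_left hz.le, Real.log_div (hl.trans hz).ne' (by positivity), Real.log_pow]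
  simp

lemma hasFDerivAt_lv {lam : ℝ} (hl : 0 < lam) {y0 y : E n} (h : lam < ‖y - y0‖) :
    HasFDerivAt (lv lam y0) ((‖y - y0‖ ^ 2)⁻¹ • innerSL ℝ (y - y0)) y := by
  have h0 : 0 < ‖y - y0‖ := hl.trans h
  have h1 := ((((hasFDerivAt_id y).sub_const y0).norm_sq.log (by
    simp only [id]; positivity)).mul_const (1 / 2 : ℝ)).sub_const (Real.log (2 * lam))
  refine HasFDerivAt.congr_of_eventuallyEq ?_ (lv_eventually hl h)
  refine (h1.congr_fderiv ?_).congr_of_eventuallyEq (Eventually.of_forall fun z => ?_)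
  · ext v
    simp
    ring
  · simp
    ring

lemma contDiffAt_lv {lam : ℝ} (hl : 0 < lam) {y0 y : E n} (h : lam < ‖y - y0‖) :
    ContDiffAt ℝ 1 (lv lam y0) y := by
  have h0 : 0 < ‖y - y0‖ := hl.trans h
  refine ContDiffAt.congr_of_eventuallyEq ?_ (lv_eventually hl h)
  refine ContDiffAt.sub (ContDiffAt.div_const (ContDiffAt.log ?_ (by positivity)) 2)
    contDiffAt_const
  exact (contDiffAt_id.sub contDiffAt_const).norm_sq ℝ

lemma contDiff_comp_lv {X : Type*} [NormedAddCommGroup X] [NormedSpace ℝ X] {lam : ℝ}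
    (hl : 0 < lam) (y0 : E n) {Θ : X × ℝ → ℝ} (hΘ : ContDiff ℝ 1 Θ)
    (h0 : ∀ x s, s ≤ 0 → Θ (x, s) = 0) :
    ContDiff ℝ 1 fun p : X × E n => Θ (p.1, lv lam y0 p.2) := by
  refine contDiff_iff_contDiffAt.2 fun p => ?_
  by_cases h : lam < ‖p.2 - y0‖
  · exact hΘ.contDiffAt.comp p
      (contDiffAt_fst.prodMk ((contDiffAt_lv hl h).comp p contDiffAt_snd))
  · have : ∀ᶠ q : X × E n in 𝓝 p, ‖q.2 - y0‖ < 2 * lam :=
      (isOpen_lt (by fun_prop) continuous_const).mem_nhds (by
        show ‖p.2 - y0‖ < 2 * lam; linarith [not_lt.1 h])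
    refine (contDiffAt_const (c := (0 : ℝ))).congr_of_eventuallyEq ?_
    filter_upwards [this] with q hq using h0 _ _ (lv_nonpos hl hq.le)

lemma contDiff_comp_lv' {lam : ℝ} (hl : 0 < lam) (y0 : E n) {Ψ : ℝ → ℝ} (hΨ : ContDiff ℝ 1 Ψ)
    (h0 : ∀ s, s ≤ 0 → Ψ s = 0) : ContDiff ℝ 1 fun y : E n => Ψ (lv lam y0 y) := by
  have := contDiff_comp_lv (X := ℝ) hl y0 (Θ := fun p => Ψ p.2) (hΨ.comp contDiff_snd)
    fun _ s hs => h0 s hs
  have h2 : ContDiff ℝ 1 fun y : E n => ((0 : ℝ), y) := contDiff_const.prodMk contDiff_id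
  have h3 := this.comp h2
  simpa only [Function.comp_def] using h3

lemma norm_fderiv_comp_lv (hn : 1 ≤ n) {lam : ℝ} (hl : 0 < lam) (y0 : E n) {Ψ Ψ' : ℝ → ℝ}
    (hΨ : ∀ s, HasDerivAt Ψ (Ψ' s) s) (h0 : ∀ s, s ≤ 0 → Ψ s = 0) (y : E n) :
    ‖fderiv ℝ (fun y : E n => Ψ (lv lam y0 y)) y‖ ^ n = |Ψ' (lv lam y0 y)| ^ n * wt lam y0 y := by
  by_cases h : lam < ‖y - y0‖
  · have h1 := ((hΨ _).comp_hasFDerivAt y (hasFDerivAt_lv hl h)).fderiv
    simp only [Function.comp_def] at h1
    have h2 : 0 < ‖y - y0‖ := hl.trans h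
    rw [h1, norm_smul, norm_smul, innerSL_apply_norm, wt_eq' h.le, mul_pow, Real.norm_eq_abs,
      norm_inv, norm_pow, norm_norm]
    have e : (‖y - y0‖ ^ 2)⁻¹ * ‖y - y0‖ = ‖y - y0‖⁻¹ := by field_simp
    rw [e, inv_pow]
  · have h3 : ‖y - y0‖ < 2 * lam := by linarith [not_lt.1 h]
    have : ∀ᶠ q : E n in 𝓝 y, ‖q - y0‖ < 2 * lam :=
      (isOpen_lt (by fun_prop) continuous_const).mem_nhds h3
    have e : (fun y : E n => Ψ (lv lam y0 y)) =ᶠ[𝓝 y] fun _ => 0 := by
      filter_upwards [this] with q hq using h0 _ (lv_nonpos hl hq.le)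
    have h4 : lv lam y0 y < 0 := by
      rw [lv, max_eq_right (not_lt.1 h)]
      exact Real.log_neg (by positivity) (by rw [div_lt_one (by positivity)]; linarith)
    have e2 : Ψ =ᶠ[𝓝 (lv lam y0 y)] fun _ => 0 := by
      filter_upwards [gt_mem_nhds h4] with s hs using h0 s hs.le
    have e3 : Ψ' (lv lam y0 y) = 0 := by
      rw [← (hΨ _).deriv, e2.deriv_eq, deriv_const]
    rw [e.fderiv_eq, e3]
    simp [zero_pow (show n ≠ 0 by omega)]

/-- The area of the unit sphere. -/
noncomputable def om (n : ℕ) : ℝ := n * (volume : Measure (E n)).real (ball 0 1)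

lemma om0_pos : 0 < (volume : Measure (E n)).real (ball 0 1) :=
  ENNReal.toReal_pos (measure_ball_pos _ _ one_pos).ne' measure_ball_lt_top.ne

lemma om_pos (hn : 1 ≤ n) : 0 < om n := by
  have : (0 : ℝ) < n := by exact_mod_cast hn
  exact mul_pos this om0_pos

lemma radial_integral (hn : 1 ≤ n) {lam : ℝ} (hl : 0 < lam) (y0 : E n) {β : ℝ → ℝ}
    (h0 : ∀ s, s ≤ 0 → β s = 0) :
    ∫ y, β (lv lam y0 y) * wt lam y0 y = om n * ∫ s, β s := by
  have : Nontrivial (E n) := by
    refine Module.nontrivial_of_finrank_pos (R := ℝ) ?_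
    simp; omega
  have e1 := integral_sub_right_eq_self (μ := (volume : Measure (E n)))
    (fun y => β (Real.log (max ‖y‖ lam / (2 * lam))) * (max ‖y‖ lam ^ n)⁻¹) y0
  have e2 := integral_fun_norm_addHaar (volume : Measure (E n))
    (fun r => β (Real.log (max r lam / (2 * lam))) * (max r lam ^ n)⁻¹)
  simp only [lv, wt]
  rw [e1, e2, om]
  simp only [finrank_euclideanSpace, Fintype.card_fin, nsmul_eq_mul, smul_eq_mul]
  rw [mul_assoc]
  congr 2
  have himg : (fun s => 2 * lam * Real.exp s) '' univ = Ioi (0 : ℝ) := by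
    ext r
    simp only [image_univ, mem_range, mem_Ioi]
    constructor
    · rintro ⟨s, rfl⟩; positivity
    · intro hr
      exact ⟨Real.log (r / (2 * lam)), by rw [Real.exp_log (by positivity)]; field_simp⟩
  rw [← himg, integral_image_eq_integral_abs_deriv_smul MeasurableSet.univ
    (f' := fun s => 2 * lam * Real.exp s)
    (fun s _ => ((Real.hasDerivAt_exp s).const_mul _).hasDerivWithinAt)
    (fun a _ b _ hab => Real.exp_injective (mul_left_cancel₀ (by positivity) hab)),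
    Measure.restrict_univ]
  refine integral_congr_ae (Eventually.of_forall fun s => ?_)
  have hp : 0 < 2 * lam * Real.exp s := by positivity
  simp only [smul_eq_mul, abs_of_pos hp]
  rcases le_total lam (2 * lam * Real.exp s) with h | h
  · rw [max_eq_left h]
    have e : 2 * lam * Real.exp s / (2 * lam) = Real.exp s := by field_simp
    have e' : (2 * lam * Real.exp s) ^ n =
        (2 * lam * Real.exp s) * (2 * lam * Real.exp s) ^ (n - 1) := by
      rw [← pow_succ']; congr 1; omega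
    rw [e, Real.log_exp, e']
    field_simp
  · rw [max_eq_right h]
    have e : Real.log (lam / (2 * lam)) ≤ 0 :=
      Real.log_nonpos (by positivity) (by rw [div_le_one (by positivity)]; linarith)
    have e' : s ≤ 0 := by
      rw [← Real.exp_le_one_iff]
      nlinarith
    rw [h0 _ e, h0 _ e']
    simp

/-- The logarithmic cutoff function of the annulus `ρ < |x - c| < ρ e^T`. -/
noncomputable def cut (c : E n) (ρ T : ℝ) (x : E n) : ℝ := (T - 1) - GG (T - 1) (lv (ρ / 2) c x)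

lemma contDiff_cut (c : E n) {ρ T : ℝ} (hρ : 0 < ρ) (hT : 1 ≤ T) : ContDiff ℝ 1 (cut c ρ T) :=
  contDiff_const.sub (contDiff_comp_lv' (half_pos hρ) c (contDiff_GG _)
    fun _ hs => GG_zero (by linarith) hs)

lemma cut_in {c : E n} {ρ T : ℝ} (hρ : 0 < ρ) (hT : 1 ≤ T) {x : E n} (hx : x ∈ closedBall c ρ) :
    cut c ρ T x = T - 1 := by
  rw [mem_closedBall, dist_eq_norm] at hx
  rw [cut, GG_zero (by linarith) (lv_nonpos (half_pos hρ) (by linarith)), sub_zero]

lemma cut_out {c : E n} {ρ T : ℝ} (hρ : 0 < ρ) (hT : 1 ≤ T) {x : E n}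
    (hx : ρ * Real.exp T ≤ dist x c) : cut c ρ T x = 0 := by
  rw [dist_eq_norm] at hx
  have := le_lv (half_pos hρ) hx (by positivity)
  have e : ρ * Real.exp T / (2 * (ρ / 2)) = Real.exp T := by field_simp
  rw [e, Real.log_exp] at this
  rw [cut, GG_top (by linarith) (by linarith), sub_self]

lemma cut_nonneg (c : E n) (ρ : ℝ) {T : ℝ} (hT : 1 ≤ T) (x : E n) : 0 ≤ cut c ρ T x := by
  have := GG_le (m := T - 1) (by linarith) (lv (ρ / 2) c x)
  rw [cut]; linarith

lemma cut_energy (hn : 1 ≤ n) (c : E n) {ρ T : ℝ} (hρ : 0 < ρ) (hT : 1 ≤ T) {K : Set (E n)} :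
    IntegrableOn (fun x => ‖fderiv ℝ (cut c ρ T) x‖ ^ n) K ∧
      ∫ x in K, ‖fderiv ℝ (cut c ρ T) x‖ ^ n ≤ om n * T := by
  have hs : HasCompactSupport (cut c ρ T) :=
    HasCompactSupport.intro (isCompact_closedBall c (ρ * Real.exp T)) fun x hx =>
      cut_out hρ hT (not_le.1 hx).le
  have hi : Integrable fun x => ‖fderiv ℝ (cut c ρ T) x‖ ^ n := by
    refine (((contDiff_cut c hρ hT).continuous_fderiv one_ne_zero).norm.pow n
      ).integrable_of_hasCompactSupport ?_
    exact (hs.fderiv ℝ).norm.comp_left (g := fun t : ℝ => t ^ n) (zero_pow (by omega))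
  refine ⟨hi.integrableOn, ?_⟩
  refine (setIntegral_le_integral hi (Eventually.of_forall fun x => by positivity)).trans ?_
  have e : ∀ x, ‖fderiv ℝ (cut c ρ T) x‖ ^ n =
      Gd (T - 1) (lv (ρ / 2) c x) ^ n * wt (ρ / 2) c x := by
    intro x
    have := norm_fderiv_comp_lv hn (half_pos hρ) c (hasDerivAt_GG (T - 1))
      (fun _ hs => GG_zero (by linarith) hs) x
    rw [abs_of_nonneg (Gd_nonneg (by linarith) _)] at this
    rw [← this]
    unfold cut
    rw [fderiv_const_sub, norm_neg]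
  simp only [e]
  rw [radial_integral hn (half_pos hρ) c (β := fun s => Gd (T - 1) s ^ n) fun s hs => by
    simp [Gd_zero (m := T - 1) (by linarith) hs, zero_pow (show n ≠ 0 by omega)]]
  have := integral_Gd_pow hn (m := T - 1) (by linarith)
  have h2 := om_pos hn
  nlinarith

end Pool.Agent.Lib.MP_010b1d_an
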