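import Pool.Agent.Lib.MP_010b1d_an.Basic

/-! A Loewner type capacity estimate for smooth functions on a ball. -/

set_option autoImplicit false

open MeasureTheory Set Filter Topology Function Metric
open scoped ENNReal

namespace Pool.Agent.Lib.MP_010b1d_an

variable {n : ℕ}

lemma lintegral_homothety {F : E n → ℝ≥0∞} (hF : Measurable F) (x : E n) {s : ℝ} (hs : 0 < s) :
    ∫⁻ z, F (x + s • (z - x)) = ENNReal.ofReal (s ^ n)⁻¹ * ∫⁻ z, F z := by
  rw [lintegral_sub_right_eq_self (fun z => F (x + s • z)) x]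
  have h1 : ∫⁻ z, F (x + s • z) = ∫⁻ z, F (x + z) ∂(Measure.map (s • ·) volume) := by
    have hm : Measurable fun z => F (x + z) := hF.comp (measurable_const_add x)
    rw [lintegral_map hm (measurable_const_smul s)]
  rw [h1, Measure.map_addHaar_smul _ hs.ne', lintegral_smul_measure, lintegral_add_left_eq_self]
  simp only [finrank_euclideanSpace, Fintype.card_fin, smul_eq_mul]
  rw [abs_of_pos (by positivity)]

lemma le_split (hn : 1 ≤ n) {a τ : ℝ} (ha : 0 ≤ a) (hτ : 0 < τ) :
    a ≤ τ + (τ ^ (n - 1))⁻¹ * a ^ n := by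
  rcases le_total a τ with h | h
  · have : 0 ≤ (τ ^ (n - 1))⁻¹ * a ^ n := by positivity
    linarith
  · have h1 : τ ^ (n - 1) ≤ a ^ (n - 1) := pow_le_pow_left₀ hτ.le h _
    have e : a ^ n = a * a ^ (n - 1) := by rw [← pow_succ']; congr 1; omega
    have : a ≤ (τ ^ (n - 1))⁻¹ * a ^ n := by
      rw [e, ← div_eq_inv_mul, le_div_iff₀ (by positivity)]
      gcongr
    linarith

lemma poincare_pt (hn : 1 ≤ n) {h : E n → ℝ} (hh : ContDiff ℝ 1 h) {c x : E n} {ρ κ : ℝ}
    (hρ : 0 < ρ) (hκ : 0 < κ) (hx : x ∈ ball c ρ)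
    (H : ∀ s ∈ Ioc (0 : ℝ) 1,
      ∫⁻ y in ball x (2 * s * ρ) ∩ ball c ρ, ENNReal.ofReal (‖fderiv ℝ h y‖ ^ n) ≤
        volume (ball (0 : E n) 1) * ENNReal.ofReal (κ ^ n * s)) :
    ∫⁻ z in ball c ρ, ‖h z - h x‖ₑ ≤ ENNReal.ofReal (4 * n * κ) * volume (ball c ρ) := by
  have hn0 : (0 : ℝ) < n := by exact_mod_cast hn
  have hW : Continuous fun y => ‖fderiv ℝ h y‖ := (hh.continuous_fderiv one_ne_zero).norm
  have step1 : ∀ z ∈ ball c ρ, ‖h z - h x‖ₑ ≤
      ∫⁻ s in Icc (0 : ℝ) 1, ENNReal.ofReal (2 * ρ * ‖fderiv ℝ h (x + s • (z - x))‖) := by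
    intro z hz
    have hc : ContDiff ℝ 1 fun s : ℝ => h (x + s • (z - x)) :=
      hh.comp (contDiff_const.add (contDiff_id.smul contDiff_const))
    have h1 := enorm_sub_le_lintegral_deriv_of_contDiffOn_Icc (hc.contDiffOn (s := Icc 0 1))
      zero_le_one
    simp only [one_smul, zero_smul, add_zero, add_sub_cancel] at h1
    refine h1.trans (lintegral_mono fun s => ?_)
    have hd : HasDerivAt (fun s : ℝ => h (x + s • (z - x)))
        (fderiv ℝ h (x + s • (z - x)) (z - x)) s := by
      have := (hh.differentiable one_ne_zero (x + s • (z - x))).hasFDerivAt.comp_hasDerivAt s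
        (((hasDerivAt_id s).smul_const (z - x)).const_add x)
      simpa [Function.comp_def] using this
    rw [hd.deriv, ← ofReal_norm]
    refine ENNReal.ofReal_le_ofReal (((fderiv ℝ h (x + s • (z - x))).le_opNorm _).trans ?_)
    have : ‖z - x‖ ≤ 2 * ρ := by
      have := dist_triangle_right z x c
      rw [← dist_eq_norm]
      linarith [mem_ball.1 hz, mem_ball.1 hx]
    rw [mul_comm]
    gcongr
  have hq : (-1 : ℝ) < 1 / n - 1 := by
    have : (0 : ℝ) < 1 / n := by positivity
    linarith
  have step2 : ∀ s ∈ Ioc (0 : ℝ) 1,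
      ∫⁻ z in ball c ρ, ENNReal.ofReal (2 * ρ * ‖fderiv ℝ h (x + s • (z - x))‖) ≤
        ENNReal.ofReal (4 * κ * s ^ ((1 : ℝ) / n - 1)) * volume (ball c ρ) := by
    intro s hs
    set u := s ^ ((1 : ℝ) / n - 1) with hu
    have hu0 : 0 < u := Real.rpow_pos_of_pos hs.1 _
    have hun : u ^ n * s ^ n = s := by
      rw [hu, ← Real.rpow_natCast, ← Real.rpow_mul hs.1.le, ← Real.rpow_natCast,
        ← Real.rpow_add hs.1]
      have : (1 / (n : ℝ) - 1) * n + n = 1 := by field_simp; ring
      rw [this, Real.rpow_one]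
    set τ := κ * u / ρ with hτ
    have hτ0 : 0 < τ := by positivity
    set S := ball x (2 * s * ρ) ∩ ball c ρ with hS
    have hSm : MeasurableSet S := measurableSet_ball.inter measurableSet_ball
    have hFm : Measurable fun y => ENNReal.ofReal (‖fderiv ℝ h y‖ ^ n) :=
      (hW.pow n).measurable.ennreal_ofReal
    have hin : ∫⁻ z in ball c ρ, ENNReal.ofReal (‖fderiv ℝ h (x + s • (z - x))‖ ^ n) ≤
        ENNReal.ofReal (s ^ n)⁻¹ * (volume (ball (0 : E n) 1) * ENNReal.ofReal (κ ^ n * s)) := by
      calc _ ≤ ∫⁻ z, S.indicator (fun y => ENNReal.ofReal (‖fderiv ℝ h y‖ ^ n))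
            (x + s • (z - x)) := by
            rw [← lintegral_indicator measurableSet_ball]
            refine lintegral_mono fun z => ?_
            by_cases hz : z ∈ ball c ρ
            · have hm : x + s • (z - x) ∈ S := by
                refine ⟨?_, (convex_ball c ρ).add_smul_sub_mem hx hz ⟨hs.1.le, hs.2⟩⟩
                rw [mem_ball, dist_eq_norm, add_sub_cancel_left, norm_smul, Real.norm_eq_abs,
                  abs_of_pos hs.1]
                have := dist_triangle_right z x c
                rw [dist_eq_norm] at this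
                have h2 : ‖z - x‖ < 2 * ρ := by linarith [mem_ball.1 hz, mem_ball.1 hx]
                nlinarith [hs.1]
              rw [indicator_of_mem hz, indicator_of_mem hm]
            · rw [indicator_of_notMem hz]; exact zero_le
        _ = ENNReal.ofReal (s ^ n)⁻¹ * ∫⁻ y in S, ENNReal.ofReal (‖fderiv ℝ h y‖ ^ n) := by
            rw [lintegral_homothety (hFm.indicator hSm) x hs.1, lintegral_indicator hSm]
        _ ≤ _ := by gcongr; exact H s hs
    have hB : volume (ball c ρ) = ENNReal.ofReal (ρ ^ n) * volume (ball (0 : E n) 1) := by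
      simpa using Measure.addHaar_ball_of_pos (volume : Measure (E n)) c hρ
    have hs0 := hs.1
    calc _ ≤ ∫⁻ z in ball c ρ, (ENNReal.ofReal (2 * ρ * τ) + ENNReal.ofReal (2 * ρ * (τ ^ (n - 1))⁻¹)
            * ENNReal.ofReal (‖fderiv ℝ h (x + s • (z - x))‖ ^ n)) := by
          refine lintegral_mono fun z => ?_
          rw [← ENNReal.ofReal_mul (by positivity),
            ← ENNReal.ofReal_add (by positivity) (by positivity)]
          refine ENNReal.ofReal_le_ofReal ?_
          have := le_split hn (norm_nonneg (fderiv ℝ h (x + s • (z - x)))) hτ0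
          nlinarith
      _ = ENNReal.ofReal (2 * ρ * τ) * volume (ball c ρ) +
            ENNReal.ofReal (2 * ρ * (τ ^ (n - 1))⁻¹) *
            ∫⁻ z in ball c ρ, ENNReal.ofReal (‖fderiv ℝ h (x + s • (z - x))‖ ^ n) := by
          rw [lintegral_add_left measurable_const, lintegral_const_mul' _ _ ENNReal.ofReal_ne_top]
          simp
      _ ≤ ENNReal.ofReal (2 * ρ * τ) * volume (ball c ρ) +
            ENNReal.ofReal (2 * ρ * (τ ^ (n - 1))⁻¹) * (ENNReal.ofReal (s ^ n)⁻¹ *
              (volume (ball (0 : E n) 1) * ENNReal.ofReal (κ ^ n * s))) := by gcongr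
      _ = _ := by
          rw [hB, mul_comm (volume (ball (0 : E n) 1)), ← mul_assoc, ← mul_assoc, ← mul_assoc,
            ← mul_assoc, ← ENNReal.ofReal_mul (by positivity), ← ENNReal.ofReal_mul (by positivity),
            ← ENNReal.ofReal_mul (by positivity), ← ENNReal.ofReal_mul (by positivity), ← add_mul,
            ← ENNReal.ofReal_add (by positivity) (by positivity)]
          congr 2
          have e1 : τ ^ n = τ * τ ^ (n - 1) := by rw [← pow_succ']; congr 1; omega
          have e2 : τ ^ n * ρ ^ n = κ ^ n * u ^ n := by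
            rw [← mul_pow, ← mul_pow, hτ]; congr 1; field_simp
          have e3 : κ ^ n * s = τ * τ ^ (n - 1) * ρ ^ n * s ^ n := by
            rw [← e1, e2, mul_assoc, hun]
          have e4 : κ * u = τ * ρ := by rw [hτ]; field_simp
          rw [e3, mul_assoc 4, e4]
          field_simp
          ring
  calc _ ≤ ∫⁻ z in ball c ρ, ∫⁻ s in Icc (0 : ℝ) 1,
          ENNReal.ofReal (2 * ρ * ‖fderiv ℝ h (x + s • (z - x))‖) :=
        setLIntegral_mono' measurableSet_ball step1
    _ = ∫⁻ s in Icc (0 : ℝ) 1, ∫⁻ z in ball c ρ,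
          ENNReal.ofReal (2 * ρ * ‖fderiv ℝ h (x + s • (z - x))‖) := by
        refine lintegral_lintegral_swap (Measurable.aemeasurable ?_)
        refine Measurable.ennreal_ofReal (Continuous.measurable ?_)
        exact continuous_const.mul (hW.comp (f := fun p : E n × ℝ => x + p.2 • (p.1 - x))
          (by fun_prop))
    _ ≤ ∫⁻ s in Ioc (0 : ℝ) 1,
          ENNReal.ofReal (4 * κ * s ^ ((1 : ℝ) / n - 1)) * volume (ball c ρ) := by
        rw [← restrict_Ioc_eq_restrict_Icc]
        exact setLIntegral_mono' measurableSet_Ioc step2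
    _ = _ := by
        rw [lintegral_mul_const' _ _ measure_ball_lt_top.ne]
        congr 1
        have hi : IntervalIntegrable (fun s : ℝ => 4 * κ * s ^ ((1 : ℝ) / n - 1)) volume 0 1 :=
          (intervalIntegral.intervalIntegrable_rpow' hq).const_mul _
        rw [← ofReal_integral_eq_lintegral_ofReal hi.1 (by
          filter_upwards [ae_restrict_mem measurableSet_Ioc] with s hs
          have := Real.rpow_pos_of_pos hs.1 ((1 : ℝ) / n - 1)
          simp only [Pi.zero_apply]
          positivity), ← intervalIntegral.integral_of_le zero_le_one,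
          intervalIntegral.integral_const_mul, integral_rpow (Or.inl hq)]
        congr 1
        rw [sub_add_cancel, Real.one_rpow, Real.zero_rpow (by positivity)]
        field_simp
        ring

lemma cover_bound (ν : Measure (E n)) (V : ℝ≥0∞) {c1 : E n} {ρ σ t1 A : ℝ} (hρ : 0 < ρ)
    (hA : 0 ≤ A)
    (H : ∀ t ∈ Icc t1 (t1 + σ * ρ), ∃ x : E n, dist x c1 = t ∧ ∃ s ∈ Ioc (0 : ℝ) 1,
      V * ENNReal.ofReal (A * s) ≤ ν (ball x (2 * s * ρ))) :
    V * ENNReal.ofReal (A * σ / 20) ≤ ν univ := by
  choose! x hx s hs hν using H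
  obtain ⟨u, hu, hdisj, hcov⟩ := Vitali.exists_disjoint_subfamily_covering_enlargement_ball
    (Icc t1 (t1 + σ * ρ)) x (fun t => 2 * s t * ρ) (2 * ρ)
    (fun t ht => by nlinarith [(hs t ht).2]) 5 (by norm_num)
  have huc : u.Countable := hdisj.countable_of_isOpen (fun _ _ => isOpen_ball) fun t ht =>
    nonempty_ball.2 (by have := (hs t (hu ht)).1; positivity)
  have h1 : Icc t1 (t1 + σ * ρ) ⊆ ⋃ b ∈ u, Icc (b - 10 * s b * ρ) (b + 10 * s b * ρ) := by
    intro t ht
    obtain ⟨b, hb, hb'⟩ := hcov t ht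
    have h2 : x t ∈ ball (x b) (5 * (2 * s b * ρ)) :=
      hb' (mem_ball_self (by have := (hs t ht).1; positivity))
    have h3 := abs_dist_sub_le (x t) (x b) c1
    rw [hx t ht, hx b (hu hb), abs_le] at h3
    rw [mem_ball] at h2
    exact mem_biUnion hb ⟨by linarith, by linarith⟩
  have h2 : ENNReal.ofReal (σ * ρ) ≤ ∑' b : u, ENNReal.ofReal (20 * s b * ρ) := by
    have := (measure_mono h1).trans (measure_biUnion_le volume huc _)
    simp only [Real.volume_Icc, add_sub_cancel_left] at this
    refine this.trans (le_of_eq ?_)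
    congr 1
    funext b
    congr 1
    ring
  calc V * ENNReal.ofReal (A * σ / 20)
      = V * ENNReal.ofReal (A / (20 * ρ)) * ENNReal.ofReal (σ * ρ) := by
        rw [mul_assoc, ← ENNReal.ofReal_mul (by positivity)]
        congr 2
        field_simp
    _ ≤ V * ENNReal.ofReal (A / (20 * ρ)) * ∑' b : u, ENNReal.ofReal (20 * s b * ρ) := by gcongr
    _ = ∑' b : u, V * ENNReal.ofReal (A * s b) := by
        rw [← ENNReal.tsum_mul_left]
        congr 1
        funext b
        rw [mul_assoc, ← ENNReal.ofReal_mul (by positivity)]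
        congr 2
        field_simp
    _ ≤ ∑' b : u, ν (ball (x b) (2 * s b * ρ)) := ENNReal.tsum_le_tsum fun b => hν b (hu b.2)
    _ = ν (⋃ b ∈ u, ball (x b) (2 * s b * ρ)) :=
        (measure_biUnion huc hdisj fun _ _ => measurableSet_ball).symm
    _ ≤ ν univ := measure_mono (subset_univ _)

theorem loewner_smooth (hn : 1 ≤ n) {h : E n → ℝ} (hh : ContDiff ℝ 1 h) {c c1 c2 : E n}
    {ρ σ t1 t2 a : ℝ} (hρ : 0 < ρ) (_hσ : 0 ≤ σ) (ha : 0 < a)
    (H1 : ∀ t ∈ Icc t1 (t1 + σ * ρ), ∃ x ∈ ball c ρ, dist x c1 = t ∧ h x = 0)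
    (H2 : ∀ t ∈ Icc t2 (t2 + σ * ρ), ∃ x ∈ ball c ρ, dist x c2 = t ∧ a ≤ h x) :
    (volume : Measure (E n)).real (ball 0 1) * ((a / (16 * n)) ^ n * σ / 20) ≤
      ∫ y in ball c ρ, ‖fderiv ℝ h y‖ ^ n := by
  have hn0 : (0 : ℝ) < n := by exact_mod_cast hn
  set κ := a / (16 * n) with hκ
  have hκ0 : 0 < κ := by positivity
  have hW : Continuous fun y => ‖fderiv ℝ h y‖ ^ n :=
    (hh.continuous_fderiv one_ne_zero).norm.pow n
  set ν : Measure (E n) :=
    (volume.withDensity fun y => ENNReal.ofReal (‖fderiv ℝ h y‖ ^ n)).restrict (ball c ρ) with hν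
  have hνb : ∀ (x : E n) (r : ℝ), ν (ball x r) =
      ∫⁻ y in ball x r ∩ ball c ρ, ENNReal.ofReal (‖fderiv ℝ h y‖ ^ n) := by
    intro x r
    rw [hν, Measure.restrict_apply measurableSet_ball,
      withDensity_apply _ (measurableSet_ball.inter measurableSet_ball)]
  have hi : IntegrableOn (fun y => ‖fderiv ℝ h y‖ ^ n) (ball c ρ) :=
    (hW.continuousOn.integrableOn_compact (isCompact_closedBall c ρ)).mono_set
      ball_subset_closedBall
  have hνu : ν univ = ENNReal.ofReal (∫ y in ball c ρ, ‖fderiv ℝ h y‖ ^ n) := by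
    rw [hν, Measure.restrict_apply_univ, withDensity_apply _ measurableSet_ball,
      ofReal_integral_eq_lintegral_ofReal hi (Eventually.of_forall fun y => by
        simp only [Pi.zero_apply]; positivity)]
  have key : volume (ball (0 : E n) 1) * ENNReal.ofReal (κ ^ n * σ / 20) ≤ ν univ := by
    by_cases hb : ∀ t ∈ Icc t1 (t1 + σ * ρ), ∃ x : E n, dist x c1 = t ∧ ∃ s ∈ Ioc (0 : ℝ) 1,
        volume (ball (0 : E n) 1) * ENNReal.ofReal (κ ^ n * s) ≤ ν (ball x (2 * s * ρ))
    · exact cover_bound ν _ hρ (by positivity) hb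
    · refine cover_bound ν _ (c1 := c2) (t1 := t2) hρ (by positivity) fun t ht => ?_
      push Not at hb
      obtain ⟨t', ht', hb⟩ := hb
      obtain ⟨x', hx'B, hx'd, hx'h⟩ := H1 t' ht'
      obtain ⟨x, hxB, hxd, hxh⟩ := H2 t ht
      refine ⟨x, hxd, ?_⟩
      by_contra hcon
      push Not at hcon
      have p1 := poincare_pt hn hh hρ hκ0 hx'B fun s hs => by
        rw [← hνb]; exact (hb x' hx'd s hs).le
      have p2 := poincare_pt hn hh hρ hκ0 hxB fun s hs => by
        rw [← hνb]; exact (hcon s hs).le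
      have p3 : ENNReal.ofReal a * volume (ball c ρ) ≤
          ∫⁻ z in ball c ρ, (‖h z - h x'‖ₑ + ‖h z - h x‖ₑ) := by
        rw [← setLIntegral_const]
        refine lintegral_mono fun z => ?_
        rw [← ofReal_norm, ← ofReal_norm,
          ← ENNReal.ofReal_add (norm_nonneg _) (norm_nonneg _)]
        refine ENNReal.ofReal_le_ofReal ?_
        rw [Real.norm_eq_abs, Real.norm_eq_abs, hx'h]
        linarith [le_abs_self (h z - 0), neg_abs_le (h z - h x)]
      have hm : Measurable fun z => ‖h z - h x'‖ₑ :=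
        (hh.continuous.sub continuous_const).measurable.enorm
      rw [lintegral_add_left hm] at p3
      have p4 := p3.trans (add_le_add p1 p2)
      rw [← add_mul, ← ENNReal.ofReal_add (by positivity) (by positivity),
        ENNReal.mul_le_mul_iff_left (measure_ball_pos _ _ hρ).ne' measure_ball_lt_top.ne,
        ENNReal.ofReal_le_ofReal_iff (by positivity)] at p4
      have e : 4 * n * κ + 4 * n * κ = a / 2 := by rw [hκ]; field_simp; ring
      linarith
  rw [hνu, ← ofReal_measureReal measure_ball_lt_top.ne,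
    ← ENNReal.ofReal_mul measureReal_nonneg, ENNReal.ofReal_le_ofReal_iff
      (integral_nonneg fun y => by simp only [Pi.zero_apply]; positivity)] at key
  exact key

end Pool.Agent.Lib.MP_010b1d_an
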