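import Pool.Agent.Lib.MP_010b1d_an.Piola
import Pool.Agent.Lib.MP_010b1d_an.Cut

/-! The fundamental identity for the logarithm of the modulus of a quasiregular map. -/

set_option autoImplicit false

open MeasureTheory Set Filter Topology Function Metric

namespace Pool.Agent.Lib.MP_010b1d_an

variable {n : ℕ}

/-- Quasiregular maps, continuous up to the boundary. -/
structure QR (Ω : Set (E n)) (f : E n → E n) (g : E n → E n →L[ℝ] E n) (K KI : ℝ) : Prop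
    extends Sob Ω f g where
  contc : ContinuousOn f (closure Ω)
  Kpos : 0 < K
  KIpos : 0 ≤ KI
  out : ∀ᵐ x ∂volume.restrict Ω, ‖g x‖ ^ n ≤ K * jac (g x)
  inn : ∀ᵐ x ∂volume.restrict Ω, ∀ h : E n, ‖h‖ = 1 → jac (g x) ≤ KI * ‖g x h‖ ^ n

/-- The pulled back conformal density. -/
noncomputable def PP (f : E n → E n) (g : E n → E n →L[ℝ] E n) (lam : ℝ) (y0 x : E n) : ℝ :=
  jac (g x) * wt lam y0 (f x)

variable {Ω : Set (E n)} {f : E n → E n} {g : E n → E n →L[ℝ] E n} {K KI : ℝ}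

lemma Sob.integrableOn_jac (h : Sob Ω f g) {K0 : Set (E n)} (hK : IsCompact K0) (hKΩ : K0 ⊆ Ω) :
    IntegrableOn (fun x => jac (g x)) K0 := by
  refine ((h.int K0 hK hKΩ).const_mul ‖DD n‖).mono' ?_ (Eventually.of_forall fun x => abs_jac_le _)
  exact continuous_jac.comp_aestronglyMeasurable
    (h.meas.mono_measure (Measure.restrict_mono hKΩ le_rfl))

lemma Sob.integrableOn_PP (h : Sob Ω f g) {K0 : Set (E n)} (hK : IsCompact K0) (hKΩ : K0 ⊆ Ω)
    {lam : ℝ} (hl : 0 < lam) (y0 : E n) {c : E n → ℝ} (hc : ContinuousOn c K0) :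
    IntegrableOn (fun x => c x * PP f g lam y0 x) K0 := by
  have h1 : ContinuousOn (fun x => wt lam y0 (f x)) K0 :=
    (continuous_wt hl y0).comp_continuousOn (h.cont.mono hKΩ)
  exact ((h.integrableOn_jac hK hKΩ).mul_continuousOn h1 hK).continuousOn_mul hc hK

lemma QR.jac_nonneg (h : QR Ω f g K KI) : ∀ᵐ x ∂volume.restrict Ω, 0 ≤ jac (g x) := by
  filter_upwards [h.out] with x hx
  by_contra hneg
  have := mul_neg_of_pos_of_neg h.Kpos (not_le.1 hneg)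
  have := pow_nonneg (norm_nonneg (g x)) n
  linarith

lemma QR.PP_nonneg (h : QR Ω f g K KI) {lam : ℝ} (hl : 0 < lam) (y0 : E n) {S : Set (E n)}
    (hS : S ⊆ Ω) : ∀ᵐ x ∂volume.restrict S, 0 ≤ PP f g lam y0 x := by
  filter_upwards [ae_restrict_of_ae_restrict_of_subset hS h.jac_nonneg] with x hx
  exact mul_nonneg hx (wt_pos hl y0 _).le

lemma fiTerm_log {lam : ℝ} (hl : 0 < lam) (y0 : E n) {Θ : E n × ℝ → ℝ} (hΘ : ContDiff ℝ 1 Θ)
    {x y : E n} (hy : lam < ‖y - y0‖) (A : E n →L[ℝ] E n) :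
    fiTerm (fun p => Θ (p.1, lv lam y0 p.2) *
        (((2 * lam) ^ n)⁻¹ * Real.exp (-(n * lv lam y0 p.2)))) 1 (-y0) (x, y, A) =
      fderiv ℝ Θ (x, lv lam y0 y) (wt lam y0 y • cof A (y - y0), jac A * wt lam y0 y) := by
  have h0 : 0 < ‖y - y0‖ := hl.trans hy
  have d1 : HasFDerivAt (fun p : E n × E n => lv lam y0 p.2)
      (((‖y - y0‖ ^ 2)⁻¹ • innerSL ℝ (y - y0)).comp (ContinuousLinearMap.snd ℝ (E n) (E n)))
      (x, y) :=
    HasFDerivAt.comp (f := Prod.snd) (g := lv lam y0) ((x, y) : E n × E n) (hasFDerivAt_lv hl hy)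
      hasFDerivAt_snd
  have d2 : HasFDerivAt (fun p : E n × E n => Θ (p.1, lv lam y0 p.2))
      ((fderiv ℝ Θ (x, lv lam y0 y)).comp ((ContinuousLinearMap.fst ℝ (E n) (E n)).prod
        (((‖y - y0‖ ^ 2)⁻¹ • innerSL ℝ (y - y0)).comp (ContinuousLinearMap.snd ℝ (E n) (E n)))))
      (x, y) :=
    (hΘ.differentiable one_ne_zero _).hasFDerivAt.comp (x, y) (hasFDerivAt_fst.prodMk d1)
  have d3 := d2.mul (((d1.const_mul (n : ℝ)).neg.exp).const_mul ((2 * lam) ^ n)⁻¹)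
  have e3 := d3.fderiv
  have e0 : (1 : ℝ) • y + -y0 = y - y0 := by rw [one_smul, sub_eq_add_neg]
  have e1 : (‖y - y0‖ ^ 2)⁻¹ * (jac A * ‖y - y0‖ ^ 2) = jac A := by field_simp
  have e4 : (wt lam y0 y • cof A (y - y0), jac A * wt lam y0 y) =
      wt lam y0 y • (cof A (y - y0), jac A) := by
    simp [mul_comm]
  simp only [fiTerm, e0]
  rw [e4, map_smul, wt_eq hl]
  erw [e3]
  simp only [add_apply, smul_apply, ContinuousLinearMap.comp_apply,
    ContinuousLinearMap.prod_apply, ContinuousLinearMap.coe_fst', ContinuousLinearMap.coe_snd',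
    innerSL_apply_apply, inner_smul_right, real_inner_self_eq_norm_sq, smul_eq_mul, e1,
    neg_apply, Pi.neg_apply]
  ring

theorem QR.fi_le (h : QR Ω f g K KI) (hn : 2 ≤ n) {lam : ℝ} (hl : 0 < lam) (y0 : E n)
    {U K0 : Set (E n)} (hU : IsOpen U) (hUΩ : U ⊆ Ω) (hK0 : IsCompact K0) (hK0U : K0 ⊆ U)
    (hK0l : ∀ x ∈ K0, lam < ‖f x - y0‖)
    {Θ : E n × ℝ → ℝ} (hΘ : ContDiff ℝ 1 Θ) (h0 : ∀ x s, s ≤ 0 → Θ (x, s) = 0)
    (hv : ∀ x ∈ U, x ∉ K0 →
      ‖f x - y0‖ < 2 * lam ∨ Θ =ᶠ[𝓝 (x, lv lam y0 (f x))] fun _ => 0)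
    {A B : E n → ℝ} (hA : IntegrableOn A K0) (hB : IntegrableOn B K0)
    (hAB : ∀ x ∈ K0, ∀ v : E n, 0 ≤ PP f g lam y0 x → ‖v‖ ^ n ≤ KI * PP f g lam y0 x ^ (n - 1) →
      A x ≤ fderiv ℝ Θ (x, lv lam y0 (f x)) (v, PP f g lam y0 x) + B x) :
    ∫ x in K0, A x ≤ ∫ x in K0, B x := by
  have hn1 : 1 ≤ n := by omega
  set θ : E n × E n → ℝ := fun p => Θ (p.1, lv lam y0 p.2) *
    (((2 * lam) ^ n)⁻¹ * Real.exp (-(n * lv lam y0 p.2))) with hθ
  have hθc : ContDiff ℝ 1 θ :=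
    contDiff_comp_lv hl y0
      (Θ := fun q : E n × ℝ => Θ q * (((2 * lam) ^ n)⁻¹ * Real.exp (-(n * q.2))))
      (hΘ.mul (contDiff_const.mul (contDiff_const.mul contDiff_snd).neg.exp))
      fun x s hs => by simp [h0 x s hs]
  have h1 := (h.toSob.fi hn1).local hU hUΩ hK0 hK0U hθc (fun x hx hx' => by
    rcases hv x hx hx' with h2 | h2
    · have : ∀ᶠ q : E n × E n in 𝓝 (x, f x), ‖q.2 - y0‖ < 2 * lam :=
        (isOpen_lt (by fun_prop) continuous_const).mem_nhds h2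
      filter_upwards [this] with q hq
      simp [hθ, h0 _ _ (lv_nonpos hl hq.le)]
    · have hc : Continuous fun q : E n × E n => (q.1, lv lam y0 q.2) :=
        continuous_fst.prodMk ((continuous_lv hl y0).comp continuous_snd)
      filter_upwards [(hc.tendsto (x, f x)).eventually h2] with q hq
      simp only [hθ]
      rw [hq, zero_mul]) 1 (-y0)
  obtain ⟨fk, -, -, h3⟩ := h.toSob.approx hn1 hK0 (hK0U.trans hUΩ)
  have h4 := (h3 K0 hK0.measurableSet Subset.rfl _ (continuous_fiTerm hθc 1 (-y0))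
    (fiTerm_growth hθc 1 (-y0) hK0)).1
  have h5 : ∫ x in K0, A x ≤ ∫ x in K0, (fiTerm θ 1 (-y0) (x, f x, g x) + B x) := by
    refine integral_mono_ae hA (h4.add hB) ?_
    filter_upwards [ae_restrict_mem hK0.measurableSet,
      ae_restrict_of_ae_restrict_of_subset (hK0U.trans hUΩ) h.out,
      ae_restrict_of_ae_restrict_of_subset (hK0U.trans hUΩ) h.inn,
      h.PP_nonneg hl y0 (hK0U.trans hUΩ)] with x hx h6 h7 h8
    rw [hθ, fiTerm_log hl y0 hΘ (hK0l x hx)]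
    refine hAB x hx _ h8 ?_
    have h9 := cof_bound hn h.KIpos (g x) h6 h.Kpos h7 (f x - y0)
    have hw := wt_pos hl y0 (f x)
    have hw2 : wt lam y0 (f x) * ‖f x - y0‖ ^ n = 1 := by
      rw [wt_eq' (hK0l x hx).le]
      exact inv_mul_cancel₀ (pow_pos (hl.trans (hK0l x hx)) n).ne'
    have e : wt lam y0 (f x) ^ n = wt lam y0 (f x) * wt lam y0 (f x) ^ (n - 1) := by
      rw [← pow_succ']; congr 1; omega
    rw [norm_smul, Real.norm_eq_abs, abs_of_pos hw, mul_pow]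
    calc _ ≤ wt lam y0 (f x) ^ n * (KI * jac (g x) ^ (n - 1) * ‖f x - y0‖ ^ n) := by gcongr
      _ = KI * (jac (g x) ^ (n - 1) * wt lam y0 (f x) ^ (n - 1)) *
          (wt lam y0 (f x) * ‖f x - y0‖ ^ n) := by rw [e]; ring
      _ = _ := by rw [hw2, mul_one, PP, mul_pow]
  rwa [integral_add h4 hB, h1, zero_add] at h5

end Pool.Agent.Lib.MP_010b1d_an
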