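import Pool.Agent.Lib.MP_010b1d_an.Sharp

/-! Assembly of the global Hoelder estimate. -/

set_option autoImplicit false

open MeasureTheory Set Filter Topology Function Metric

namespace Pool.Agent.Lib.MP_010b1d_an

variable {n : ℕ} {Ω : Set (E n)} {f : E n → E n} {g : E n → E n →L[ℝ] E n} {K KI : ℝ}

lemma mul_rpow_le {k s δ : ℝ} (hk : 1 ≤ k) (hs : 0 ≤ s) (hδ1 : δ ≤ 1) :
    (k * s) ^ δ ≤ k * s ^ δ := by
  rw [Real.mul_rpow (by linarith) hs]
  have h1 : k ^ δ ≤ k := by simpa using Real.rpow_le_rpow_of_exponent_le hk hδ1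
  exact mul_le_mul_of_nonneg_right h1 (Real.rpow_nonneg hs _)

lemma Bd.mono_l {y0 : E n} {lam lam' : ℝ} {c : E n} {r : ℝ} (hb : Bd Ω f y0 lam c r)
    (hl : lam ≤ lam') : Bd Ω f y0 lam' c r := fun x hx hx' => (hb x hx hx').trans hl

lemma QR.sharp' (h : QR Ω f g K KI) (hn : 2 ≤ n) {α γ : ℝ} (hα0 : 0 < α) (hγ : 0 ≤ γ)
    (hα : α ^ (n - 1) * KI = 1) {y0 : E n} {lam : ℝ} (hl : 0 < lam)
    {c : E n} {ρ T L : ℝ} (hρ : 0 < ρ) (hT : 2 ≤ T)
    (hb : Bd Ω f y0 lam c (2 * (ρ * Real.exp T))) (hL : lam ≤ L)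
    (hup : ∀ x ∈ closure Ω, x ∈ closedBall c (2 * (ρ * Real.exp T)) → ‖f x - y0‖ ≤ L)
    (hk : γ ^ (n - 1) * om n ≤ mass f g lam y0 (KK Ω f y0 lam c ρ)) :
    γ * α * (T - 2) ≤ Real.log (L / lam) + 1 := by
  have h1 := h.sharp hn hl hρ hT hb hL hup (by positivity) hk
  have hm0 : 0 ≤ Real.log (L / lam) := Real.log_nonneg (by rwa [one_le_div hl])
  have hT2 : 0 ≤ T - 2 := by linarith
  refine (pow_le_pow_iff_left₀ (n := n - 1) (by positivity) (by positivity) (by omega)).1 ?_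
  calc (γ * α * (T - 2)) ^ (n - 1) = α ^ (n - 1) * (γ ^ (n - 1) * (T - 2) ^ (n - 1)) := by
        rw [mul_pow, mul_pow]; ring
    _ ≤ α ^ (n - 1) * (KI * (Real.log (L / lam) + 1) ^ (n - 1)) := by gcongr
    _ = _ := by rw [← mul_assoc, hα, one_mul]

lemma QR.high_point (h : QR Ω f g K KI) (hn : 2 ≤ n) {y0 : E n} {L : ℝ} (hL : 0 < L)
    {c : E n} {t : ℝ} (ht : 0 < t) (hb : Bd Ω f y0 (L / 6) c t) {q : E n} (hq : q ∈ closure Ω)
    (hq' : dist q c ≤ t) (hqL : L ≤ ‖f q - y0‖) : ∃ x, dist x c = t ∧ x ∈ HH Ω f y0 (L / 6) := by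
  by_contra hcon
  have := h.maxp hn (by positivity) ht hb (fun x hx hx' => by
    by_contra h1
    exact hcon ⟨x, hx', subset_closure hx, (not_le.1 h1).le⟩) hq hq'
  linarith

theorem QR.high_sphere (h : QR Ω f g K KI) (hn : 2 ≤ n) : ∃ C : ℝ, 1 ≤ C ∧
    ∀ (y0 : E n) (lam : ℝ) (c c1 q : E n) (ρ t1 t2 L2 L : ℝ), 0 < lam → 0 < ρ → 24 * lam ≤ L2 →
      L2 ≤ L → Bd Ω f y0 lam c (16 * ρ) →
      (∀ x ∈ closure Ω, x ∈ closedBall c (16 * ρ) → ‖f x - y0‖ ≤ L) →
      dist c1 c + (t1 + 1 / 32 * ρ) < ρ → 0 < t2 → t2 + 1 / 32 * ρ < ρ →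
      q ∈ closure Ω → dist q c ≤ t2 → L2 ≤ ‖f q - y0‖ →
      C * (Real.log (6 * L / L2) + 4) < Real.log (L2 / (24 * lam)) →
      ∃ t ∈ Icc t1 (t1 + 1 / 32 * ρ), ∀ x, dist x c1 = t → x ∈ Ω ∧ 6 * lam ≤ ‖f x - y0‖ := by
  obtain ⟨C, hC, H⟩ := h.drop hn
  refine ⟨C, hC, fun y0 lam c c1 q ρ t1 t2 L2 L hl hρ hL2 hL hb hup h1 h2 h3 hq hq1 hq2 hlt => ?_⟩
  by_contra hcon
  have hL0 : 0 < L2 := by linarith
  have := H y0 (4 * lam) c c1 c ρ t1 t2 (L2 / 6) L (by positivity) hρ (by positivity)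
    (by linarith) (hb.mono_l (by linarith)) hup (fun t ht => by
      by_contra h4
      refine hcon ⟨t, ht, fun x hx => ?_⟩
      have hxB : x ∈ ball c ρ := by
        have := dist_triangle x c1 c
        rw [mem_ball]; linarith [ht.2]
      have h5 : x ∈ HH Ω f y0 (3 / 2 * (4 * lam)) := by
        by_contra h6
        exact h4 ⟨x, hxB, hx, h6⟩
      exact ⟨h.mem_of_lt hb (closedBall_subset_closedBall (by linarith)
        (ball_subset_closedBall hxB)) h5.1 (by linarith [h5.2]), by linarith [h5.2]⟩)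
    (fun t ht => by
      obtain ⟨x, hx, hx'⟩ := h.high_point hn hL0 (c := c) (t := t) (by linarith [ht.1])
        ((hb.mono (closedBall_subset_closedBall (by linarith [ht.2]))).mono_l (by linarith))
        hq (by linarith [ht.1]) hq2
      exact ⟨x, by rw [mem_ball]; linarith [ht.2], hx, hx'⟩)
  rw [show L2 / 6 / (4 * lam) = L2 / (24 * lam) by field_simp; ring,
    show L / (L2 / 6) = 6 * L / L2 by field_simp] at this
  linarith

lemma exp_two_le : Real.exp 2 ≤ 8 := by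
  have h1 := Real.exp_one_lt_d9
  have h2 : Real.exp 2 = Real.exp 1 * Real.exp 1 := by rw [← Real.exp_add]; norm_num
  have h3 := Real.exp_pos 1
  nlinarith

theorem QR.stepA (h : QR Ω f g K KI) (hn : 2 ≤ n) {α δ : ℝ} (hα0 : 0 < α)
    (hα : α ^ (n - 1) * KI = 1) (hδ0 : 0 < δ) (hδα : δ ≤ α) (hδ1 : δ ≤ 1) :
    ∃ c4 c5 : ℝ, 0 < c4 ∧ 0 < c5 ∧ c5 ≤ 1 ∧ ∀ c ∈ closure Ω, ∀ Λ r b : ℝ, 0 < Λ → 0 < r →
      2 * r ≤ b →
      (∀ x ∈ closure Ω, ∀ s, r ≤ s → dist x c ≤ s → ‖f x - f c‖ ≤ Λ * s ^ δ) →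
      (∃ x1 ∈ closure Ω, dist x1 c ≤ r ∧ Λ * r ^ δ ≤ ‖f x1 - f c‖) →
      (∀ a ∈ frontier Ω, dist a c < b → ‖f a - f c‖ ≤ c4 * (Λ * r ^ δ)) →
      ∃ x2 ∈ closure Ω, dist x2 c ≤ b / 2 ∧ c5 * (Λ * b ^ δ) ≤ ‖f x2 - f c‖ := by
  obtain ⟨C, hC, H⟩ := h.high_sphere hn
  set D := C * (Real.log 384 + 4) + 1 with hD
  have hD0 : 0 ≤ D := by
    have := Real.log_nonneg (show (1 : ℝ) ≤ 384 by norm_num)
    positivity
  have hD1 := Real.one_le_exp hD0
  have he3 := Real.one_le_exp (show (0 : ℝ) ≤ 3 by norm_num)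
  set c4 := 1 / (24 * Real.exp D) with hc4
  have hc40 : 0 < c4 := by positivity
  have hc41 : c4 ≤ 1 / 24 := by
    rw [hc4]; gcongr; linarith
  have hc5 : c4 / (12 * Real.exp 3) ≤ 1 / 100 := by
    rw [div_le_iff₀ (by positivity)]; linarith
  refine ⟨c4, c4 / (12 * Real.exp 3), hc40, by positivity, by linarith,
    fun c hc Λ r b hΛ hr hrb hup ⟨x1, hx1, hx1r, hx1L⟩ hbd => ?_⟩
  have hb0 : 0 < b := by linarith
  have hrδ : 0 < r ^ δ := Real.rpow_pos_of_pos hr δ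
  have hbδ : 0 < b ^ δ := Real.rpow_pos_of_pos hb0 δ
  rcases lt_or_ge b (100 * r) with h1 | h1
  · refine ⟨x1, hx1, by linarith, le_trans ?_ hx1L⟩
    have h2 : b ^ δ ≤ 100 * r ^ δ :=
      (Real.rpow_le_rpow hb0.le h1.le hδ0.le).trans (mul_rpow_le (by norm_num) hr.le hδ1)
    calc _ ≤ 1 / 100 * (Λ * (100 * r ^ δ)) := by gcongr
      _ = _ := by ring
  set L := Λ * r ^ δ with hL
  have hL0 : 0 < L := by positivity
  set lam := c4 * L with hlam
  have hl : 0 < lam := by positivity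
  have hlL : 24 * lam ≤ L := by nlinarith
  have hBd : Bd Ω f (f c) lam c (b * (3 / 4)) := fun a ha ha' =>
    hbd a ha (by rw [mem_closedBall] at ha'; linarith)
  obtain ⟨t, ht, hts⟩ := H (f c) lam c c x1 (4 * r) (2 * r) (2 * r) L (64 * L) hl (by positivity)
    hlL (by linarith) (hBd.mono (closedBall_subset_closedBall (by linarith)))
    (fun x hx hx' => by
      rw [mem_closedBall] at hx'
      refine (hup x hx (64 * r) (by linarith) (by linarith)).trans ?_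
      have := mul_rpow_le (k := 64) (by norm_num) hr.le hδ1
      calc _ ≤ Λ * (64 * r ^ δ) := by gcongr
        _ = _ := by rw [hL]; ring)
    (by rw [dist_self]; linarith) (by positivity) (by linarith) hx1 (by linarith) hx1L (by
      rw [show 6 * (64 * L) / L = 384 by field_simp; norm_num,
        show L / (24 * lam) = Real.exp D by rw [hlam, hc4]; field_simp, Real.log_exp]
      linarith)
  have ht0 : 0 < t := by linarith [ht.1]
  have ht3 : t ≤ 3 * r := by linarith [ht.2]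
  have hmass := h.mass_ge hn hl (hBd.mono (closedBall_subset_closedBall (by linarith))) hts
    (mem_ball_self ht0) (fun h2 => by have := h2.2; rw [sub_self, norm_zero] at this; linarith)
  obtain ⟨x2, hx2, hmax⟩ := ((isCompact_closedBall c (b / 2)).inter_right
    (isClosed_closure (s := Ω))).exists_isMaxOn (f := fun x => ‖f x - f c‖)
    ⟨c, mem_closedBall_self (by linarith), hc⟩
    ((h.contc.mono inter_subset_right).sub continuousOn_const).norm
  refine ⟨x2, hx2.2, hx2.1, ?_⟩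
  set T := Real.log (b / (4 * t)) with hT
  have eT : 2 * (t * Real.exp T) = b / 2 := by
    rw [hT, Real.exp_log (by positivity)]; field_simp; ring
  have hT2 : 2 ≤ T := by
    rw [hT, Real.le_log_iff_exp_le (by positivity), le_div_iff₀ (by positivity)]
    nlinarith [exp_two_le]
  have hx2L : L ≤ ‖f x2 - f c‖ :=
    hx1L.trans (hmax ⟨by rw [mem_closedBall]; linarith, hx1⟩)
  have hs := h.sharp' hn hα0 zero_le_one hα hl ht0 hT2 (L := ‖f x2 - f c‖)
    (by rw [eT]; exact hBd.mono (closedBall_subset_closedBall (by linarith))) (by linarith)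
    (fun x hx hx' => by rw [eT] at hx'; exact hmax ⟨hx', hx⟩) (by simpa using hmass)
  have h2 : δ * T - 3 ≤ Real.log (‖f x2 - f c‖ / lam) := by nlinarith
  rw [Real.le_log_iff_exp_le (div_pos (by linarith) hl), le_div_iff₀ hl, Real.exp_sub,
    mul_comm δ T, ← Real.rpow_def_of_pos (by positivity)] at h2
  refine le_trans ?_ h2
  have h3 : b ^ δ ≤ (b / (4 * t)) ^ δ * (12 * r ^ δ) := by
    calc b ^ δ = (b / (4 * t) * (4 * t)) ^ δ := by congr 1; field_simp
      _ = (b / (4 * t)) ^ δ * (4 * t) ^ δ := Real.mul_rpow (by positivity) (by positivity)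
      _ ≤ _ := by
          refine mul_le_mul_of_nonneg_left ?_ (by positivity)
          exact (Real.rpow_le_rpow (by positivity) (by linarith) hδ0.le).trans
            (mul_rpow_le (k := 12) (by norm_num) hr.le hδ1)
  calc c4 / (12 * Real.exp 3) * (Λ * b ^ δ)
      ≤ c4 / (12 * Real.exp 3) * (Λ * ((b / (4 * t)) ^ δ * (12 * r ^ δ))) := by gcongr
    _ = _ := by rw [hlam, hL]; field_simp

lemma QR.holder_at (h : QR Ω f g K KI) (hΩ : Bornology.IsBounded Ω) {δ : ℝ} (hδ0 : 0 < δ)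
    {c : E n} (hc : c ∈ closure Ω) {M : ℝ} (hM : 0 ≤ M)
    (H : ∀ Λ r : ℝ, M < Λ → 0 < r →
      (∀ x ∈ closure Ω, ∀ s, r ≤ s → dist x c ≤ s → ‖f x - f c‖ ≤ Λ * s ^ δ) →
      (∃ x1 ∈ closure Ω, dist x1 c ≤ r ∧ Λ * r ^ δ ≤ ‖f x1 - f c‖) → False) :
    ∀ x ∈ closure Ω, ‖f x - f c‖ ≤ M * dist x c ^ δ := by
  intro x hx
  rcases eq_or_ne x c with rfl | hne
  · rw [sub_self, norm_zero]; positivity
  set η := dist x c with hη
  have hη0 : 0 < η := dist_pos.2 hne
  have hpos : ∀ y : E n, 0 < max (dist y c) η ^ δ := fun y =>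
    Real.rpow_pos_of_pos (lt_max_of_lt_right hη0) δ
  obtain ⟨x1, hx1, hmax⟩ := hΩ.isCompact_closure.exists_isMaxOn
    (f := fun y => ‖f y - f c‖ / max (dist y c) η ^ δ) ⟨c, hc⟩ (by
      refine (h.contc.sub continuousOn_const).norm.div (Continuous.continuousOn ?_)
        fun y _ => (hpos y).ne'
      exact Continuous.rpow_const (by fun_prop) fun _ => Or.inr hδ0.le)
  set Λ := ‖f x1 - f c‖ / max (dist x1 c) η ^ δ with hΛ
  have hΛ0 : 0 ≤ Λ := div_nonneg (norm_nonneg _) (hpos x1).le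
  have hup : ∀ y ∈ closure Ω, ∀ s, η ≤ s → dist y c ≤ s → ‖f y - f c‖ ≤ Λ * s ^ δ := by
    intro y hy s h1 h2
    have h3 : ‖f y - f c‖ / max (dist y c) η ^ δ ≤ Λ := hmax hy
    rw [div_le_iff₀ (hpos y)] at h3
    refine h3.trans (mul_le_mul_of_nonneg_left ?_ hΛ0)
    exact Real.rpow_le_rpow (le_max_of_le_right hη0.le) (max_le h2 h1) hδ0.le
  have hΛM : Λ ≤ M := by
    by_contra hcon
    refine H Λ (max (dist x1 c) η) (not_le.1 hcon) (lt_max_of_lt_right hη0)
      (fun y hy s h1 h2 => hup y hy s ((le_max_right _ _).trans h1) h2)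
      ⟨x1, hx1, le_max_left _ _, le_of_eq ?_⟩
    rw [hΛ, div_mul_cancel₀ _ (hpos x1).ne']
  exact (hup x hx η le_rfl le_rfl).trans
    (mul_le_mul_of_nonneg_right hΛM (Real.rpow_nonneg hη0.le _))

lemma QR.mass_add (h : QR Ω f g K KI) {y0 : E n} {lam : ℝ} (hl : 0 < lam) {c c1 c2 : E n}
    {r r1 r2 : ℝ} (hb : Bd Ω f y0 lam c r) (h1 : closedBall c1 r1 ⊆ closedBall c r)
    (h2 : closedBall c2 r2 ⊆ closedBall c r) (hd : r1 + r2 < dist c1 c2) :
    mass f g lam y0 (KK Ω f y0 lam c1 r1) + mass f g lam y0 (KK Ω f y0 lam c2 r2) ≤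
      mass f g lam y0 (KK Ω f y0 lam c r) := by
  have hK0c := h.isCompact_KK y0 lam c r
  have hK0Ω := h.KK_subset hl hb
  have hi := h.integrableOn_mass (y0 := y0) hl hK0c hK0Ω
  have hdisj : Disjoint (KK Ω f y0 lam c1 r1) (KK Ω f y0 lam c2 r2) :=
    (closedBall_disjoint_closedBall hd).mono inter_subset_left inter_subset_left
  unfold mass
  rw [← setIntegral_union hdisj (h.isCompact_KK y0 lam c2 r2).measurableSet
    (hi.mono_set (KK_mono h1)) (hi.mono_set (KK_mono h2))]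
  refine setIntegral_mono_set hi ?_ (union_subset (KK_mono h1) (KK_mono h2)).eventuallyLE
  filter_upwards [h.PP_nonneg hl y0 hK0Ω] with x hx
  exact mul_nonneg (zd_nonneg _) hx

theorem QR.bdry (h : QR Ω f g K KI) (hn : 2 ≤ n) (hΩ : Bornology.IsBounded Ω) {α δ : ℝ}
    (hα0 : 0 < α) (hα : α ^ (n - 1) * KI = 1) (hδ0 : 0 < δ) (hδα : δ ≤ α) (hδ1 : δ ≤ 1)
    {M : ℝ} (hM : 0 < M)
    (hH : ∀ x ∈ frontier Ω, ∀ y ∈ frontier Ω, ‖f x - f y‖ ≤ M * dist x y ^ δ) :
    ∃ M' : ℝ, 0 < M' ∧ ∀ x0 ∈ frontier Ω, ∀ x ∈ closure Ω, ‖f x - f x0‖ ≤ M' * dist x x0 ^ δ := by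
  obtain ⟨c4, c5, hc4, hc5, hc51, HA⟩ := h.stepA hn hα0 hα hδ0 hδα hδ1
  obtain ⟨C, hC, H⟩ := h.high_sphere hn
  set D := C * (Real.log (384 / c5) + 4) + 1 with hD
  have hD0 : 0 ≤ D := by
    have := Real.log_nonneg (show (1 : ℝ) ≤ 384 / c5 by rw [one_le_div hc5]; linarith)
    positivity
  have hD1 := Real.one_le_exp hD0
  set c6 := c5 / (24 * Real.exp D) with hc6
  have hc60 : 0 < c6 := by positivity
  have hc61 : 24 * c6 ≤ c5 := by
    rw [hc6, mul_div_assoc', div_le_iff₀ (by positivity)]; nlinarith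
  set γ := (2 : ℝ) ^ (((n - 1 : ℕ) : ℝ)⁻¹) with hγ
  have hγ1 : 1 < γ := Real.one_lt_rpow one_lt_two
    (inv_pos.2 (by exact_mod_cast (show 0 < n - 1 by omega)))
  have hγn : γ ^ (n - 1) = 2 := Real.rpow_inv_natCast_pow zero_le_two (by omega)
  obtain ⟨T, hT3, hT⟩ : ∃ T : ℝ, 3 ≤ T ∧
      2 * γ * α + (Real.log 4 - Real.log c6) + 1 < (γ - 1) * α * T := by
    have hp : 0 < (γ - 1) * α := mul_pos (by linarith) hα0
    refine ⟨max 3 ((2 * γ * α + (Real.log 4 - Real.log c6) + 1) / ((γ - 1) * α) + 1),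
      le_max_left _ _, ?_⟩
    rw [← div_lt_iff₀' hp]
    exact lt_of_lt_of_le (lt_add_one _) (le_max_right _ _)
  have heT : 16 ≤ Real.exp T := by
    have h1 : Real.exp 3 ≤ Real.exp T := Real.exp_le_exp.2 hT3
    have h2 : Real.exp 3 = Real.exp 1 * Real.exp 1 * Real.exp 1 := by
      rw [← Real.exp_add, ← Real.exp_add]; norm_num
    have h3 := Real.exp_one_gt_d9
    have h4 : 7 ≤ Real.exp 1 * Real.exp 1 := by nlinarith
    nlinarith
  have hM1 : 0 < 2 * M / c4 := by positivity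
  have hM2 : 0 < 4 * Real.exp T * M / c6 := by positivity
  refine ⟨2 * M / c4 + 4 * Real.exp T * M / c6, by positivity, fun x0 hx0 => ?_⟩
  have hx0c : x0 ∈ closure Ω := frontier_subset_closure hx0
  refine h.holder_at hΩ hδ0 hx0c (by positivity) fun Λ r hΛ hr hup hx1 => ?_
  have hΛ0 : 0 < Λ := by linarith
  have hrδ : 0 < r ^ δ := Real.rpow_pos_of_pos hr δ
  have hnear : ∀ a ∈ frontier Ω, dist a x0 < 2 * r → ‖f a - f x0‖ ≤ c4 * (Λ * r ^ δ) := by
    intro a ha ha'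
    have h1 : dist a x0 ^ δ ≤ 2 * r ^ δ :=
      (Real.rpow_le_rpow dist_nonneg ha'.le hδ0.le).trans (mul_rpow_le one_le_two hr.le hδ1)
    have h2 : 2 * M ≤ c4 * Λ := by
      rw [← div_le_iff₀' hc4]; linarith
    calc _ ≤ M * dist a x0 ^ δ := hH a ha x0 hx0
      _ ≤ M * (2 * r ^ δ) := by gcongr
      _ = 2 * M * r ^ δ := by ring
      _ ≤ c4 * Λ * r ^ δ := by gcongr
      _ = _ := by ring
  rcases eq_empty_or_nonempty (frontier Ω ∩ {a | 2 * r ≤ dist a x0}) with hS | hS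
  · obtain ⟨B, hB⟩ := hΩ.isCompact_closure.exists_bound_of_continuousOn
      (f := fun x => f x - f x0) (h.contc.sub continuousOn_const)
    have h1 : Tendsto (fun b : ℝ => c5 * (Λ * b ^ δ)) atTop atTop :=
      ((tendsto_rpow_atTop hδ0).const_mul_atTop hΛ0).const_mul_atTop hc5
    obtain ⟨b, hb1, hb2⟩ := ((h1.eventually_gt_atTop B).and (eventually_ge_atTop (2 * r))).exists
    obtain ⟨x2, hx2, -, hx2'⟩ := HA x0 hx0c Λ r b hΛ0 hr hb2 hup hx1 fun a ha _ =>
      hnear a ha (by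
        by_contra h2
        exact (hS ▸ (⟨ha, not_lt.1 h2⟩ : a ∈ frontier Ω ∩ {a | 2 * r ≤ dist a x0}) :
          a ∈ (∅ : Set (E n))))
    linarith [hB x2 hx2]
  have hSc : IsCompact (frontier Ω ∩ {a | 2 * r ≤ dist a x0}) :=
    hΩ.isCompact_closure.of_isClosed_subset
      (isClosed_frontier.inter (isClosed_le continuous_const (by fun_prop)))
      (inter_subset_left.trans frontier_subset_closure)
  obtain ⟨a, ha, hmin⟩ := hSc.exists_isMinOn (f := fun a => dist a x0) hS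
    (Continuous.continuousOn (by fun_prop))
  set b := dist a x0 with hb
  have hrb : 2 * r ≤ b := ha.2
  have hb0 : 0 < b := by linarith
  have hbδ : 0 < b ^ δ := Real.rpow_pos_of_pos hb0 δ
  obtain ⟨x2, hx2, hx2b, hx2L⟩ := HA x0 hx0c Λ r b hΛ0 hr hrb hup hx1 fun a' ha' h1 =>
    hnear a' ha' (by
      by_contra h2
      exact absurd (hmin ⟨ha', not_lt.1 h2⟩) (not_le.2 h1))
  set P := Λ * b ^ δ with hP
  have hP0 : 0 < P := by positivity
  set lam := c6 * P with hlam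
  have hl : 0 < lam := by positivity
  have hBd : Bd Ω f (f x0) lam x0 (2 * (2 * b * Real.exp T)) := by
    intro a' ha' h1
    rw [mem_closedBall] at h1
    have h2 : dist a' x0 ^ δ ≤ 4 * Real.exp T * b ^ δ :=
      (Real.rpow_le_rpow dist_nonneg (by linarith) hδ0.le).trans
        (mul_rpow_le (k := 4 * Real.exp T) (by linarith) hb0.le hδ1)
    have h3 : 4 * Real.exp T * M ≤ c6 * Λ := by
      rw [← div_le_iff₀' hc60]; linarith
    calc _ ≤ M * dist a' x0 ^ δ := hH a' ha' x0 hx0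
      _ ≤ M * (4 * Real.exp T * b ^ δ) := by gcongr
      _ = 4 * Real.exp T * M * b ^ δ := by ring
      _ ≤ c6 * Λ * b ^ δ := by gcongr
      _ = _ := by rw [hlam, hP]; ring
  have hbT : 16 * b ≤ b * Real.exp T := by nlinarith
  have hsph : ∀ c1 : E n, dist c1 x0 ≤ b → ∃ t ∈ Icc (b / 8) (b / 8 + 1 / 32 * (4 * b)),
      ∀ x, dist x c1 = t → x ∈ Ω ∧ 6 * lam ≤ ‖f x - f x0‖ := fun c1 hc1 =>
    H (f x0) lam x0 c1 x2 (4 * b) (b / 8) (2 * b) (c5 * P) (64 * P) hl (by positivity)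
      (by rw [hlam]; nlinarith) (by nlinarith)
      (hBd.mono (closedBall_subset_closedBall (by linarith)))
      (fun x hx hx' => by
        rw [mem_closedBall] at hx'
        refine (hup x hx (64 * b) (by linarith) (by linarith)).trans ?_
        have := mul_rpow_le (k := 64) (by norm_num) hb0.le hδ1
        calc _ ≤ Λ * (64 * b ^ δ) := by gcongr
          _ = _ := by rw [hP]; ring)
      (by linarith) (by positivity) (by linarith) hx2 (by linarith) hx2L (by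
        rw [show 6 * (64 * P) / (c5 * P) = 384 / c5 by field_simp; norm_num,
          show c5 * P / (24 * lam) = Real.exp D by rw [hlam, hc6]; field_simp, Real.log_exp]
        linarith)
  obtain ⟨t1, ht1, hs1⟩ := hsph x0 (by rw [dist_self]; linarith)
  obtain ⟨t2, ht2, hs2⟩ := hsph a le_rfl
  have i1 : closedBall x0 t1 ⊆ closedBall x0 (2 * b) :=
    closedBall_subset_closedBall (by linarith [ht1.2])
  have i2 : closedBall a t2 ⊆ closedBall x0 (2 * b) :=
    closedBall_subset_closedBall' (by linarith [ht2.2])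
  have hBd2 : Bd Ω f (f x0) lam x0 (2 * b) :=
    hBd.mono (closedBall_subset_closedBall (by linarith))
  have m1 := h.mass_ge hn hl (hBd2.mono i1) hs1 (mem_ball_self (by linarith [ht1.1]))
    (fun h2 => by have := h2.2; rw [sub_self, norm_zero] at this; linarith)
  have m2 := h.mass_ge hn hl (hBd2.mono i2) hs2 (mem_ball_self (by linarith [ht2.1]))
    (fun h2 => by
      have := hBd2 a ha.1 (by rw [mem_closedBall]; linarith)
      linarith [h2.2])
  have m3 := h.mass_add hl hBd2 i1 i2 (by rw [dist_comm]; linarith [ht1.2, ht2.2])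
  have hk1 : (1 : ℝ) ≤ (4 * Real.exp T) ^ δ := Real.one_le_rpow (by linarith) hδ0.le
  have hs := h.sharp' hn hα0 (γ := γ) (by linarith) hα hl (ρ := 2 * b) (T := T) (by positivity)
    (by linarith) hBd (L := (4 * Real.exp T) ^ δ * P) (by rw [hlam]; nlinarith)
    (fun x hx hx' => by
      rw [mem_closedBall] at hx'
      refine (hup x hx (4 * Real.exp T * b) (by linarith) (by linarith)).trans (le_of_eq ?_)
      rw [Real.mul_rpow (by positivity) hb0.le, hP]
      ring) (by rw [hγn]; linarith)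
  rw [show (4 * Real.exp T) ^ δ * P / lam = (4 * Real.exp T) ^ δ / c6 by rw [hlam]; field_simp,
    Real.log_div (by positivity) hc60.ne', Real.log_rpow (by positivity),
    Real.log_mul (by norm_num) (by positivity), Real.log_exp] at hs
  have hl4 : 0 ≤ Real.log 4 := Real.log_nonneg (by norm_num)
  have h5 : δ * T ≤ α * T := by gcongr
  nlinarith

theorem QR.holder (h : QR Ω f g K KI) (hn : 2 ≤ n) (hΩ : Bornology.IsBounded Ω) {α δ : ℝ}
    (hα0 : 0 < α) (hα : α ^ (n - 1) * KI = 1) (hδ0 : 0 < δ) (hδα : δ ≤ α) (hδ1 : δ ≤ 1)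
    {M : ℝ} (hM : 0 < M)
    (hH : ∀ x ∈ frontier Ω, ∀ y ∈ frontier Ω, ‖f x - f y‖ ≤ M * dist x y ^ δ) :
    ∃ M1 : ℝ, ∀ x ∈ closure Ω, ∀ y ∈ closure Ω, ‖f x - f y‖ ≤ M1 * dist x y ^ δ := by
  obtain ⟨c4, c5, hc4, hc5, hc51, HA⟩ := h.stepA hn hα0 hα hδ0 hδα hδ1
  obtain ⟨M', hM', HB⟩ := h.bdry hn hΩ hα0 hα hδ0 hδα hδ1 hM hH
  have hM3 : 0 < 3 * M' / c5 := by positivity
  refine ⟨5 * M' + 3 * M' / c5, fun x hx c hc => ?_⟩
  refine h.holder_at hΩ hδ0 hc (by positivity) (fun Λ r hΛ hr hup hx1 => ?_) x hx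
  have hΛ0 : 0 < Λ := by linarith
  have hrδ : 0 < r ^ δ := Real.rpow_pos_of_pos hr δ
  have hne : (frontier Ω).Nonempty := by
    have : Nontrivial (E n) := by
      refine Module.nontrivial_of_finrank_pos (R := ℝ) ?_
      simp; omega
    refine nonempty_frontier_iff.2 ⟨closure_nonempty_iff.1 ⟨c, hc⟩, fun h1 => ?_⟩
    exact NormedSpace.unbounded_univ ℝ (E n) (h1 ▸ hΩ)
  have hSc : IsCompact (frontier Ω) :=
    hΩ.isCompact_closure.of_isClosed_subset isClosed_frontier frontier_subset_closure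
  obtain ⟨a, ha, hmin⟩ := hSc.exists_isMinOn (f := fun a => dist a c) hne
    (Continuous.continuousOn (by fun_prop))
  set d := dist a c with hd
  have hd0 : 0 ≤ d := dist_nonneg
  have key : ∀ y ∈ closure Ω, ∀ s k1 k2 : ℝ, 0 ≤ s → 1 ≤ k1 → 1 ≤ k2 → dist y c + d ≤ k1 * s →
      d ≤ k2 * s → ‖f y - f c‖ ≤ (k1 + k2) * M' * s ^ δ := by
    intro y hy s k1 k2 hs h1 h2 h3 h4
    have e1 := HB a ha y hy
    have e2 := HB a ha c hc
    have e3 : dist y a ^ δ ≤ k1 * s ^ δ := by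
      refine (Real.rpow_le_rpow dist_nonneg ?_ hδ0.le).trans (mul_rpow_le h1 hs hδ1)
      have := dist_triangle_right y a c
      linarith
    have e4 : dist c a ^ δ ≤ k2 * s ^ δ := by
      refine (Real.rpow_le_rpow dist_nonneg ?_ hδ0.le).trans (mul_rpow_le h2 hs hδ1)
      rw [dist_comm]; exact h4
    have e5 := dist_triangle_right (f y) (f c) (f a)
    simp only [dist_eq_norm] at e5
    have e6 := mul_le_mul_of_nonneg_left e3 hM'.le
    have e7 := mul_le_mul_of_nonneg_left e4 hM'.le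
    linarith
  rcases le_or_gt d (2 * r) with h1 | h1
  · obtain ⟨x1, hx1, h2, h3⟩ := hx1
    have := key x1 hx1 r 3 2 hr.le (by norm_num) (by norm_num) (by linarith) h1
    nlinarith
  · obtain ⟨x2, hx2, h2, h3⟩ := HA c hc Λ r d hΛ0 hr h1.le hup hx1 fun a' ha' h4 =>
      absurd (hmin ha') (not_le.2 h4)
    have h4 := key x2 hx2 d 2 1 hd0 (by norm_num) le_rfl (by linarith) (by linarith)
    have hdδ : 0 < d ^ δ := Real.rpow_pos_of_pos (by linarith) δ
    have h5 : 3 * M' < c5 * Λ := by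
      rw [← div_lt_iff₀' hc5]; linarith
    nlinarith

end Pool.Agent.Lib.MP_010b1d_an
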