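import Pool.Agent.Lib.MP_010b1d_an.MaxP

/-! Lower bound for the mass: a substitute for the integrality of the degree. -/

set_option autoImplicit false

open MeasureTheory Set Filter Topology Function Metric
open scoped Convolution ENNReal

namespace Pool.Agent.Lib.MP_010b1d_an

variable {n : ℕ}

/-- An open spherical shell. -/
def shell (y0 : E n) (a b : ℝ) : Set (E n) := {y | a < ‖y - y0‖ ∧ ‖y - y0‖ < b}

lemma isOpen_shell (y0 : E n) (a b : ℝ) : IsOpen (shell y0 a b) := by
  have h : Continuous fun y : E n => ‖y - y0‖ := by fun_prop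
  exact (isOpen_lt continuous_const h).inter (isOpen_lt h continuous_const)

lemma isPreconnected_shell (hn : 2 ≤ n) (y0 : E n) {a : ℝ} (ha : 0 < a) (b : ℝ) :
    IsPreconnected (shell y0 a b) := by
  have hr : 1 < Module.rank ℝ (E n) := by
    rw [← Module.finrank_eq_rank]
    simp only [finrank_euclideanSpace, Fintype.card_fin]
    exact_mod_cast hn
  have h1 := ((isPreconnected_sphere hr (0 : E n) 1).prod (isPreconnected_Ioo (a := a) (b := b))
    ).image (fun p : E n × ℝ => y0 + p.2 • p.1) (by fun_prop)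
  have e : shell y0 a b = (fun p : E n × ℝ => y0 + p.2 • p.1) '' (sphere 0 1 ×ˢ Ioo a b) := by
    ext y
    constructor
    · intro hy
      have h0 : 0 < ‖y - y0‖ := ha.trans hy.1
      refine ⟨(‖y - y0‖⁻¹ • (y - y0), ‖y - y0‖), ⟨?_, hy⟩, ?_⟩
      · rw [mem_sphere_zero_iff_norm, norm_smul, norm_inv, norm_norm, inv_mul_cancel₀ h0.ne']
      · simp only [smul_smul, mul_inv_cancel₀ h0.ne', one_smul, add_sub_cancel]
    · rintro ⟨p, ⟨h2, h3⟩, rfl⟩
      rw [mem_sphere_zero_iff_norm] at h2
      have : ‖y0 + p.2 • p.1 - y0‖ = p.2 := by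
        rw [add_sub_cancel_left, norm_smul, h2, mul_one, Real.norm_of_nonneg (ha.trans h3.1).le]
      exact ⟨by rw [this]; exact h3.1, by rw [this]; exact h3.2⟩
  rwa [e]

lemma continuous_jac_fderiv {F : E n → E n} (hF : ContDiff ℝ 1 F) :
    Continuous fun x => jac (fderiv ℝ F x) :=
  continuous_jac.comp (hF.continuous_fderiv one_ne_zero)

lemma T_const {F : E n → E n} (hF : ContDiff ℝ 2 F) {V K1 A : Set (E n)} (hV : IsOpen V)
    (hK1 : IsCompact K1) (hK1V : K1 ⊆ V) (hA : IsOpen A) (hAc : IsPreconnected A)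
    {ψ : E n → ℝ} (hψ : ContDiff ℝ 1 ψ) (hψs : HasCompactSupport ψ)
    (H : ∀ x ∈ V, x ∉ K1 → ∀ z ∈ A, F x - z ∉ tsupport ψ) {z z' : E n} (hz : z ∈ A)
    (hz' : z' ∈ A) :
    ∫ x in K1, jac (fderiv ℝ F x) * ψ (F x - z) = ∫ x in K1, jac (fderiv ℝ F x) * ψ (F x - z') := by
  have hF1 : ContDiff ℝ 1 F := hF.of_le one_le_two
  have hJ := continuous_jac_fderiv hF1
  have hψd := hψ.continuous_fderiv one_ne_zero
  obtain ⟨C, hC⟩ := hψd.bounded_above_of_compact_support (hψs.fderiv ℝ)
  have hD : ∀ w, Continuous fun x => -(jac (fderiv ℝ F x) • fderiv ℝ ψ (F x - w)) := fun w =>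
    (hJ.smul (hψd.comp (hF1.continuous.sub continuous_const))).neg
  have hT : ∀ w, HasFDerivAt (fun w => ∫ x in K1, jac (fderiv ℝ F x) * ψ (F x - w))
      (∫ x in K1, -(jac (fderiv ℝ F x) • fderiv ℝ ψ (F x - w))) w := by
    intro w
    have hc : ∀ w, Continuous fun x => jac (fderiv ℝ F x) * ψ (F x - w) := fun w =>
      hJ.mul (hψ.continuous.comp (hF1.continuous.sub continuous_const))
    refine hasFDerivAt_integral_of_dominated_of_fderiv_le (s := univ)
      (F' := fun w x => -(jac (fderiv ℝ F x) • fderiv ℝ ψ (F x - w)))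
      (bound := fun x => ‖jac (fderiv ℝ F x)‖ * C) univ_mem
      (Eventually.of_forall fun w => (hc w).aestronglyMeasurable)
      ((hc w).continuousOn.integrableOn_compact hK1) (hD w).aestronglyMeasurable
      (Eventually.of_forall fun x w _ => ?_)
      ((hJ.norm.mul continuous_const).continuousOn.integrableOn_compact hK1)
      (Eventually.of_forall fun x w _ => ?_)
    · rw [norm_neg, norm_smul]
      gcongr
      exact hC _
    · have := (((hψ.differentiable one_ne_zero (F x - w)).hasFDerivAt.comp w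
        ((hasFDerivAt_id w).const_sub (F x))).const_mul (jac (fderiv ℝ F x)))
      refine this.congr_fderiv ?_
      ext v
      simp
  refine hA.is_const_of_fderiv_eq_zero (𝕜 := ℝ)
    (f := fun w => ∫ x in K1, jac (fderiv ℝ F x) * ψ (F x - w)) hAc
    (fun w _ => (hT w).differentiableAt.differentiableWithinAt) (fun w hw => ?_) hz hz'
  rw [(hT w).fderiv]
  ext v
  rw [ContinuousLinearMap.integral_apply ((hD w).continuousOn.integrableOn_compact hK1)]
  have hθ : ContDiff ℝ 1 fun p : E n × E n => ψ (p.2 - w) :=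
    hψ.comp (contDiff_snd.sub contDiff_const)
  have h1 := (FI_smooth hF V).local hV Subset.rfl hK1 hK1V hθ (fun x hx hx' => by
    have h2 : ψ =ᶠ[𝓝 (F x - w)] 0 := notMem_tsupport_iff_eventuallyEq.1 (H x hx hx' w hw)
    have h3 : Continuous fun p : E n × E n => p.2 - w := by fun_prop
    exact (h3.tendsto (x, F x)).eventually h2) 0 v
  have h2 : ∀ x, fiTerm (fun p : E n × E n => ψ (p.2 - w)) 0 v (x, F x, fderiv ℝ F x) =
      jac (fderiv ℝ F x) * fderiv ℝ ψ (F x - w) v := by
    intro x
    have d1 : HasFDerivAt (fun p : E n × E n => p.2 - w) (ContinuousLinearMap.snd ℝ (E n) (E n))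
        (x, F x) := hasFDerivAt_snd.sub_const w
    have d2 := (HasFDerivAt.comp (f := fun p : E n × E n => p.2 - w) (x, F x)
      (hψ.differentiable one_ne_zero (F x - w)).hasFDerivAt d1).fderiv
    simp only [Function.comp_def] at d2
    simp only [fiTerm]
    rw [d2]
    simp
  simp only [h2] at h1
  simp only [neg_apply, smul_apply, smul_eq_mul, integral_neg, h1]
  simp

lemma zero_of_missed (hn : 2 ≤ n) {F : E n → E n} (hF : ContDiff ℝ 2 F) {V K1 : Set (E n)}
    (hV : IsOpen V) (hK1 : IsCompact K1) (hK1V : K1 ⊆ V) {y0 : E n} {a b η : ℝ} (ha : 0 < a)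
    (hη : 0 < η) (H : ∀ x ∈ V, x ∉ K1 → ‖F x - y0‖ < a - η ∨ b + η < ‖F x - y0‖)
    {r : E n → ℝ} (hr : Continuous r) (hrs : HasCompactSupport r)
    (hrA : ∀ z, z ∉ shell y0 a b → r z = 0) {z0 : E n} (hz0 : z0 ∈ shell y0 a b)
    (hz0' : z0 ∉ F '' K1) : ∫ x in K1, r (F x) * jac (fderiv ℝ F x) = 0 := by
  have hF1 : ContDiff ℝ 1 F := hF.of_le one_le_two
  have hJ := continuous_jac_fderiv hF1
  obtain ⟨η0, hη0, hη0'⟩ := Metric.mem_nhds_iff.1
    ((hK1.image hF1.continuous).isClosed.isOpen_compl.mem_nhds hz0')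
  set δ := min η0 η / 2 with hδ
  have hδ0 : 0 < δ := half_pos (lt_min hη0 hη)
  have hδ1 : δ < η0 := by linarith [min_le_left η0 η]
  have hδ2 : δ < η := by linarith [min_le_right η0 η]
  let φ : ℕ → ContDiffBump (0 : E n) := fun k =>
    ⟨δ / (k + 1) / 2, δ / (k + 1), by positivity, half_lt_self (by positivity)⟩
  have hφ1 : ∀ k, (φ k).rOut ≤ δ := fun k =>
    div_le_self hδ0.le (by linarith [(Nat.cast_nonneg k : (0 : ℝ) ≤ k)])
  have hφ2 : Tendsto (fun k => (φ k).rOut) atTop (𝓝 0) := by
    have := tendsto_one_div_add_atTop_nhds_zero_nat (𝕜 := ℝ) |>.const_mul δ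
    simpa [φ, div_eq_mul_inv] using this
  have hri : Integrable r := hr.integrable_of_hasCompactSupport hrs
  have hJi : IntegrableOn (fun x => jac (fderiv ℝ F x)) K1 :=
    hJ.continuousOn.integrableOn_compact hK1
  have step : ∀ k, ∫ x in K1, ((φ k).normed volume ⋆[ContinuousLinearMap.lsmul ℝ ℝ, volume] r :
      E n → ℝ) (F x) * jac (fderiv ℝ F x) = 0 := by
    intro k
    set ψ := (φ k).normed volume with hψ
    have hψ1 : ContDiff ℝ 1 ψ := (φ k).contDiff_normed
    have hψs : HasCompactSupport ψ := (φ k).hasCompactSupport_normed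
    have hts : ∀ y, y ∈ tsupport ψ → ‖y‖ ≤ δ := by
      intro y hy
      rw [hψ, (φ k).tsupport_normed_eq, mem_closedBall_zero_iff] at hy
      exact hy.trans (hφ1 k)
    have h0 : ∀ z ∈ shell y0 a b, ∫ x in K1, jac (fderiv ℝ F x) * ψ (F x - z) = 0 := by
      intro z hz
      rw [T_const hF hV hK1 hK1V (isOpen_shell y0 a b) (isPreconnected_shell hn y0 ha b) hψ1 hψs
        (fun x hx hx' w hw hm => ?_) hz hz0]
      · refine setIntegral_eq_zero_of_forall_eq_zero fun x hx => ?_
        rw [image_eq_zero_of_notMem_tsupport (f := ψ) fun hm => ?_, mul_zero]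
        have h1 := hts _ hm
        have h2 : F x ∈ ball z0 η0 := by rw [mem_ball, dist_eq_norm]; linarith
        exact hη0' h2 (mem_image_of_mem F hx)
      · have h1 := hts _ hm
        have h2 := dist_triangle (F x) w y0
        have h3 := dist_triangle_left w y0 (F x)
        simp only [dist_eq_norm] at h2 h3
        rcases H x hx hx' with h4 | h4
        · linarith [hw.1]
        · linarith [hw.2]
    obtain ⟨C, hC⟩ := hψ1.continuous.bounded_above_of_compact_support hψs
    have hint : Integrable (uncurry fun (z x : E n) => r z * (jac (fderiv ℝ F x) * ψ (F x - z)))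
        (volume.prod (volume.restrict K1)) := by
      refine ((hri.norm.mul_prod (hJi.norm.mul_const C))).mono' ?_
        (Eventually.of_forall fun p => ?_)
      · refine Continuous.aestronglyMeasurable ?_
        exact (hr.comp continuous_fst).mul ((hJ.comp continuous_snd).mul
          (hψ1.continuous.comp ((hF1.continuous.comp continuous_snd).sub continuous_fst)))
      · simp only [uncurry, norm_mul]
        gcongr
        exact hC _
    have h1 := integral_integral_swap hint
    have h2 : ∫ z, ∫ x in K1, r z * (jac (fderiv ℝ F x) * ψ (F x - z)) = 0 := by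
      refine integral_eq_zero_of_ae (Eventually.of_forall fun z => ?_)
      simp only [integral_const_mul, Pi.zero_apply]
      by_cases hz : z ∈ shell y0 a b
      · rw [h0 z hz, mul_zero]
      · rw [hrA z hz, zero_mul]
    rw [← h2, h1]
    refine integral_congr_ae (Eventually.of_forall fun x => ?_)
    simp only [convolution_lsmul_swap, smul_eq_mul]
    rw [← integral_mul_const]
    refine integral_congr_ae (Eventually.of_forall fun z => ?_)
    simp only
    ring
  obtain ⟨C, hC⟩ := hr.bounded_above_of_compact_support hrs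
  have hlim : Tendsto (fun k => ∫ x in K1,
      ((φ k).normed volume ⋆[ContinuousLinearMap.lsmul ℝ ℝ, volume] r : E n → ℝ) (F x) *
        jac (fderiv ℝ F x)) atTop (𝓝 (∫ x in K1, r (F x) * jac (fderiv ℝ F x))) := by
    refine tendsto_integral_of_dominated_convergence (fun x => 3 * C * ‖jac (fderiv ℝ F x)‖)
      (fun k => ?_) (hJi.norm.const_mul _) (fun k => Eventually.of_forall fun x => ?_)
      (Eventually.of_forall fun x => ?_)
    · have h1 : Continuous
          ((φ k).normed volume ⋆[ContinuousLinearMap.lsmul ℝ ℝ, volume] r : E n → ℝ) :=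
        ((φ k).hasCompactSupport_normed.contDiff_convolution_left _ (n := 0)
          (φ k).contDiff_normed hri.locallyIntegrable).continuous
      exact ((h1.comp hF1.continuous).mul hJ).aestronglyMeasurable
    · rw [norm_mul]
      gcongr
      have h1 := (φ k).dist_normed_convolution_le (μ := volume) (x₀ := F x) (ε := 2 * C)
        hr.aestronglyMeasurable fun y _ => by
          have := dist_le_norm_add_norm (r y) (r (F x))
          linarith [hC y, hC (F x)]
      rw [dist_eq_norm] at h1
      have h2 := norm_le_norm_add_norm_sub'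
        (((φ k).normed volume ⋆[ContinuousLinearMap.lsmul ℝ ℝ, volume] r : E n → ℝ) (F x))
        (r (F x))
      linarith [hC (F x)]
    · exact (ContDiffBump.convolution_tendsto_right_of_continuous hφ2 hr (F x)).mul_const _
  simp only [step] at hlim
  exact tendsto_nhds_unique hlim tendsto_const_nhds ▸ rfl

lemma area_le {F : E n → E n} (hF : ContDiff ℝ 1 F) {K1 : Set (E n)} (hK1 : IsCompact K1)
    {r : E n → ℝ} (hr : Continuous r) (hrs : HasCompactSupport r) (hr0 : ∀ y, 0 ≤ r y)
    (hsurj : ∀ z, z ∉ F '' K1 → r z = 0) :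
    ∫ z, r z ≤ ∫ x in K1, r (F x) * |jac (fderiv ℝ F x)| := by
  have hJ := continuous_jac_fderiv hF
  have hJm : Measurable fun x => ENNReal.ofReal |jac (fderiv ℝ F x)| :=
    hJ.abs.measurable.ennreal_ofReal
  have hFm : Measurable F := hF.continuous.measurable
  have hrm : Measurable fun y => ENNReal.ofReal (r y) := hr.measurable.ennreal_ofReal
  set ν := Measure.map F ((volume.restrict K1).withDensity
    fun x => ENNReal.ofReal |jac (fderiv ℝ F x)|) with hν
  have hle : volume.restrict (F '' K1) ≤ ν := by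
    refine Measure.le_iff.2 fun S hS => ?_
    rw [Measure.restrict_apply hS, hν, Measure.map_apply hFm hS, withDensity_apply _ (hFm hS),
      Measure.restrict_restrict (hFm hS), ← image_preimage_inter]
    exact addHaar_image_le_lintegral_abs_det_fderiv volume ((hFm hS).inter hK1.measurableSet)
      fun x _ => (hF.differentiable one_ne_zero x).hasFDerivAt.hasFDerivWithinAt
  have hi : IntegrableOn (fun x => r (F x) * |jac (fderiv ℝ F x)|) K1 :=
    ((hr.comp hF.continuous).mul hJ.abs).continuousOn.integrableOn_compact hK1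
  have h0 : ∀ x, 0 ≤ r (F x) * |jac (fderiv ℝ F x)| := fun x => mul_nonneg (hr0 _) (abs_nonneg _)
  rw [← ENNReal.ofReal_le_ofReal_iff (integral_nonneg h0),
    ofReal_integral_eq_lintegral_ofReal hi (Eventually.of_forall h0),
    ofReal_integral_eq_lintegral_ofReal (hr.integrable_of_hasCompactSupport hrs)
      (Eventually.of_forall hr0)]
  calc ∫⁻ z, ENNReal.ofReal (r z) = ∫⁻ z in F '' K1, ENNReal.ofReal (r z) := by
        rw [← lintegral_indicator (hK1.image hF.continuous).measurableSet]
        refine lintegral_congr fun z => ?_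
        by_cases hz : z ∈ F '' K1
        · rw [indicator_of_mem hz]
        · rw [indicator_of_notMem hz, hsurj z hz, ENNReal.ofReal_zero]
    _ ≤ ∫⁻ z, ENNReal.ofReal (r z) ∂ν := lintegral_mono' hle le_rfl
    _ = _ := by
        rw [hν, lintegral_map hrm hFm,
          lintegral_withDensity_eq_lintegral_mul _ hJm (g := fun x => ENNReal.ofReal (r (F x)))
            (hrm.comp hFm)]
        refine lintegral_congr fun x => ?_
        rw [Pi.mul_apply, mul_comm, ENNReal.ofReal_mul (hr0 _)]

variable {Ω : Set (E n)} {f : E n → E n} {g : E n → E n →L[ℝ] E n} {K KI : ℝ}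

theorem QR.mass_ge (h : QR Ω f g K KI) (hn : 2 ≤ n) {y0 : E n} {lam : ℝ} (hl : 0 < lam)
    {c : E n} {t : ℝ} (hb : Bd Ω f y0 lam c t)
    (hs : ∀ x, dist x c = t → x ∈ Ω ∧ 6 * lam ≤ ‖f x - y0‖) {p : E n} (hp : p ∈ ball c t)
    (hp' : p ∉ HH Ω f y0 (3 / 2 * lam)) : om n ≤ mass f g lam y0 (KK Ω f y0 lam c t) := by
  have hn1 : 1 ≤ n := by omega
  have ht : 0 < t := pos_of_mem_ball hp
  have hNc : ContinuousOn (fun x => ‖f x - y0‖) Ω := (h.cont.sub continuousOn_const).norm
  obtain ⟨s0, hs0⟩ := exists_dist_eq hn1 c ht.le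
  have hs2 : s0 ∈ closure (ball c t) := by rw [closure_ball c ht.ne']; exact hs0.le
  obtain ⟨q, hq1, hq2⟩ := mem_closure_iff.1 hs2 _
    (hNc.isOpen_inter_preimage h.opn (isOpen_Ioi (a := 5 * lam)))
    ⟨(hs s0 hs0).1, by have := (hs s0 hs0).2; simp only [mem_preimage, mem_Ioi]; linarith⟩
  have hpos := h.mass_pos hn1 hl hb hp hp' hq2 hq1.1 hq1.2
  set K0 := KK Ω f y0 lam c t with hK0
  have hK0c : IsCompact K0 := h.isCompact_KK y0 lam c t
  have hK0Ω : K0 ⊆ Ω := h.KK_subset hl hb
  set V := (Ω ∩ (fun x => ‖f x - y0‖) ⁻¹' Ioo (8 / 5 * lam) (59 / 10 * lam)) ∩ ball c t with hV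
  have hVo : IsOpen V := (hNc.isOpen_inter_preimage h.opn isOpen_Ioo).inter isOpen_ball
  have hVK : V ⊆ K0 := fun x hx =>
    ⟨ball_subset_closedBall hx.2, subset_closure hx.1.1, by linarith [hx.1.2.1]⟩
  set K1 := K0 ∩ (fun x => ‖f x - y0‖) ⁻¹' Icc (9 / 5 * lam) (57 / 10 * lam) with hK1
  have hK1c : IsCompact K1 := hK0c.of_isClosed_subset
    ((hNc.mono hK0Ω).preimage_isClosed_of_isClosed hK0c.isClosed isClosed_Icc) inter_subset_left
  have hK1V : K1 ⊆ V := by
    intro x hx
    refine ⟨⟨hK0Ω hx.1, by linarith [hx.2.1], by linarith [hx.2.2]⟩,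
      mem_ball.2 (lt_of_le_of_ne (mem_closedBall.1 hx.1.1) fun h1 => ?_)⟩
    linarith [(hs x h1).2, hx.2.2]
  set r : E n → ℝ := fun y => zd (lv lam y0 y) * wt lam y0 y with hr
  have hrc : Continuous r := (continuous_zd.comp (continuous_lv hl y0)).mul (continuous_wt hl y0)
  have hr0 : ∀ y, 0 ≤ r y := fun y => mul_nonneg (zd_nonneg _) (wt_pos hl y0 y).le
  have hrz : ∀ y, ‖y - y0‖ ≤ 2 * lam ∨ 11 / 2 * lam ≤ ‖y - y0‖ → r y = 0 := by
    rintro y (hy | hy)
    · simp [hr, zd_zero (lv_nonpos hl hy)]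
    · simp [hr, zd_one (one_le_lv hl hy)]
  have hrA : ∀ z, z ∉ shell y0 (19 / 10 * lam) (28 / 5 * lam) → r z = 0 := by
    intro z hz
    refine hrz z ?_
    by_contra hcon
    rw [not_or, not_le, not_le] at hcon
    exact hz ⟨by linarith [hcon.1], by linarith [hcon.2]⟩
  have hrs : HasCompactSupport r :=
    HasCompactSupport.intro (isCompact_closedBall y0 (11 / 2 * lam)) fun y hy =>
      hrz y (Or.inr (by rw [mem_closedBall, dist_eq_norm] at hy; exact (not_le.1 hy).le))
  have hri : ∫ y, r y = om n := by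
    rw [hr, radial_integral hn1 hl y0 fun s => zd_zero, integral_zd, mul_one]
  obtain ⟨C, hC⟩ := hrc.bounded_above_of_compact_support hrs
  have hC0 : 0 ≤ C := (norm_nonneg _).trans (hC 0)
  obtain ⟨fk, hfk, hunif, hlim⟩ := h.toSob.approx hn1 hK0c hK0Ω
  have hgr : ∀ (y : E n) (A : E n →L[ℝ] E n), |r y| * |jac A| ≤ C * ‖DD n‖ * (1 + ‖A‖ ^ n) := by
    intro y A
    rw [mul_assoc]
    refine mul_le_mul (hC y) ((abs_jac_le A).trans ?_) (abs_nonneg _) hC0
    gcongr
    linarith
  have c1 : Continuous fun p : E n × E n × (E n →L[ℝ] E n) => r p.2.1 :=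
    hrc.comp (continuous_fst.comp continuous_snd)
  have c2 : Continuous fun p : E n × E n × (E n →L[ℝ] E n) => jac p.2.2 :=
    continuous_jac.comp (continuous_snd.comp continuous_snd)
  have L1 := (hlim K1 hK1c.measurableSet inter_subset_left (fun p => r p.2.1 * jac p.2.2)
    (c1.mul c2) fun R => ⟨C * ‖DD n‖, fun x _ y _ A => by rw [abs_mul]; exact hgr y A⟩).2
  have L2 := (hlim K1 hK1c.measurableSet inter_subset_left (fun p => r p.2.1 * |jac p.2.2|)
    (c1.mul c2.abs) fun R => ⟨C * ‖DD n‖, fun x _ y _ A => by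
      rw [abs_mul, abs_abs]; exact hgr y A⟩).2
  have e1 : ∫ x in K1, r (f x) * jac (g x) = mass f g lam y0 K0 := by
    rw [mass, setIntegral_eq_of_subset_of_forall_sdiff_eq_zero hK0c.measurableSet
      (inter_subset_left : K1 ⊆ K0)]
    · refine integral_congr_ae (Eventually.of_forall fun x => ?_)
      simp only [hr, PP]
      ring
    · intro x hx
      have : r (f x) = 0 := by
        refine hrz _ ?_
        by_contra hcon
        rw [not_or, not_le, not_le] at hcon
        exact hx.2 ⟨hx.1, by linarith [hcon.1], by linarith [hcon.2]⟩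
      calc _ = r (f x) * jac (g x) := by simp only [hr, PP]; ring
        _ = 0 := by rw [this, zero_mul]
  have e2 : ∫ x in K1, r (f x) * |jac (g x)| = mass f g lam y0 K0 := by
    rw [← e1]
    refine integral_congr_ae ?_
    filter_upwards [ae_restrict_of_ae_restrict_of_subset (inter_subset_left.trans hK0Ω)
      h.jac_nonneg] with x hx
    rw [abs_of_nonneg hx]
  simp only [e1] at L1
  simp only [e2] at L2
  refine ge_of_tendsto L2 ?_
  filter_upwards [Metric.tendstoUniformlyOn_iff.1 hunif (lam / 40) (by positivity),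
    L1.eventually (lt_mem_nhds hpos)] with k hk hk'
  rw [← hri]
  refine area_le ((hfk k).of_le one_le_two) hK1c hrc hrs hr0 fun z hz => ?_
  by_contra hz'
  have hzA : z ∈ shell y0 (19 / 10 * lam) (28 / 5 * lam) := by
    by_contra h1
    exact hz' (hrA z h1)
  have := zero_of_missed hn (hfk k) hVo hK1c hK1V (y0 := y0) (a := 19 / 10 * lam)
    (b := 28 / 5 * lam) (η := lam / 20) (by positivity) (by positivity) (fun x hx hx' => by
      have h1 := hk x (hVK hx)
      have h2 := dist_triangle (f x) (fk k x) y0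
      have h3 := dist_triangle_left (fk k x) y0 (f x)
      simp only [dist_eq_norm] at h1 h2 h3
      by_contra hcon
      rw [not_or, not_lt, not_lt] at hcon
      exact hx' ⟨hVK hx, by linarith [hcon.1], by linarith [hcon.2]⟩) hrc hrs hrA hzA hz
  linarith

end Pool.Agent.Lib.MP_010b1d_an
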