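import Pool.Agent.Lib.MP_010b1d_an.Log
import Pool.Agent.Lib.MP_010b1d_an.Loewner

/-! Capacity estimate for quasiregular maps, positivity of the mass, maximum principle. -/

set_option autoImplicit false

open MeasureTheory Set Filter Topology Function Metric

namespace Pool.Agent.Lib.MP_010b1d_an

variable {n : ℕ}

/-- Points of the closed domain where `|f - y0|` is at least `t`. -/
def HH (Ω : Set (E n)) (f : E n → E n) (y0 : E n) (t : ℝ) : Set (E n) :=
  {x | x ∈ closure Ω ∧ t ≤ ‖f x - y0‖}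

/-- The part of a closed ball where `|f - y0|` is not small. -/
def KK (Ω : Set (E n)) (f : E n → E n) (y0 : E n) (lam : ℝ) (c : E n) (r : ℝ) : Set (E n) :=
  closedBall c r ∩ HH Ω f y0 (3 / 2 * lam)

/-- The boundary values are small in a closed ball. -/
def Bd (Ω : Set (E n)) (f : E n → E n) (y0 : E n) (lam : ℝ) (c : E n) (r : ℝ) : Prop :=
  ∀ x ∈ frontier Ω, x ∈ closedBall c r → ‖f x - y0‖ ≤ lam

/-- The mass of the pull back of the normalised shell density. -/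
noncomputable def mass (f : E n → E n) (g : E n → E n →L[ℝ] E n) (lam : ℝ) (y0 : E n)
    (S : Set (E n)) : ℝ := ∫ x in S, zd (lv lam y0 (f x)) * PP f g lam y0 x

variable {Ω : Set (E n)} {f : E n → E n} {g : E n → E n →L[ℝ] E n} {K KI : ℝ}

lemma QR.isClosed_HH (h : QR Ω f g K KI) (y0 : E n) (t : ℝ) : IsClosed (HH Ω f y0 t) :=
  ((h.contc.sub continuousOn_const).norm).preimage_isClosed_of_isClosed isClosed_closure
    (isClosed_Ici (a := t))

lemma QR.isCompact_KK (h : QR Ω f g K KI) (y0 : E n) (lam : ℝ) (c : E n) (r : ℝ) :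
    IsCompact (KK Ω f y0 lam c r) :=
  (isCompact_closedBall c r).inter_right (h.isClosed_HH y0 _)

lemma QR.mem_of_lt (h : QR Ω f g K KI) {y0 : E n} {lam : ℝ} {c : E n} {r : ℝ}
    (hb : Bd Ω f y0 lam c r) {x : E n} (hx : x ∈ closedBall c r) (hx' : x ∈ closure Ω)
    (hl : lam < ‖f x - y0‖) : x ∈ Ω := by
  by_contra hn
  have : x ∈ frontier Ω := by rw [h.opn.frontier_eq]; exact ⟨hx', hn⟩
  linarith [hb x this hx]

lemma QR.KK_subset (h : QR Ω f g K KI) {y0 : E n} {lam : ℝ} (hl : 0 < lam) {c : E n} {r : ℝ}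
    (hb : Bd Ω f y0 lam c r) : KK Ω f y0 lam c r ⊆ Ω := fun x hx =>
  h.mem_of_lt hb hx.1 hx.2.1 (by linarith [hx.2.2])

lemma KK_lt {y0 : E n} {lam : ℝ} (hl : 0 < lam) {c : E n} {r : ℝ} :
    ∀ x ∈ KK Ω f y0 lam c r, lam < ‖f x - y0‖ := fun x hx => by linarith [hx.2.2]

lemma Bd.mono {y0 : E n} {lam : ℝ} {c c' : E n} {r r' : ℝ} (hb : Bd Ω f y0 lam c r)
    (hs : closedBall c' r' ⊆ closedBall c r) : Bd Ω f y0 lam c' r' :=
  fun x hx hx' => hb x hx (hs hx')

lemma QR.continuousOn_lv (h : QR Ω f g K KI) {lam : ℝ} (hl : 0 < lam) (y0 : E n)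
    {S : Set (E n)} (hS : S ⊆ Ω) : ContinuousOn (fun x => lv lam y0 (f x)) S :=
  (continuous_lv hl y0).comp_continuousOn (h.cont.mono hS)

theorem QR.loew (h : QR Ω f g K KI) (hn : 1 ≤ n) {y0 : E n} {lam : ℝ} (hl : 0 < lam)
    {c c1 c2 : E n} {ρ σ t1 t2 : ℝ} (hρ : 0 < ρ) (hσ : 0 ≤ σ) (hb : Bd Ω f y0 lam c ρ)
    {Ψ Ψ' : ℝ → ℝ} (hΨ : ∀ s, HasDerivAt Ψ (Ψ' s) s) (hΨc : Continuous Ψ')
    (hΨ0 : ∀ s, s ≤ 0 → Ψ s = 0) (hmono : Monotone Ψ) {L a : ℝ} (hL : 2 * lam ≤ L) (ha : 0 < a)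
    (haL : a ≤ Ψ (Real.log (L / (4 * lam))))
    (H1 : ∀ t ∈ Icc t1 (t1 + σ * ρ), ∃ x ∈ ball c ρ, dist x c1 = t ∧ x ∉ HH Ω f y0 (3 / 2 * lam))
    (H2 : ∀ t ∈ Icc t2 (t2 + σ * ρ), ∃ x ∈ ball c ρ, dist x c2 = t ∧ x ∈ HH Ω f y0 L) :
    (volume : Measure (E n)).real (ball 0 1) * ((a / (16 * n)) ^ n * σ / 20) ≤
      K * ∫ x in KK Ω f y0 lam c ρ, |Ψ' (lv lam y0 (f x))| ^ n * PP f g lam y0 x := by
  set K0 := KK Ω f y0 lam c ρ with hK0
  have hK0c : IsCompact K0 := h.isCompact_KK _ _ _ _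
  have hK0Ω : K0 ⊆ Ω := h.KK_subset hl hb
  obtain ⟨K2, hK2, hK02, hK2Ω, κ, hκ, hκ1, hκ0⟩ := exists_cutoff hK0c h.opn hK0Ω
  obtain ⟨fk, hfk, hunif, hlim⟩ := h.toSob.approx hn hK2 hK2Ω
  have hΨ1 : ContDiff ℝ 1 Ψ := by
    refine contDiff_one_iff_deriv.2 ⟨fun s => (hΨ s).differentiableAt, ?_⟩
    rwa [show deriv Ψ = Ψ' from funext fun s => (hΨ s).deriv]
  set Q : E n → ℝ := fun y => Ψ (lv lam y0 y) with hQ
  have hQc : ContDiff ℝ 1 Q := contDiff_comp_lv' hl y0 hΨ1 hΨ0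
  have hQd := hQc.continuous_fderiv one_ne_zero
  set Φ : E n × E n × (E n →L[ℝ] E n) → ℝ := fun p => ‖(fderiv ℝ Q p.2.1).comp p.2.2‖ ^ n with hΦ
  have hΦc : Continuous Φ := by
    refine (Continuous.norm ?_).pow n
    exact (hQd.comp (continuous_fst.comp continuous_snd)).clm_comp
      (continuous_snd.comp continuous_snd)
  obtain ⟨hΦi, hΦl⟩ := hlim K0 hK0c.measurableSet hK02 Φ hΦc fun R => by
    obtain ⟨C, hC⟩ := (isCompact_closedBall (0 : E n) R).exists_bound_of_continuousOn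
      hQd.continuousOn
    refine ⟨C ^ n, fun x _ y hy A => ?_⟩
    have h1 := hC y (mem_closedBall_zero_iff.2 hy)
    have h0 : 0 ≤ C := (norm_nonneg _).trans h1
    rw [abs_of_nonneg (by positivity)]
    calc Φ (x, y, A) ≤ (C * ‖A‖) ^ n := by
          refine pow_le_pow_left₀ (norm_nonneg _)
            ((ContinuousLinearMap.opNorm_comp_le _ _).trans ?_) n
          gcongr
      _ ≤ _ := by rw [mul_pow]; gcongr; linarith
  have hev := Metric.tendstoUniformlyOn_iff.1 hunif (lam / 2) (half_pos hl)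
  have hlow : (volume : Measure (E n)).real (ball 0 1) * ((a / (16 * n)) ^ n * σ / 20) ≤
      ∫ x in K0, Φ (x, f x, g x) := by
    refine ge_of_tendsto hΦl ?_
    filter_upwards [hev] with k hk
    have hf1 : ContDiff ℝ 1 (fk k) := (hfk k).of_le one_le_two
    set w : E n → ℝ := fun x => κ x * Q (fk k x) with hw
    have hwc : ContDiff ℝ 1 w := hκ.mul (hQc.comp hf1)
    have hw0 : ∀ x ∈ ball c ρ, x ∉ HH Ω f y0 (3 / 2 * lam) → w =ᶠ[𝓝 x] fun _ => 0 := by
      intro x hx hx'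
      by_cases hx2 : x ∈ K2
      · have h1 : ‖f x - y0‖ < 3 / 2 * lam := by
          by_contra h2
          exact hx' ⟨subset_closure (hK2Ω hx2), not_lt.1 h2⟩
        have h2 : ‖fk k x - y0‖ < 2 * lam := by
          have h3 := hk x hx2
          have h4 := dist_triangle_left (fk k x) y0 (f x)
          simp only [dist_eq_norm] at h3 h4
          linarith
        have h3 : ∀ᶠ z in 𝓝 x, ‖fk k z - y0‖ < 2 * lam :=
          (isOpen_lt (hf1.continuous.sub continuous_const).norm continuous_const).mem_nhds h2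
        filter_upwards [h3] with z hz
        simp [hw, hQ, hΨ0 _ (lv_nonpos hl hz.le)]
      · filter_upwards [hκ0 x hx2] with z hz
        simp [hw, hz]
    have hw1 : ∀ x ∈ K0, w =ᶠ[𝓝 x] fun z => Q (fk k z) := by
      intro x hx
      filter_upwards [hκ1 x hx] with z hz
      simp [hw, hz]
    have hl1 := loewner_smooth hn hwc (c := c) (c1 := c1) (c2 := c2) (t1 := t1) (t2 := t2)
      hρ hσ ha (fun t ht => by
        obtain ⟨x, hx, hxd, hx'⟩ := H1 t ht
        exact ⟨x, hx, hxd, (hw0 x hx hx').self_of_nhds⟩) (fun t ht => by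
        obtain ⟨x, hx, hxd, hx'⟩ := H2 t ht
        have hxK : x ∈ K0 := ⟨ball_subset_closedBall hx, hx'.1, by linarith [hx'.2]⟩
        refine ⟨x, hx, hxd, ?_⟩
        rw [(hw1 x hxK).self_of_nhds]
        refine haL.trans (hmono ?_)
        have h2 : L / 2 ≤ ‖fk k x - y0‖ := by
          have h3 := hk x (hK02 hxK)
          have h4 := dist_triangle (f x) (fk k x) y0
          simp only [dist_eq_norm] at h3 h4
          linarith [hx'.2]
        have := le_lv hl h2 (by linarith)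
        rwa [show L / 2 / (2 * lam) = L / (4 * lam) by field_simp; ring] at this)
    refine hl1.trans ?_
    have hci : Continuous fun x => Φ (x, fk k x, fderiv ℝ (fk k) x) :=
      hΦc.comp (continuous_id.prodMk (hf1.continuous.prodMk (hf1.continuous_fderiv one_ne_zero)))
    have hii : IntegrableOn (fun x => Φ (x, fk k x, fderiv ℝ (fk k) x)) K0 :=
      hci.continuousOn.integrableOn_compact hK0c
    calc ∫ y in ball c ρ, ‖fderiv ℝ w y‖ ^ n
        = ∫ y in ball c ρ, K0.indicator (fun x => Φ (x, fk k x, fderiv ℝ (fk k) x)) y := by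
          refine setIntegral_congr_fun measurableSet_ball fun x hx => ?_
          by_cases hxK : x ∈ K0
          · simp only [indicator_of_mem hxK, hΦ]
            rw [(hw1 x hxK).fderiv_eq]
            have := ((hQc.differentiable one_ne_zero _).hasFDerivAt.comp x
              (hf1.differentiable one_ne_zero x).hasFDerivAt).fderiv
            simp only [Function.comp_def] at this
            rw [this]
          · simp only [indicator_of_notMem hxK]
            rw [(hw0 x hx fun h1 => hxK ⟨ball_subset_closedBall hx, h1⟩).fderiv_eq]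
            simp [zero_pow (show n ≠ 0 by omega)]
      _ ≤ ∫ y, K0.indicator (fun x => Φ (x, fk k x, fderiv ℝ (fk k) x)) y :=
          setIntegral_le_integral (hii.integrable_indicator hK0c.measurableSet)
            (Eventually.of_forall fun x => indicator_nonneg (fun y _ => by positivity) x)
      _ = _ := integral_indicator hK0c.measurableSet
  refine hlow.trans ?_
  rw [← integral_const_mul]
  refine integral_mono_ae hΦi ((h.toSob.integrableOn_PP hK0c hK0Ω hl y0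
    ((hΨc.comp_continuousOn (h.continuousOn_lv hl y0 hK0Ω)).abs.pow n)).const_mul K) ?_
  filter_upwards [ae_restrict_of_ae_restrict_of_subset hK0Ω h.out] with x hx
  have hw := wt_pos hl y0 (f x)
  calc Φ (x, f x, g x) ≤ (‖fderiv ℝ Q (f x)‖ * ‖g x‖) ^ n :=
        pow_le_pow_left₀ (norm_nonneg _) (ContinuousLinearMap.opNorm_comp_le _ _) n
    _ = |Ψ' (lv lam y0 (f x))| ^ n * wt lam y0 (f x) * ‖g x‖ ^ n := by
        rw [mul_pow, norm_fderiv_comp_lv hn hl y0 hΨ hΨ0]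
    _ ≤ |Ψ' (lv lam y0 (f x))| ^ n * wt lam y0 (f x) * (K * jac (g x)) := by gcongr
    _ = _ := by rw [PP]; ring

lemma exists_dist_eq (hn : 1 ≤ n) (p : E n) {t : ℝ} (ht : 0 ≤ t) : ∃ x : E n, dist x p = t :=
  ⟨p + t • ev ⟨0, hn⟩, by
    rw [dist_eq_norm, add_sub_cancel_left, norm_smul, norm_ev, mul_one, Real.norm_of_nonneg ht]⟩

lemma QR.integrableOn_mass (h : QR Ω f g K KI) {y0 : E n} {lam : ℝ} (hl : 0 < lam)
    {S : Set (E n)} (hS : IsCompact S) (hSΩ : S ⊆ Ω) :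
    IntegrableOn (fun x => zd (lv lam y0 (f x)) * PP f g lam y0 x) S :=
  h.toSob.integrableOn_PP hS hSΩ hl y0
    (continuous_zd.comp_continuousOn (h.continuousOn_lv hl y0 hSΩ))

theorem QR.mass_pos (h : QR Ω f g K KI) (hn : 1 ≤ n) {y0 : E n} {lam : ℝ} (hl : 0 < lam)
    {c : E n} {ρ : ℝ} (hb : Bd Ω f y0 lam c ρ) {p q : E n} (hp : p ∈ ball c ρ)
    (hp' : p ∉ HH Ω f y0 (3 / 2 * lam)) (hq : q ∈ ball c ρ) (hq1 : q ∈ Ω)
    (hq2 : 5 * lam < ‖f q - y0‖) : 0 < mass f g lam y0 (KK Ω f y0 lam c ρ) := by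
  have hn0 : (0 : ℝ) < n := by exact_mod_cast hn
  have hρ : 0 < ρ := pos_of_mem_ball hp
  have n1 : ball c ρ ∩ (HH Ω f y0 (3 / 2 * lam))ᶜ ∈ 𝓝 p :=
    (isOpen_ball.inter (h.isClosed_HH _ _).isOpen_compl).mem_nhds ⟨hp, hp'⟩
  have n2 : ball c ρ ∩ HH Ω f y0 (5 * lam) ∈ 𝓝 q := by
    have h1 : ContinuousAt (fun x => ‖f x - y0‖) q :=
      ((h.cont.continuousAt (h.opn.mem_nhds hq1)).sub continuousAt_const).norm
    filter_upwards [isOpen_ball.mem_nhds hq, h.opn.mem_nhds hq1,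
      h1.eventually (lt_mem_nhds hq2)] with x h2 h3 h4
    exact ⟨h2, subset_closure h3, h4.le⟩
  obtain ⟨ε1, hε1, h1⟩ := Metric.mem_nhds_iff.1 n1
  obtain ⟨ε2, hε2, h2⟩ := Metric.mem_nhds_iff.1 n2
  set ε := min ε1 ε2 with hε
  have hε0 : 0 < ε := lt_min hε1 hε2
  have hσ : 0 < ε / (2 * ρ) := by positivity
  have e : ε / (2 * ρ) * ρ = ε / 2 := by field_simp
  have ha : 0 < zt (Real.log (5 * lam / (4 * lam))) :=
    zt_pos (Real.log_pos (by rw [one_lt_div (by positivity)]; linarith))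
  have key := h.loew hn hl (c1 := p) (c2 := q) (t1 := 0) (t2 := 0) hρ hσ.le hb hasDerivAt_zt
    continuous_zd (fun s => zt_zero) zt_mono (L := 5 * lam) (by linarith) ha le_rfl
    (fun t ht => by
      obtain ⟨x, hx⟩ := exists_dist_eq hn p ht.1
      have : x ∈ ball p ε1 := by
        rw [mem_ball, hx]; linarith [ht.2, min_le_left ε1 ε2]
      exact ⟨x, (h1 this).1, hx, (h1 this).2⟩)
    (fun t ht => by
      obtain ⟨x, hx⟩ := exists_dist_eq hn q ht.1
      have : x ∈ ball q ε2 := by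
        rw [mem_ball, hx]; linarith [ht.2, min_le_right ε1 ε2]
      exact ⟨x, (h2 this).1, hx, (h2 this).2⟩)
  obtain ⟨B, hB1, hB⟩ := zd_bdd
  have hK0c := h.isCompact_KK y0 lam c ρ
  have hK0Ω := h.KK_subset hl hb
  have h3 : ∫ x in KK Ω f y0 lam c ρ, |zd (lv lam y0 (f x))| ^ n * PP f g lam y0 x ≤
      B ^ (n - 1) * mass f g lam y0 (KK Ω f y0 lam c ρ) := by
    rw [mass, ← integral_const_mul]
    refine integral_mono_ae (h.toSob.integrableOn_PP hK0c hK0Ω hl y0
      ((continuous_zd.comp_continuousOn (h.continuousOn_lv hl y0 hK0Ω)).abs.pow n))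
      ((h.integrableOn_mass hl hK0c hK0Ω).const_mul _) ?_
    filter_upwards [h.PP_nonneg hl y0 hK0Ω] with x hx
    have h4 := zd_nonneg (lv lam y0 (f x))
    have e : zd (lv lam y0 (f x)) ^ n = zd (lv lam y0 (f x)) ^ (n - 1) * zd (lv lam y0 (f x)) := by
      rw [← pow_succ]; congr 1; omega
    rw [abs_of_nonneg h4, e, mul_assoc]
    gcongr
    exact hB _
  have h4 : 0 < (volume : Measure (E n)).real (ball 0 1) *
      ((zt (Real.log (5 * lam / (4 * lam))) / (16 * n)) ^ n * (ε / (2 * ρ)) / 20) := by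
    have := om0_pos (n := n)
    positivity
  have h5 := (h4.trans_le key).trans_le (mul_le_mul_of_nonneg_left h3 h.Kpos.le)
  have h6 := (mul_pos_iff_of_pos_left h.Kpos).1 h5
  exact (mul_pos_iff_of_pos_left (by positivity)).1 h6

theorem QR.maxp (h : QR Ω f g K KI) (hn : 2 ≤ n) {y0 : E n} {lam : ℝ} (hl : 0 < lam)
    {c : E n} {t : ℝ} (ht : 0 < t) (hb : Bd Ω f y0 lam c t)
    (hs : ∀ x ∈ Ω, dist x c = t → ‖f x - y0‖ ≤ lam) {q : E n} (hq : q ∈ closure Ω)
    (hq' : q ∈ closedBall c t) : ‖f q - y0‖ ≤ 5 * lam := by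
  have hn1 : 1 ≤ n := by omega
  by_contra hcon
  have hq2 : 5 * lam < ‖f q - y0‖ := not_le.1 hcon
  have hin : ∀ x ∈ closedBall c t, x ∈ closure Ω → lam < ‖f x - y0‖ → x ∈ Ω ∩ ball c t := by
    intro x h1 h2 h3
    have h4 := h.mem_of_lt hb h1 h2 h3
    refine ⟨h4, mem_ball.2 (lt_of_le_of_ne (mem_closedBall.1 h1) fun h5 => ?_)⟩
    linarith [hs x h4 h5]
  have hq3 := hin q hq' hq (by linarith)
  obtain ⟨s0, hs0⟩ := exists_dist_eq hn1 c ht.le
  have hs1 : s0 ∉ HH Ω f y0 (3 / 2 * lam) := by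
    intro h1
    have := (hin s0 hs0.le h1.1 (by linarith [h1.2])).2
    exact absurd hs0 (ne_of_lt this)
  have hs2 : s0 ∈ closure (ball c t) := by rw [closure_ball c ht.ne']; exact hs0.le
  obtain ⟨p, hp1, hp2⟩ := mem_closure_iff.1 hs2 _ (h.isClosed_HH _ _).isOpen_compl hs1
  have hpos := h.mass_pos hn1 hl hb hp2 hp1 hq3.2 hq3.1 hq2
  have hK0c := h.isCompact_KK y0 lam c t
  have hK0Ω := h.KK_subset hl hb
  have hle := h.fi_le hn hl y0 (h.opn.inter isOpen_ball) inter_subset_left hK0c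
    (fun x hx => hin x hx.1 hx.2.1 (KK_lt hl x hx)) (KK_lt hl) (Θ := fun p => zt p.2)
    (contDiff_zt1.comp contDiff_snd) (fun _ _ hs => zt_zero hs)
    (fun x hx hx' => Or.inl (by
      by_contra h1
      exact hx' ⟨ball_subset_closedBall hx.2, subset_closure hx.1, by linarith [not_lt.1 h1]⟩))
    (B := fun _ => 0) (h.integrableOn_mass (y0 := y0) hl hK0c hK0Ω) integrableOn_zero (fun x _ v _ _ => by
      have := ((hasDerivAt_zt (lv lam y0 (f x))).comp_hasFDerivAt (x, lv lam y0 (f x))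
        (hasFDerivAt_snd (𝕜 := ℝ))).fderiv
      simp only [Function.comp_def] at this
      rw [this]
      simp)
  rw [integral_zero] at hle
  exact absurd hpos (not_lt.2 hle)

end Pool.Agent.Lib.MP_010b1d_an
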