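import Pool.Agent.Lib.MP_010b1d_an.Approx

/-! The Piola identity in weak form. -/

set_option autoImplicit false

open MeasureTheory Set Filter Topology Function Metric

namespace Pool.Agent.Lib.MP_010b1d_an

variable {n : ℕ}

lemma antisym_sum (a : Fin n → E n) (w : E n) (H : Fin n → Fin n → E n)
    (hH : ∀ i j, H i j = H j i) (s : ℝ) :
    ∑ i, ∑ j, DD n (update (update a i w) j (update (H i) i (s • a i) j)) = s * n * DD n a := by
  set B : Fin n → Fin n → ℝ := fun i j =>
    if j = i then 0 else DD n (update (update a i w) j (H i j)) with hB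
  have h1 : ∀ i j, DD n (update (update a i w) j (update (H i) i (s • a i) j)) =
      (if j = i then s * DD n a else 0) + B i j := by
    intro i j
    by_cases hij : j = i
    · subst hij
      simp only [hB, if_true, update_self, update_idem, add_zero]
      rw [(DD n).map_update_smul, update_eq_self, smul_eq_mul]
    · simp only [hB, if_neg hij, update_of_ne hij, zero_add]
  have h2 : ∀ i j, B j i = - B i j := by
    intro i j
    by_cases hij : j = i
    · subst hij; simp [hB]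
    · simp only [hB, if_neg hij, if_neg (Ne.symm hij), DD_apply]
      rw [← (bas n).det.map_swap _ hij]
      congr 1
      funext k
      by_cases hk1 : k = i
      · subst hk1
        simp [hH j k]
      · by_cases hk2 : k = j
        · subst hk2
          simp [update_of_ne hij, update_of_ne (Ne.symm hij)]
        · simp [update_of_ne hk1, update_of_ne hk2, Equiv.swap_apply_of_ne_of_ne hk2 hk1]
  have h3 : ∑ i, ∑ j, B i j = 0 := by
    have : ∑ i, ∑ j, B i j = - ∑ i, ∑ j, B i j := by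
      conv_lhs => rw [Finset.sum_comm]
      rw [← Finset.sum_neg_distrib]
      refine Finset.sum_congr rfl fun i _ => ?_
      rw [← Finset.sum_neg_distrib]
      exact Finset.sum_congr rfl fun j _ => h2 i j
    linarith
  simp only [h1, Finset.sum_add_distrib, h3, add_zero]
  simp
  ring

lemma contDiff_cofc {f : E n → E n} (hf : ContDiff ℝ 2 f) (s : ℝ) (h : E n) (i : Fin n) :
    ContDiff ℝ 1 fun x => DD n (update (cols (fderiv ℝ f x)) i (s • f x + h)) := by
  refine (DD n).contDiff.comp (contDiff_pi.2 fun j => ?_)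
  by_cases hj : j = i
  · subst hj
    simp only [update_self]
    exact ((hf.of_le one_le_two).const_smul s).add contDiff_const
  · simp only [update_of_ne hj, cols]
    exact (hf.fderiv_right (m := 1) (by norm_num)).clm_apply contDiff_const

lemma piola {f : E n → E n} (hf : ContDiff ℝ 2 f) (s : ℝ) (h : E n) (x : E n) :
    ∑ i, fderiv ℝ (fun x => DD n (update (cols (fderiv ℝ f x)) i (s • f x + h))) x (ev i) =
      s * n * jac (fderiv ℝ f x) := by
  have hd1 : HasFDerivAt f (fderiv ℝ f x) x := (hf.differentiable two_ne_zero x).hasFDerivAt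
  have hd2 : HasFDerivAt (fderiv ℝ f) (fderiv ℝ (fderiv ℝ f) x) x :=
    ((hf.fderiv_right (m := 1) (by norm_num)).differentiable one_ne_zero x).hasFDerivAt
  have hsym := (hf.contDiffAt (x := x)).isSymmSndFDerivAt (by simp)
  rw [← DD_cols, ← antisym_sum (cols (fderiv ℝ f x)) (s • f x + h)
    (fun i j => fderiv ℝ (fderiv ℝ f) x (ev i) (ev j)) (fun i j => hsym _ _) s]
  refine Finset.sum_congr rfl fun i _ => ?_
  have hV : HasFDerivAt (fun x => update (cols (fderiv ℝ f x)) i (s • f x + h))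
      (ContinuousLinearMap.pi (update (fun j => (fderiv ℝ (fderiv ℝ f) x).flip (ev j)) i
        (s • fderiv ℝ f x))) x := by
    refine hasFDerivAt_pi.2 fun j => ?_
    by_cases hj : j = i
    · subst hj
      simp only [update_self]
      exact (hd1.const_smul s).add_const h
    · simp only [update_of_ne hj, cols]
      have := hd2.clm_apply (hasFDerivAt_const (ev j) x)
      simpa using this
  have := (((DD n).hasFDerivAt _).comp x hV).fderiv
  simp only [Function.comp_def] at this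
  rw [this, ContinuousLinearMap.comp_apply, ContinuousMultilinearMap.linearDeriv_apply]
  refine Finset.sum_congr rfl fun j _ => ?_
  congr 2
  by_cases hj : j = i
  · subst hj
    simp [cols]
  · simp [update_of_ne hj]

/-- The integrand of the fundamental identity. -/
noncomputable def fiTerm (θ : E n × E n → ℝ) (s : ℝ) (h : E n)
    (p : E n × E n × (E n →L[ℝ] E n)) : ℝ :=
  fderiv ℝ θ (p.1, p.2.1) (cof p.2.2 (s • p.2.1 + h), jac p.2.2 • (s • p.2.1 + h)) +
    s * n * θ (p.1, p.2.1) * jac p.2.2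

/-- The fundamental identity. -/
def FI (Ω : Set (E n)) (f : E n → E n) (g : E n → E n →L[ℝ] E n) : Prop :=
  ∀ K : Set (E n), IsCompact K → K ⊆ Ω → ∀ θ : E n × E n → ℝ, ContDiff ℝ 1 θ →
    (∀ x, x ∉ K → ∀ y, θ (x, y) = 0) → ∀ (s : ℝ) (h : E n),
      ∫ x in K, fiTerm θ s h (x, f x, g x) = 0

lemma fiTerm_congr {θ θ' : E n × E n → ℝ} (s : ℝ) (h : E n) {x y : E n} (A : E n →L[ℝ] E n)
    (e : θ =ᶠ[𝓝 (x, y)] θ') : fiTerm θ s h (x, y, A) = fiTerm θ' s h (x, y, A) := by
  simp only [fiTerm]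
  rw [e.fderiv_eq, e.self_of_nhds]

lemma fiTerm_zero (s : ℝ) (h : E n) (p : E n × E n × (E n →L[ℝ] E n)) :
    fiTerm (fun _ => 0) s h p = 0 := by
  simp [fiTerm]

lemma FI_smooth {f : E n → E n} (hf : ContDiff ℝ 2 f) (Ω : Set (E n)) :
    FI Ω f (fderiv ℝ f) := by
  intro K hK _ θ hθ hθ0 s h
  have hf1 : ContDiff ℝ 1 f := hf.of_le one_le_two
  set t : E n → ℝ := fun x => θ (x, f x) with ht
  have htc : ContDiff ℝ 1 t := hθ.comp (contDiff_id.prodMk hf1)
  have hts : HasCompactSupport t := HasCompactSupport.intro hK fun x hx => hθ0 x hx _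
  set Y : Fin n → E n → ℝ := fun i x =>
    DD n (update (cols (fderiv ℝ f x)) i (s • f x + h)) with hY
  have hYc : ∀ i, ContDiff ℝ 1 (Y i) := fun i => contDiff_cofc hf s h i
  have c1 : ∀ i, Continuous fun x => fderiv ℝ t x (ev i) := fun i =>
    (htc.continuous_fderiv one_ne_zero).clm_apply continuous_const
  have c2 : ∀ i, Continuous fun x => fderiv ℝ (Y i) x (ev i) := fun i =>
    ((hYc i).continuous_fderiv one_ne_zero).clm_apply continuous_const
  have i1 : ∀ i, Integrable fun x => fderiv ℝ t x (ev i) * Y i x := fun i =>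
    ((c1 i).mul (hYc i).continuous).integrable_of_hasCompactSupport
      (hts.fderiv_apply ℝ (ev i)).mul_right
  have i2 : ∀ i, Integrable fun x => t x * fderiv ℝ (Y i) x (ev i) := fun i =>
    (htc.continuous.mul (c2 i)).integrable_of_hasCompactSupport hts.mul_right
  have i3 : ∀ i, Integrable fun x => t x * Y i x := fun i =>
    (htc.continuous.mul (hYc i).continuous).integrable_of_hasCompactSupport hts.mul_right
  have ibp : ∀ i, ∫ x, (fderiv ℝ t x (ev i) * Y i x + t x * fderiv ℝ (Y i) x (ev i)) = 0 := by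
    intro i
    rw [integral_add (i1 i) (i2 i),
      integral_mul_fderiv_eq_neg_fderiv_mul_of_integrable (i1 i) (i2 i) (i3 i)
        (fun x _ => htc.differentiable one_ne_zero x)
        (fun x _ => (hYc i).differentiable one_ne_zero x)]
    ring
  have key : ∀ x, fiTerm θ s h (x, f x, fderiv ℝ f x) =
      ∑ i, (fderiv ℝ t x (ev i) * Y i x + t x * fderiv ℝ (Y i) x (ev i)) := by
    intro x
    have hd : HasFDerivAt t ((fderiv ℝ θ (x, f x)).comp
        ((ContinuousLinearMap.id ℝ (E n)).prod (fderiv ℝ f x))) x :=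
      (hθ.differentiable one_ne_zero _).hasFDerivAt.comp x
        ((hasFDerivAt_id x).prodMk (hf1.differentiable one_ne_zero x).hasFDerivAt)
    rw [Finset.sum_add_distrib, ← Finset.mul_sum, piola hf s h x]
    have e1 : ∑ i, fderiv ℝ t x (ev i) * Y i x =
        fderiv ℝ t x (cof (fderiv ℝ f x) (s • f x + h)) := by
      rw [cof, map_sum]
      refine Finset.sum_congr rfl fun i _ => ?_
      rw [map_smul, smul_eq_mul, mul_comm]
    rw [e1, hd.fderiv]
    simp only [fiTerm, ContinuousLinearMap.comp_apply, ContinuousLinearMap.prod_apply,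
      ContinuousLinearMap.id_apply, apply_cof, ht]
    ring
  rw [setIntegral_eq_integral_of_forall_compl_eq_zero]
  · simp only [key]
    have i4 : ∀ i, Integrable fun x =>
        fderiv ℝ t x (ev i) * Y i x + t x * fderiv ℝ (Y i) x (ev i) := fun i => (i1 i).add (i2 i)
    rw [integral_finsetSum _ fun i _ => i4 i]
    simp [ibp]
  · intro x hx
    have e : θ =ᶠ[𝓝 (x, f x)] fun _ => 0 := by
      have : (Kᶜ ×ˢ univ : Set (E n × E n)) ∈ 𝓝 (x, f x) :=
        (hK.isClosed.isOpen_compl.prod isOpen_univ).mem_nhds ⟨hx, trivial⟩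
      filter_upwards [this] with p hp using hθ0 p.1 hp.1 p.2
    rw [fiTerm_congr s h _ e, fiTerm_zero]

lemma continuous_fiTerm {θ : E n × E n → ℝ} (hθ : ContDiff ℝ 1 θ) (s : ℝ) (h : E n) :
    Continuous (fiTerm θ s h) := by
  unfold fiTerm
  have c0 : Continuous fun p : E n × E n × (E n →L[ℝ] E n) => (p.1, p.2.1) := by fun_prop
  have c1 : Continuous fun p : E n × E n × (E n →L[ℝ] E n) => s • p.2.1 + h := by fun_prop
  have c2 : Continuous fun p : E n × E n × (E n →L[ℝ] E n) => jac p.2.2 :=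
    continuous_jac.comp (by fun_prop)
  have c3 : Continuous fun p : E n × E n × (E n →L[ℝ] E n) => cof p.2.2 (s • p.2.1 + h) :=
    continuous_cof' (by fun_prop) c1
  exact (((hθ.continuous_fderiv one_ne_zero).comp c0).clm_apply (c3.prodMk (c2.smul c1))).add
    ((continuous_const.mul (hθ.continuous.comp c0)).mul c2)

lemma fiTerm_growth {θ : E n × E n → ℝ} (hθ : ContDiff ℝ 1 θ) (s : ℝ) (h : E n)
    {K : Set (E n)} (hK : IsCompact K) (R : ℝ) :
    ∃ C : ℝ, ∀ x ∈ K, ∀ y : E n, ‖y‖ ≤ R → ∀ A : E n →L[ℝ] E n,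
      |fiTerm θ s h (x, y, A)| ≤ C * (1 + ‖A‖ ^ n) := by
  have hc : IsCompact (K ×ˢ closedBall (0 : E n) R) := hK.prod (isCompact_closedBall _ _)
  obtain ⟨C1, hC1⟩ := hc.exists_bound_of_continuousOn
    (hθ.continuous_fderiv one_ne_zero).continuousOn
  obtain ⟨C2, hC2⟩ := hc.exists_bound_of_continuousOn hθ.continuous.continuousOn
  set W := |s| * R + ‖h‖ with hW
  refine ⟨C1 * ((n * ‖DD n‖ + ‖DD n‖) * W) + |s| * n * C2 * ‖DD n‖, fun x hx y hy A => ?_⟩
  have hm : (x, y) ∈ K ×ˢ closedBall (0 : E n) R := ⟨hx, mem_closedBall_zero_iff.2 hy⟩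
  have h1 := hC1 _ hm
  have h2 := hC2 _ hm
  have hC10 : 0 ≤ C1 := (norm_nonneg _).trans h1
  have hC20 : 0 ≤ C2 := (norm_nonneg _).trans h2
  have hw : ‖s • y + h‖ ≤ W := by
    refine (norm_add_le _ _).trans ?_
    rw [norm_smul, Real.norm_eq_abs, hW]
    gcongr
  have hW0 : 0 ≤ W := (norm_nonneg _).trans hw
  have hA0 : 0 ≤ ‖A‖ ^ n := by positivity
  have h3 : ‖cof A (s • y + h)‖ ≤ n * ‖DD n‖ * W * (1 + ‖A‖ ^ n) := by
    refine (norm_cof_le _ _).trans ?_
    rw [mul_assoc (n * ‖DD n‖)]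
    gcongr
    exact pow_pred_le _ (norm_nonneg _) n
  have h4 : |jac A| ≤ ‖DD n‖ * (1 + ‖A‖ ^ n) := by
    refine (abs_jac_le A).trans ?_
    gcongr
    linarith
  have h5 : ‖jac A • (s • y + h)‖ ≤ ‖DD n‖ * W * (1 + ‖A‖ ^ n) := by
    rw [norm_smul, Real.norm_eq_abs]
    calc _ ≤ ‖DD n‖ * (1 + ‖A‖ ^ n) * W := by gcongr
      _ = _ := by ring
  have h6 : ‖(cof A (s • y + h), jac A • (s • y + h))‖ ≤
      (n * ‖DD n‖ + ‖DD n‖) * W * (1 + ‖A‖ ^ n) := by
    rw [Prod.norm_def]
    have := norm_nonneg (cof A (s • y + h))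
    have := norm_nonneg (jac A • (s • y + h))
    refine max_le ?_ ?_ <;> nlinarith
  simp only [fiTerm]
  refine (abs_add_le _ _).trans ?_
  rw [add_mul]
  refine add_le_add ?_ ?_
  · refine ((fderiv ℝ θ (x, y)).le_opNorm _).trans ?_
    rw [mul_assoc C1]
    gcongr
  · rw [abs_mul, abs_mul, abs_mul, Nat.abs_cast, mul_assoc (|s| * n * C2)]
    gcongr
    exact h2

lemma Sob.fi {Ω : Set (E n)} {f : E n → E n} {g : E n → E n →L[ℝ] E n}
    (hS : Sob Ω f g) (hn : 1 ≤ n) : FI Ω f g := by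
  intro K hK hKΩ θ hθ hθ0 s h
  obtain ⟨fk, h1, -, h3⟩ := hS.approx hn hK hKΩ
  have h4 := (h3 K hK.measurableSet Subset.rfl _ (continuous_fiTerm hθ s h)
    (fiTerm_growth hθ s h hK)).2
  simp only [fun k => FI_smooth (h1 k) Ω K hK hKΩ θ hθ hθ0 s h] at h4
  exact tendsto_nhds_unique h4 tendsto_const_nhds ▸ rfl

lemma exists_cutoff {K U : Set (E n)} (hK : IsCompact K) (hU : IsOpen U) (hKU : K ⊆ U) :
    ∃ K2 : Set (E n), IsCompact K2 ∧ K ⊆ K2 ∧ K2 ⊆ U ∧ ∃ κ : E n → ℝ, ContDiff ℝ 1 κ ∧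
      (∀ x ∈ K, κ =ᶠ[𝓝 x] fun _ => 1) ∧ (∀ x, x ∉ K2 → κ =ᶠ[𝓝 x] fun _ => 0) := by
  obtain ⟨δ, hδ, hδU⟩ := hK.exists_cthickening_subset_open hU hKU
  obtain ⟨κ, h1, h2, -⟩ := exists_contMDiffMap_one_nhds_of_subset_interior
    (modelWithCornersSelf ℝ (E n)) (n := 1) (t := cthickening δ K) hK.isClosed
    ((self_subset_thickening hδ K).trans
      (interior_maximal (thickening_subset_cthickening δ K) isOpen_thickening))
  refine ⟨cthickening δ K, hK.cthickening, self_subset_cthickening K, hδU, κ,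
    κ.contMDiff.contDiff, fun x hx => h1.filter_mono (nhds_le_nhdsSet hx), fun x hx => ?_⟩
  filter_upwards [isClosed_cthickening.isOpen_compl.mem_nhds hx] with y hy using h2 y hy

lemma FI.local {Ω : Set (E n)} {f : E n → E n} {g : E n → E n →L[ℝ] E n} (hF : FI Ω f g)
    {U K : Set (E n)} (hU : IsOpen U) (hUΩ : U ⊆ Ω) (hK : IsCompact K) (hKU : K ⊆ U)
    {θ : E n × E n → ℝ} (hθ : ContDiff ℝ 1 θ)
    (h0 : ∀ x ∈ U, x ∉ K → θ =ᶠ[𝓝 (x, f x)] fun _ => 0) (s : ℝ) (h : E n) :
    ∫ x in K, fiTerm θ s h (x, f x, g x) = 0 := by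
  obtain ⟨K2, hK2, hKK2, hK2U, κ, hκ, hκ1, hκ0⟩ := exists_cutoff hK hU hKU
  have := hF K2 hK2 (hK2U.trans hUΩ) (fun p => κ p.1 * θ p)
    ((hκ.comp contDiff_fst).mul hθ) (fun x hx y => by simp [(hκ0 x hx).self_of_nhds]) s h
  rw [setIntegral_eq_of_subset_of_forall_sdiff_eq_zero hK2.measurableSet hKK2] at this
  · rw [← this]
    refine setIntegral_congr_fun hK.measurableSet fun x hx => fiTerm_congr s h _ ?_
    have h1 : (fun p : E n × E n => κ p.1) =ᶠ[𝓝 (x, f x)] fun _ => 1 :=
      (continuous_fst.tendsto (x, f x)).eventually (hκ1 x hx)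
    filter_upwards [h1] with p hp
    simp [hp]
  · intro x hx
    rw [← fiTerm_zero s h (x, f x, g x)]
    refine fiTerm_congr s h _ ?_
    filter_upwards [h0 x (hK2U hx.1) hx.2] with p hp
    simp [hp]

end Pool.Agent.Lib.MP_010b1d_an
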