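import Mathlib

/-! Textbook definitions for quasiregular maps. -/

set_option autoImplicit false

open MeasureTheory
open scoped ContDiff

namespace Pool.Agent.Lib.MP_010b1d_an.Hedge

/-- Euclidean space. -/
abbrev Rn (n : ℕ) : Type := EuclideanSpace ℝ (Fin n)

/-- Linear maps of Euclidean space with the operator norm. -/
abbrev Ln (n : ℕ) : Type := Rn n →L[ℝ] Rn n

/-- `g` is locally in `L^n`. -/
def LocLn {n : ℕ} (Ω : Set (Rn n)) (g : Rn n → Ln n) : Prop :=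
  ∀ C, IsCompact C → C ⊆ Ω → MemLp g n (volume.restrict C)

/-- Smooth test functions in `Ω`. -/
def Test {n : ℕ} (Ω : Set (Rn n)) (φ : Rn n → ℝ) : Prop :=
  ContDiff ℝ ∞ φ ∧ HasCompactSupport φ ∧ tsupport φ ⊆ Ω

/-- `g` is a weak derivative of `f` in `Ω`. -/
def WeakDeriv {n : ℕ} (Ω : Set (Rn n)) (f : Rn n → Rn n) (g : Rn n → Ln n) : Prop :=
  ∀ φ, Test Ω φ → ∀ v, ∫ x in Ω, fderiv ℝ φ x v • f x = - ∫ x in Ω, φ x • g x v

/-- The minimal stretching of a linear map. -/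
noncomputable def ell {n : ℕ} (A : Ln n) : ℝ :=
  sInf ((fun h => ‖A h‖) '' Metric.sphere 0 1)

/-- The outer dilatation inequality. -/
def Outer {n : ℕ} (Ω : Set (Rn n)) (g : Rn n → Ln n) (K : ℝ) : Prop :=
  ∀ᵐ x ∂(volume.restrict Ω), ‖g x‖ ^ n ≤ K * (g x).det

/-- The inner dilatation inequality. -/
def Inner {n : ℕ} (Ω : Set (Rn n)) (g : Rn n → Ln n) (K : ℝ) : Prop :=
  ∀ᵐ x ∂(volume.restrict Ω), (g x).det ≤ K * ell (g x) ^ n

/-- The Hoelder inequality on a set. -/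
def Hoelder {n : ℕ} (S : Set (Rn n)) (f : Rn n → Rn n) (M δ : ℝ) : Prop :=
  ∀ x ∈ S, ∀ y ∈ S, ‖f x - f y‖ ≤ M * ‖x - y‖ ^ δ

end Pool.Agent.Lib.MP_010b1d_an.Hedge
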