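import Pool.Agent.Lib.MP_010b1d_an.QDefs
import Pool.Agent.Lib.MP_010b1d_an.Basic

/-! From smooth test functions to once differentiable ones; the inner dilatation exists. -/

set_option autoImplicit false

open MeasureTheory Set Filter Topology Function Metric
open scoped Convolution ContDiff Pointwise

namespace Pool.Agent.Lib.MP_010b1d_an.Hedge

variable {n : ℕ}

/-- Both conditions on the weak derivative. -/
def WeakDerivLn (Ω : Set (E n)) (f : E n → E n) (g : E n → E n →L[ℝ] E n) : Prop :=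
  LocLn Ω g ∧ WeakDeriv Ω f g

lemma conv_supp {K : Set (E n)} {δ : ℝ} (ψ : ContDiffBump (0 : E n)) (hψ : ψ.rOut ≤ δ)
    {u : E n → ℝ} (hu : support u ⊆ K) :
    support (ψ.normed volume ⋆[ContinuousLinearMap.lsmul ℝ ℝ, volume] u) ⊆ cthickening δ K := by
  refine (support_convolution_subset _).trans ?_
  rintro _ ⟨a, ha, b, hb, rfl⟩
  rw [ψ.support_normed_eq, mem_ball_zero_iff] at ha
  refine closedBall_subset_cthickening (hu hb) δ ?_
  rw [mem_closedBall, dist_eq_norm]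
  simpa using ha.le.trans hψ

lemma conv_lim {Ω K : Set (E n)} (hΩ : IsOpen Ω) (hK : IsCompact K) {δ : ℝ}
    (hδ : cthickening δ K ⊆ Ω) (ψ : ℕ → ContDiffBump (0 : E n)) (h1 : ∀ k, (ψ k).rOut ≤ δ)
    (h2 : Tendsto (fun k => (ψ k).rOut) atTop (𝓝 0)) {u : E n → ℝ} (hu : Continuous u)
    (hs : support u ⊆ K) {F : E n → E n} (hF : IntegrableOn F (cthickening δ K)) :
    Tendsto (fun k => ∫ x in Ω,
        ((ψ k).normed volume ⋆[ContinuousLinearMap.lsmul ℝ ℝ, volume] u) x • F x) atTop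
      (𝓝 (∫ x in Ω, u x • F x)) := by
  set K' := cthickening δ K with hK'
  have hK'c : IsCompact K' := hK.cthickening
  have hcs : HasCompactSupport u := HasCompactSupport.intro hK fun x hx => by
    by_contra h; exact hx (hs h)
  obtain ⟨C, hC⟩ := hcs.exists_bound_of_continuous hu
  have key : ∀ w : E n → ℝ, support w ⊆ K' → ∫ x in Ω, w x • F x = ∫ x in K', w x • F x := by
    intro w hw
    refine setIntegral_eq_of_subset_of_forall_sdiff_eq_zero hΩ.measurableSet hδ fun x hx => ?_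
    have : w x = 0 := by
      by_contra h; exact hx.2 (hw h)
    rw [this, zero_smul]
  rw [key u (hs.trans (self_subset_cthickening K))]
  simp only [fun k => key _ (conv_supp (ψ k) (h1 k) hs)]
  have hc : ∀ k, Continuous ((ψ k).normed volume ⋆[ContinuousLinearMap.lsmul ℝ ℝ, volume] u) :=
    fun k => ((ψ k).hasCompactSupport_normed.contDiff_convolution_left _ (n := 0)
      (ψ k).contDiff_normed hu.locallyIntegrable).continuous
  refine tendsto_integral_of_dominated_convergence (fun x => 3 * C * ‖F x‖)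
    (fun k => (hc k).aestronglyMeasurable.smul hF.aestronglyMeasurable) (hF.norm.const_mul _)
    (fun k => Eventually.of_forall fun x => ?_) (Eventually.of_forall fun x => ?_)
  · rw [norm_smul]
    refine mul_le_mul_of_nonneg_right ?_ (norm_nonneg _)
    have h3 := (ψ k).dist_normed_convolution_le (μ := volume) (x₀ := x) (ε := 2 * C)
      hu.aestronglyMeasurable fun y _ => by
        linarith [dist_le_norm_add_norm (u y) (u x), hC x, hC y]
    rw [dist_eq_norm] at h3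
    have h4 := norm_sub_norm_le
      (((ψ k).normed volume ⋆[ContinuousLinearMap.lsmul ℝ ℝ, volume] u : E n → ℝ) x) (u x)
    linarith [hC x]
  · exact (ContDiffBump.convolution_tendsto_right_of_continuous h2 hu x).smul_const _

lemma WeakDerivLn.integrableOn {Ω : Set (E n)} {f : E n → E n} {g : E n → E n →L[ℝ] E n}
    (h : WeakDerivLn Ω f g) (hn : 1 ≤ n) {C : Set (E n)} (hC : IsCompact C) (hCΩ : C ⊆ Ω) :
    IntegrableOn g C := by
  have : IsFiniteMeasure (volume.restrict C) := isFiniteMeasure_restrict.2 hC.measure_lt_top.ne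
  exact (h.1 C hC hCΩ).integrable (by exact_mod_cast hn)

lemma WeakDerivLn.meas {Ω : Set (E n)} {f : E n → E n} {g : E n → E n →L[ℝ] E n}
    (h : WeakDerivLn Ω f g) (hn : 1 ≤ n) (hΩ : IsOpen Ω) :
    AEStronglyMeasurable g (volume.restrict Ω) :=
  ((locallyIntegrableOn_iff hΩ.isLocallyClosed).2 fun _ h1 h2 =>
    h.integrableOn hn h2 h1).aestronglyMeasurable

lemma WeakDerivLn.pow {Ω : Set (E n)} {f : E n → E n} {g : E n → E n →L[ℝ] E n}
    (h : WeakDerivLn Ω f g) (hn : 1 ≤ n) {C : Set (E n)} (hC : IsCompact C) (hCΩ : C ⊆ Ω) :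
    IntegrableOn (fun x => ‖g x‖ ^ n) C :=
  (h.1 C hC hCΩ).integrable_norm_pow (by omega)

lemma WeakDerivLn.weak1 {Ω : Set (E n)} {f : E n → E n} {g : E n → E n →L[ℝ] E n}
    (h : WeakDerivLn Ω f g) (hn : 1 ≤ n) (hΩ : IsOpen Ω) (hf : ContinuousOn f Ω)
    (φ : E n → ℝ) (hφ : ContDiff ℝ 1 φ) (hs : HasCompactSupport φ) (hφΩ : tsupport φ ⊆ Ω)
    (v : E n) : ∫ x in Ω, fderiv ℝ φ x v • f x = - ∫ x in Ω, φ x • g x v := by
  have hK : IsCompact (tsupport φ) := hs
  obtain ⟨δ, hδ, hδΩ⟩ := hK.exists_cthickening_subset_open hΩ hφΩ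
  have hK' : IsCompact (cthickening δ (tsupport φ)) := hK.cthickening
  let ψ : ℕ → ContDiffBump (0 : E n) := fun k =>
    ⟨δ / (k + 1) / 2, δ / (k + 1), by positivity, half_lt_self (by positivity)⟩
  have h1 : ∀ k, (ψ k).rOut ≤ δ := fun k =>
    div_le_self hδ.le (by linarith [(Nat.cast_nonneg k : (0 : ℝ) ≤ k)])
  have h2 : Tendsto (fun k => (ψ k).rOut) atTop (𝓝 0) := by
    have := tendsto_one_div_add_atTop_nhds_zero_nat (𝕜 := ℝ) |>.const_mul δ
    simpa [ψ, div_eq_mul_inv] using this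
  have hd : Continuous (fderiv ℝ φ) := hφ.continuous_fderiv one_ne_zero
  have hA := conv_lim hΩ hK hδΩ ψ h1 h2 (u := fun x => fderiv ℝ φ x v)
    (hd.clm_apply continuous_const) (fun x hx => by
      by_contra h0
      exact hx (by simp [fderiv_of_notMem_tsupport ℝ h0]))
    ((hf.mono hδΩ).integrableOn_compact hK')
  have hB := conv_lim hΩ hK hδΩ ψ h1 h2 (u := φ) hφ.continuous (subset_tsupport φ)
    (F := fun x => g x v) ((h.integrableOn hn hK' hδΩ).apply_continuousLinearMap v)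
  refine tendsto_nhds_unique hA (hB.neg.congr fun k => ?_)
  have hsm : ContDiff ℝ ∞ ((ψ k).normed volume ⋆[ContinuousLinearMap.lsmul ℝ ℝ, volume] φ) :=
    (ψ k).hasCompactSupport_normed.contDiff_convolution_left _ (n := ⊤)
      (ψ k).contDiff_normed hφ.continuous.locallyIntegrable
  have ht : tsupport ((ψ k).normed volume ⋆[ContinuousLinearMap.lsmul ℝ ℝ, volume] φ) ⊆
      cthickening δ (tsupport φ) :=
    closure_minimal (conv_supp (ψ k) (h1 k) (subset_tsupport φ)) isClosed_cthickening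
  rw [← h.2 _ ⟨hsm, hK'.of_isClosed_subset (isClosed_tsupport _) ht, ht.trans hδΩ⟩ v]
  refine integral_congr_ae (Eventually.of_forall fun x => ?_)
  have hl : LocallyIntegrable ((ψ k).normed volume) volume :=
    (ψ k).continuous_normed.locallyIntegrable
  simp only
  rw [(hs.hasFDerivAt_convolution_right (ContinuousLinearMap.lsmul ℝ ℝ) hl hφ x).fderiv,
    convolution_precompR_apply _ hl (hs.fderiv ℝ) hd]

lemma ell_spec (hn : 1 ≤ n) (A : E n →L[ℝ] E n) :
    (∃ h : E n, ‖h‖ = 1 ∧ ell A = ‖A h‖) ∧ ∀ h : E n, ‖h‖ = 1 → ell A ≤ ‖A h‖ := by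
  have hne : (sphere (0 : E n) 1).Nonempty := ⟨ev ⟨0, hn⟩, by simp [norm_ev]⟩
  have hc : IsCompact ((fun h => ‖A h‖) '' sphere (0 : E n) 1) :=
    (isCompact_sphere 0 1).image (by fun_prop)
  refine ⟨?_, fun h hh => csInf_le hc.bddBelow ⟨h, by simpa using hh, rfl⟩⟩
  obtain ⟨h, hh, e⟩ := hc.sInf_mem (hne.image _)
  exact ⟨h, by simpa using hh, e.symm⟩

lemma ell_iff (hn : 1 ≤ n) (A : E n →L[ℝ] E n) {K : ℝ} (hK : 0 ≤ K) (J : ℝ) :
    J ≤ K * ell A ^ n ↔ ∀ h : E n, ‖h‖ = 1 → J ≤ K * ‖A h‖ ^ n := by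
  obtain ⟨⟨h0, h1, h2⟩, h3⟩ := ell_spec hn A
  refine ⟨fun hJ h hh => hJ.trans ?_, fun hJ => h2 ▸ hJ h0 h1⟩
  exact mul_le_mul_of_nonneg_left
    (pow_le_pow_left₀ (h2 ▸ norm_nonneg _) (h3 h hh) n) hK

lemma inner_bd (hn : 1 ≤ n) {K : ℝ} (hK : 0 ≤ K) (A : E n →L[ℝ] E n)
    (h1 : ‖A‖ ^ n ≤ K * jac A) (h : E n) (hh : ‖h‖ = 1) :
    jac A ≤ ((n * ‖DD n‖) ^ n * K ^ (n - 1) + 1) * ‖A h‖ ^ n := by
  rcases le_or_gt (jac A) 0 with h0 | hpos
  · exact h0.trans (by positivity)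
  have hinj : Injective A := by
    have : IsUnit (A : E n →ₗ[ℝ] E n) := (LinearMap.isUnit_iff_isUnit_det _).2 hpos.ne'.isUnit
    exact LinearMap.ker_eq_bot.1 ((LinearMap.isUnit_iff_ker_eq_bot _).1 this)
  have h2 : cof A (A h) = jac A • h := hinj (by rw [apply_cof, map_smul])
  have h3 := norm_cof_le A (A h)
  rw [h2, norm_smul, hh, mul_one, Real.norm_eq_abs, abs_of_pos hpos] at h3
  have h4 := pow_le_pow_left₀ hpos.le h3 n
  have h5 : (‖A‖ ^ (n - 1)) ^ n ≤ K ^ (n - 1) * jac A ^ (n - 1) := by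
    rw [← pow_mul, mul_comm, pow_mul, ← mul_pow]
    exact pow_le_pow_left₀ (by positivity) h1 _
  have h6 : jac A ^ n = jac A * jac A ^ (n - 1) := by
    rw [← pow_succ']; congr 1; omega
  have h7 : jac A * jac A ^ (n - 1) ≤
      ((n * ‖DD n‖) ^ n * K ^ (n - 1) * ‖A h‖ ^ n) * jac A ^ (n - 1) := by
    rw [← h6]
    refine h4.trans ?_
    rw [mul_pow, mul_pow ‖A h‖]
    calc _ ≤ (n * ‖DD n‖) ^ n * (‖A h‖ ^ n * (K ^ (n - 1) * jac A ^ (n - 1))) := by gcongr
      _ = _ := by ring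
  have h8 := le_of_mul_le_mul_right h7 (pow_pos hpos _)
  have : 0 ≤ ‖A h‖ ^ n := by positivity
  linarith

end Pool.Agent.Lib.MP_010b1d_an.Hedge
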