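import Pool.Agent.Lib.MP_010b1d_an.Mass

/-! The sharp growth estimate and a weak Harnack inequality. -/

set_option autoImplicit false

open MeasureTheory Set Filter Topology Function Metric

namespace Pool.Agent.Lib.MP_010b1d_an

variable {n : ℕ} {Ω : Set (E n)} {f : E n → E n} {g : E n → E n →L[ℝ] E n} {K KI : ℝ}

lemma sharp_alg (hn : 2 ≤ n) {k KI m T w : ℝ} (hk : 0 ≤ k) (hm : 0 ≤ m) (hT : 2 ≤ T) (hw : 0 < w)
    (H : (m + 1) / (n - 1) * (k * w) ≤ ((n - 1 : ℝ) ^ (n - 1) / (n : ℝ) ^ n) * KI *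
      (n * (m + 1) / ((n - 1) * (T - 1))) ^ n * (w * T)) :
    k * (T - 2) ^ (n - 1) ≤ KI * (m + 1) ^ (n - 1) := by
  obtain ⟨j, rfl⟩ : ∃ j, n = j + 2 := ⟨n - 2, by omega⟩
  have e0 : ((j + 2 : ℕ) : ℝ) - 1 = j + 1 := by push_cast; ring
  have e1 : j + 2 - 1 = j + 1 := by omega
  rw [e0, e1] at H
  rw [e1]
  have hT1 : 0 < T - 1 := by linarith
  have e2 : ((j + 1 : ℝ) ^ (j + 1) / ((j + 2 : ℕ) : ℝ) ^ (j + 2)) * KI *
      (((j + 2 : ℕ) : ℝ) * (m + 1) / ((j + 1) * (T - 1))) ^ (j + 2) * (w * T) =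
      (m + 1) / (j + 1) * w * (KI * (m + 1) ^ (j + 1) * T / (T - 1) ^ (j + 2)) := by
    rw [div_pow, mul_pow, mul_pow]
    field_simp
    ring
  rw [e2, show (m + 1) / (j + 1) * (k * w) = (m + 1) / (j + 1) * w * k by ring] at H
  have H2 := le_of_mul_le_mul_left H (by positivity)
  rw [le_div_iff₀ (by positivity)] at H2
  have h3 : (T - 2) ^ (j + 1) * T ≤ (T - 1) ^ (j + 2) := by
    have h4 : (T - 2) ^ j ≤ (T - 1) ^ j := pow_le_pow_left₀ (by linarith) (by linarith) j
    have h5 : (T - 2) * T ≤ (T - 1) ^ 2 := by nlinarith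
    calc (T - 2) ^ (j + 1) * T = (T - 2) ^ j * ((T - 2) * T) := by ring
      _ ≤ (T - 1) ^ j * (T - 1) ^ 2 :=
          mul_le_mul h4 h5 (mul_nonneg (by linarith) (by linarith)) (by positivity)
      _ = _ := by ring
  have h6 : k * (T - 2) ^ (j + 1) * T ≤ KI * (m + 1) ^ (j + 1) * T := by
    calc _ = k * ((T - 2) ^ (j + 1) * T) := by ring
      _ ≤ k * (T - 1) ^ (j + 2) := by gcongr
      _ ≤ _ := H2
  exact le_of_mul_le_mul_right h6 (by linarith)

lemma KK_mono {y0 : E n} {lam : ℝ} {c c' : E n} {r r' : ℝ}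
    (hs : closedBall c' r' ⊆ closedBall c r) : KK Ω f y0 lam c' r' ⊆ KK Ω f y0 lam c r :=
  inter_subset_inter_left _ hs

theorem QR.sharp (h : QR Ω f g K KI) (hn : 2 ≤ n) {y0 : E n} {lam : ℝ} (hl : 0 < lam)
    {c : E n} {ρ T L : ℝ} (hρ : 0 < ρ) (hT : 2 ≤ T)
    (hb : Bd Ω f y0 lam c (2 * (ρ * Real.exp T))) (hL : lam ≤ L)
    (hup : ∀ x ∈ closure Ω, x ∈ closedBall c (2 * (ρ * Real.exp T)) → ‖f x - y0‖ ≤ L)
    {k : ℝ} (hk0 : 0 ≤ k) (hk : k * om n ≤ mass f g lam y0 (KK Ω f y0 lam c ρ)) :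
    k * (T - 2) ^ (n - 1) ≤ KI * (Real.log (L / lam) + 1) ^ (n - 1) := by
  have hn1 : 1 ≤ n := by omega
  have hn2 : (0 : ℝ) < n - 1 := by
    have : (2 : ℝ) ≤ n := by exact_mod_cast hn
    linarith
  have hn0 : (0 : ℝ) < n := by linarith
  have hT1 : 1 ≤ T := by linarith
  have hT0 : 0 < T - 1 := by linarith
  set m := Real.log (L / lam) with hm
  have hm0 : 0 ≤ m := Real.log_nonneg (by rwa [one_le_div hl])
  set R := ρ * Real.exp T with hR
  have hρR : ρ ≤ R := le_mul_of_one_le_right hρ.le (Real.one_le_exp (by linarith))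
  have hR0 : 0 < R := by linarith
  set t := n * (m + 1) / ((n - 1) * (T - 1)) with ht
  have ht0 : 0 ≤ t := by positivity
  set K0 := KK Ω f y0 lam c R with hK0
  have hK0c : IsCompact K0 := h.isCompact_KK _ _ _ _
  have hK0Ω : K0 ⊆ Ω := h.KK_subset hl (hb.mono (closedBall_subset_closedBall (by linarith)))
  have hcut := contDiff_cut c hρ hT1
  set cn : ℝ := (n - 1 : ℝ) ^ (n - 1) / (n : ℝ) ^ n with hcn
  have hcn0 : 0 ≤ cn := by positivity
  have hKI := h.KIpos
  have hAi : IntegrableOn (fun x => (zd (lv lam y0 (f x)) *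
      chi (t * cut c ρ T x + lv lam y0 (f x) - m)) * PP f g lam y0 x) K0 := by
    refine h.toSob.integrableOn_PP hK0c hK0Ω hl y0 ?_
    have h1 := h.continuousOn_lv hl y0 hK0Ω
    exact (continuous_zd.comp_continuousOn h1).mul (contDiff_chi.continuous.comp_continuousOn
      (((continuous_const.mul hcut.continuous).continuousOn.add h1).sub continuousOn_const))
  obtain ⟨hBi, hBe⟩ := cut_energy hn1 c hρ hT1 (K := K0)
  have hle := h.fi_le hn hl y0 (h.opn.inter (isOpen_ball (x := c) (ε := 2 * R))) inter_subset_left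
    hK0c (fun x hx => ⟨hK0Ω hx, closedBall_subset_ball (by linarith) hx.1⟩) (KK_lt hl)
    (Θ := fun p => zt p.2 * chi (t * cut c ρ T p.1 + p.2 - m))
    ((contDiff_zt1.comp contDiff_snd).mul (contDiff_chi.comp
      (((contDiff_const.mul (hcut.comp contDiff_fst)).add contDiff_snd).sub contDiff_const)))
    (fun _ _ hs => by simp [zt_zero hs])
    (fun x hx hx' => by
      by_cases h1 : ‖f x - y0‖ < 2 * lam
      · exact Or.inl h1
      right
      have h2 : R < dist x c := by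
        by_contra h3
        exact hx' ⟨not_lt.1 h3, subset_closure hx.1, by linarith [not_lt.1 h1]⟩
      have h3 : lv lam y0 (f x) < m := by
        refine (lv_le hl (hup x (subset_closure hx.1) (ball_subset_closedBall hx.2)) hL).trans_lt ?_
        have hL0 : 0 < L := by linarith
        refine Real.log_lt_log (by positivity) ?_
        exact div_lt_div_of_pos_left hL0 hl (by linarith)
      have h4 : ∀ᶠ p : E n × ℝ in 𝓝 (x, lv lam y0 (f x)), R < dist p.1 c :=
        (isOpen_lt continuous_const (by fun_prop)).mem_nhds h2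
      have h5 : ∀ᶠ p : E n × ℝ in 𝓝 (x, lv lam y0 (f x)), p.2 < m :=
        (isOpen_lt continuous_snd continuous_const).mem_nhds h3
      filter_upwards [h4, h5] with p h6 h7
      rw [cut_out hρ hT1 h6.le, chi_zero (by linarith), mul_zero])
    (B := fun x => cn * KI * t ^ n * ‖fderiv ℝ (cut c ρ T) x‖ ^ n) hAi (hBi.const_mul _)
    (fun x _ v hP hv => by
      set s := lv lam y0 (f x) with hs
      have d0 : HasFDerivAt (fun p : E n × ℝ => cut c ρ T p.1)
          ((fderiv ℝ (cut c ρ T) x).comp (ContinuousLinearMap.fst ℝ (E n) ℝ)) (x, s) :=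
        HasFDerivAt.comp (f := Prod.fst) (g := cut c ρ T) ((x, s) : E n × ℝ)
          (hcut.differentiable one_ne_zero x).hasFDerivAt hasFDerivAt_fst
      have d1 : HasFDerivAt (fun p : E n × ℝ => zt p.2)
          (zd s • ContinuousLinearMap.snd ℝ (E n) ℝ) (x, s) :=
        (hasDerivAt_zt s).comp_hasFDerivAt (x, s) (hasFDerivAt_snd (𝕜 := ℝ))
      have d2 := (hasDerivAt_chi (t * cut c ρ T x + s - m)).comp_hasFDerivAt
        (f := fun p : E n × ℝ => t * cut c ρ T p.1 + p.2 - m) (x, s)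
        (((d0.const_mul t).add (hasFDerivAt_snd (𝕜 := ℝ))).sub_const m)
      have d3 := (d1.mul d2).fderiv
      erw [d3]
      simp only [add_apply, smul_apply, ContinuousLinearMap.comp_apply,
        ContinuousLinearMap.coe_fst', ContinuousLinearMap.coe_snd', smul_eq_mul,
        Function.comp_apply]
      have hy := young hn hKI (norm_nonneg v)
        (mul_nonneg ht0 (norm_nonneg (fderiv ℝ (cut c ρ T) x))) hP hv
      have h1 : |fderiv ℝ (cut c ρ T) x v| ≤ ‖fderiv ℝ (cut c ρ T) x‖ * ‖v‖ :=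
        (fderiv ℝ (cut c ρ T) x).le_opNorm v
      have h2 := mul_le_mul_of_nonneg_left (neg_le_of_abs_le h1) ht0
      set B := cn * KI * t ^ n * ‖fderiv ℝ (cut c ρ T) x‖ ^ n with hB
      have hB0 : 0 ≤ B := by positivity
      have h3 : -B ≤ t * fderiv ℝ (cut c ρ T) x v + PP f g lam y0 x := by
        rw [mul_pow, ← hcn, ← mul_assoc (cn * KI), ← hB] at hy
        linarith
      have h4 : 0 ≤ zt s * zt (t * cut c ρ T x + s - m) := mul_nonneg (zt_nonneg _) (zt_nonneg _)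
      have h5 : zt s * zt (t * cut c ρ T x + s - m) ≤ 1 :=
        mul_le_one₀ (zt_le_one _) (zt_nonneg _) (zt_le_one _)
      have h6 := mul_le_mul_of_nonneg_left h3 h4
      nlinarith)
  rw [integral_const_mul] at hle
  have hK1 : KK Ω f y0 lam c ρ ⊆ K0 := KK_mono (closedBall_subset_closedBall hρR)
  have hK1c := h.isCompact_KK y0 lam c ρ
  have h7 : (m + 1) / (n - 1) * mass f g lam y0 (KK Ω f y0 lam c ρ) ≤
      ∫ x in K0, (zd (lv lam y0 (f x)) * chi (t * cut c ρ T x + lv lam y0 (f x) - m)) *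
        PP f g lam y0 x := by
    refine le_trans ?_ (setIntegral_mono_set hAi ?_ hK1.eventuallyLE)
    · rw [mass, ← integral_const_mul]
      refine integral_mono_ae ((h.integrableOn_mass hl hK1c (hK1.trans hK0Ω)).const_mul _)
        (hAi.mono_set hK1) ?_
      filter_upwards [h.PP_nonneg hl y0 (hK1.trans hK0Ω), ae_restrict_mem hK1c.measurableSet]
        with x hx hx'
      rw [← mul_assoc]
      refine mul_le_mul_of_nonneg_right ?_ hx
      rcases le_total (lv lam y0 (f x)) 0 with h8 | h8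
      · simp [zd_zero h8]
      · rw [mul_comm]
        refine mul_le_mul_of_nonneg_left (le_trans ?_ (le_chi _)) (zd_nonneg _)
        rw [cut_in hρ hT1 hx'.1]
        have : t * (T - 1) = (m + 1) / (n - 1) + (m + 1) := by
          rw [ht]; field_simp; ring
        linarith
    · filter_upwards [h.PP_nonneg hl y0 hK0Ω] with x hx
      exact mul_nonneg (mul_nonneg (zd_nonneg _) (chi_nonneg _)) hx
  refine sharp_alg hn hk0 hm0 hT (om_pos hn1) ?_
  calc _ ≤ (m + 1) / (n - 1) * mass f g lam y0 (KK Ω f y0 lam c ρ) := by gcongr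
    _ ≤ _ := h7.trans hle
    _ ≤ _ := by gcongr

/-- Logarithm of the reciprocal distance to the top level. -/
noncomputable def Ps (m s : ℝ) : ℝ := Real.log (m + 1) - Real.log (m + 1 - GG m s)

/-- Its derivative. -/
noncomputable def ps (m s : ℝ) : ℝ := Gd m s / (m + 1 - GG m s)

lemma den_pos {m : ℝ} (hm : 0 ≤ m) (s : ℝ) : 0 < m + 1 - GG m s := by linarith [GG_le hm s]

lemma hasDerivAt_Ps {m : ℝ} (hm : 0 ≤ m) (s : ℝ) : HasDerivAt (Ps m) (ps m s) s := by
  have := (((hasDerivAt_GG m s).const_sub (m + 1)).log (den_pos hm s).ne').const_sub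
    (Real.log (m + 1))
  refine this.congr_deriv ?_
  rw [ps]; ring

lemma contDiff_ps {m : ℝ} (hm : 0 ≤ m) : ContDiff ℝ 1 (ps m) :=
  (contDiff_Gd m).div (contDiff_const.sub (contDiff_GG m)) fun s => (den_pos hm s).ne'

lemma ps_nonneg {m : ℝ} (hm : 0 ≤ m) (s : ℝ) : 0 ≤ ps m s :=
  div_nonneg (Gd_nonneg hm s) (den_pos hm s).le

lemma ps_zero {m s : ℝ} (hm : 0 ≤ m) (hs : s ≤ 0) : ps m s = 0 := by
  rw [ps, Gd_zero hm hs, zero_div]

lemma Ps_zero {m s : ℝ} (hm : 0 ≤ m) (hs : s ≤ 0) : Ps m s = 0 := by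
  rw [Ps, GG_zero hm hs, sub_zero, sub_self]

lemma Ps_mono {m : ℝ} (hm : 0 ≤ m) : Monotone (Ps m) :=
  monotone_of_deriv_nonneg (fun s => (hasDerivAt_Ps hm s).differentiableAt) fun s => by
    rw [(hasDerivAt_Ps hm s).deriv]; exact ps_nonneg hm s

lemma hasDerivAt_ps {m : ℝ} (hm : 0 ≤ m) {s : ℝ} (hs : s ≤ m) :
    ∃ d, HasDerivAt (ps m) d s ∧ ps m s ^ 2 ≤ d := by
  have := (hasDerivAt_Gd m s).div ((hasDerivAt_GG m s).const_sub (m + 1)) (den_pos hm s).ne'
  refine ⟨_, this, ?_⟩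
  have h1 := den_pos hm s
  rw [ps, div_pow, zd_zero (s := s - m) (by linarith)]
  gcongr
  have := mul_nonneg (zd_nonneg s) h1.le
  nlinarith

theorem QR.cacc (h : QR Ω f g K KI) (hn : 2 ≤ n) {y0 : E n} {lam : ℝ} (hl : 0 < lam)
    {c : E n} {ρ m : ℝ} (hρ : 0 < ρ) (hm : 0 ≤ m) (hb : Bd Ω f y0 lam c (16 * ρ))
    (hup : ∀ x ∈ closure Ω, x ∈ closedBall c (16 * ρ) → lv lam y0 (f x) ≤ m) :
    ∫ x in KK Ω f y0 lam c ρ, |ps m (lv lam y0 (f x))| ^ n * PP f g lam y0 x ≤
      ((n - 1 : ℝ) ^ (n - 1) / (n : ℝ) ^ n) * KI * (2 * n) ^ n * (om n * 2) := by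
  have hn1 : 1 ≤ n := by omega
  have hn2 : (2 : ℝ) ≤ n := by exact_mod_cast hn
  have hn3 : (0 : ℝ) < n - 1 := by linarith
  have hn0 : (0 : ℝ) < n := by linarith
  have hT1 : (1 : ℝ) ≤ 2 := one_le_two
  set R := ρ * Real.exp 2 with hR
  have hρR : ρ ≤ R := le_mul_of_one_le_right hρ.le (Real.one_le_exp (by linarith))
  have hR8 : R ≤ 8 * ρ := by
    have h1 := Real.exp_one_lt_d9
    have h2 : Real.exp 2 = Real.exp 1 * Real.exp 1 := by rw [← Real.exp_add]; norm_num
    have h3 := Real.exp_pos 1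
    have : Real.exp 2 ≤ 8 := by nlinarith
    nlinarith
  set K0 := KK Ω f y0 lam c R with hK0
  have hK0c : IsCompact K0 := h.isCompact_KK _ _ _ _
  have hK0Ω : K0 ⊆ Ω := h.KK_subset hl (hb.mono (closedBall_subset_closedBall (by linarith)))
  have hcut := contDiff_cut c hρ hT1
  set cn : ℝ := (n - 1 : ℝ) ^ (n - 1) / (n : ℝ) ^ n with hcn
  have hcn0 : 0 ≤ cn := by positivity
  have hKI := h.KIpos
  have hAi : IntegrableOn (fun x => (1 / 2 * (cut c ρ 2 x * ps m (lv lam y0 (f x))) ^ n) *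
      PP f g lam y0 x) K0 := by
    refine h.toSob.integrableOn_PP hK0c hK0Ω hl y0 ?_
    have h1 := h.continuousOn_lv hl y0 hK0Ω
    exact continuousOn_const.mul ((hcut.continuous.continuousOn.mul
      ((contDiff_ps hm).continuous.comp_continuousOn h1)).pow n)
  obtain ⟨hBi, hBe⟩ := cut_energy hn1 c hρ hT1 (K := K0)
  have hle := h.fi_le hn hl y0 (h.opn.inter (isOpen_ball (x := c) (ε := 16 * ρ))) inter_subset_left
    hK0c (fun x hx => ⟨hK0Ω hx, closedBall_subset_ball (by linarith) hx.1⟩) (KK_lt hl)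
    (Θ := fun p => cut c ρ 2 p.1 ^ n * ps m p.2 ^ (n - 1))
    (((hcut.comp contDiff_fst).pow n).mul (((contDiff_ps hm).comp contDiff_snd).pow (n - 1)))
    (fun _ _ hs => by simp [ps_zero hm hs, zero_pow (show n - 1 ≠ 0 by omega)])
    (fun x hx hx' => by
      by_cases h1 : ‖f x - y0‖ < 2 * lam
      · exact Or.inl h1
      right
      have h2 : R < dist x c := by
        by_contra h3
        exact hx' ⟨not_lt.1 h3, subset_closure hx.1, by linarith [not_lt.1 h1]⟩
      have h4 : ∀ᶠ p : E n × ℝ in 𝓝 (x, lv lam y0 (f x)), R < dist p.1 c :=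
        (isOpen_lt continuous_const (by fun_prop)).mem_nhds h2
      filter_upwards [h4] with p h6
      rw [cut_out hρ hT1 h6.le, zero_pow (by omega), zero_mul])
    (B := fun x => 1 / 2 * (cn * KI * (2 * n) ^ n) * ‖fderiv ℝ (cut c ρ 2) x‖ ^ n) hAi
    (hBi.const_mul _)
    (fun x hx v hP hv => by
      set s := lv lam y0 (f x) with hs
      have hsm : s ≤ m := hup x hx.2.1 (closedBall_subset_closedBall (by linarith) hx.1)
      obtain ⟨d, hd, hd'⟩ := hasDerivAt_ps hm hsm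
      have d0 : HasFDerivAt (fun p : E n × ℝ => cut c ρ 2 p.1)
          ((fderiv ℝ (cut c ρ 2) x).comp (ContinuousLinearMap.fst ℝ (E n) ℝ)) (x, s) :=
        HasFDerivAt.comp (f := Prod.fst) (g := cut c ρ 2) ((x, s) : E n × ℝ)
          (hcut.differentiable one_ne_zero x).hasFDerivAt hasFDerivAt_fst
      have d1 : HasFDerivAt (fun p : E n × ℝ => ps m p.2)
          (d • ContinuousLinearMap.snd ℝ (E n) ℝ) (x, s) :=
        HasDerivAt.comp_hasFDerivAt (h₂ := ps m) (f := Prod.snd) ((x, s) : E n × ℝ) hd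
          (hasFDerivAt_snd (𝕜 := ℝ))
      have d3 := ((d0.pow n).mul (d1.pow (n - 1))).fderiv
      erw [d3]
      simp only [add_apply, smul_apply, ContinuousLinearMap.comp_apply,
        ContinuousLinearMap.coe_fst', ContinuousLinearMap.coe_snd', smul_eq_mul, nsmul_eq_mul]
      set η := cut c ρ 2 x with hη
      set ψ := ps m s with hψ
      set P := PP f g lam y0 x with hPd
      have hη0 : 0 ≤ η := cut_nonneg c ρ hT1 x
      have hψ0 : 0 ≤ ψ := ps_nonneg hm s
      have hy := young hn hKI (a := (η * ψ) ^ (n - 1) * ‖v‖) (p := (η * ψ) ^ n * P)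
        (b := 2 * n * ‖fderiv ℝ (cut c ρ 2) x‖) (by positivity) (by positivity) (by positivity) (by
          rw [mul_pow, mul_pow _ P, ← pow_mul, ← pow_mul, mul_comm (n - 1) n, mul_left_comm]
          gcongr)
      have h1 : |fderiv ℝ (cut c ρ 2) x v| ≤ ‖fderiv ℝ (cut c ρ 2) x‖ * ‖v‖ :=
        (fderiv ℝ (cut c ρ 2) x).le_opNorm v
      have h2 := mul_le_mul_of_nonneg_left (neg_le_of_abs_le h1)
        (show 0 ≤ n * (η * ψ) ^ (n - 1) by positivity)
      have h3 : (η * ψ) ^ n * P ≤ η ^ n * (((n - 1 : ℕ) : ℝ) * ψ ^ (n - 1 - 1) * (d * P)) := by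
        have e1 : ψ ^ n = ψ ^ (n - 1 - 1) * ψ ^ 2 := by rw [← pow_add]; congr 1; omega
        have e2 : (1 : ℝ) ≤ ((n - 1 : ℕ) : ℝ) := by exact_mod_cast (show 1 ≤ n - 1 by omega)
        have e3 : 0 ≤ d := (sq_nonneg ψ).trans hd'
        rw [mul_pow, mul_assoc, e1, mul_assoc, mul_assoc]
        refine mul_le_mul_of_nonneg_left ?_ (by positivity)
        calc _ ≤ ψ ^ (n - 1 - 1) * (d * P) := by gcongr
          _ ≤ _ := le_mul_of_one_le_left (by positivity) e2
      rw [mul_pow (2 * n : ℝ), ← hcn] at hy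
      rw [mul_pow η ψ (n - 1)] at hy h2
      nlinarith)
  rw [integral_const_mul] at hle
  have hK1 : KK Ω f y0 lam c ρ ⊆ K0 := KK_mono (closedBall_subset_closedBall hρR)
  have hK1c := h.isCompact_KK y0 lam c ρ
  have h7 : 1 / 2 * ∫ x in KK Ω f y0 lam c ρ, |ps m (lv lam y0 (f x))| ^ n * PP f g lam y0 x ≤
      ∫ x in K0, (1 / 2 * (cut c ρ 2 x * ps m (lv lam y0 (f x))) ^ n) * PP f g lam y0 x := by
    refine le_trans (le_of_eq ?_) (setIntegral_mono_set hAi ?_ hK1.eventuallyLE)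
    · rw [← integral_const_mul]
      refine setIntegral_congr_fun hK1c.measurableSet fun x hx => ?_
      rw [cut_in hρ hT1 hx.1, abs_of_nonneg (ps_nonneg hm _)]
      ring
    · filter_upwards [h.PP_nonneg hl y0 hK0Ω] with x hx
      have := cut_nonneg c ρ hT1 x
      have := ps_nonneg hm (lv lam y0 (f x))
      simp only [Pi.zero_apply]
      positivity
  have h8 : cn * KI * (2 * n) ^ n * ∫ x in K0, ‖fderiv ℝ (cut c ρ 2) x‖ ^ n ≤
      cn * KI * (2 * n) ^ n * (om n * 2) := by gcongr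
  linarith

theorem QR.drop (h : QR Ω f g K KI) (hn : 2 ≤ n) : ∃ C : ℝ, 1 ≤ C ∧
    ∀ (y0 : E n) (lam : ℝ) (c c1 c2 : E n) (ρ t1 t2 L2 L : ℝ), 0 < lam → 0 < ρ → 0 < L2 →
      L2 ≤ L → Bd Ω f y0 lam c (16 * ρ) →
      (∀ x ∈ closure Ω, x ∈ closedBall c (16 * ρ) → ‖f x - y0‖ ≤ L) →
      (∀ t ∈ Icc t1 (t1 + 1 / 32 * ρ), ∃ x ∈ ball c ρ, dist x c1 = t ∧
        x ∉ HH Ω f y0 (3 / 2 * lam)) →
      (∀ t ∈ Icc t2 (t2 + 1 / 32 * ρ), ∃ x ∈ ball c ρ, dist x c2 = t ∧ x ∈ HH Ω f y0 L2) →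
      Real.log (L2 / lam) ≤ C * (Real.log (L / L2) + 4) := by
  have hn1 : 1 ≤ n := by omega
  have hn2 : (2 : ℝ) ≤ n := by exact_mod_cast hn
  have hn3 : (0 : ℝ) < n - 1 := by linarith
  have hn0 : (0 : ℝ) < n := by linarith
  have hv := om0_pos (n := n)
  have hom := om_pos hn1
  have hKI := h.KIpos
  have hK := h.Kpos
  set X := K * (((n - 1 : ℝ) ^ (n - 1) / (n : ℝ) ^ n) * KI * (2 * n) ^ n * (om n * 2)) with hX
  have hX0 : 0 ≤ X := by positivity
  set A0 := 16 * n * (1 + 640 * X / (volume : Measure (E n)).real (ball 0 1)) with hA0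
  have hA00 : 0 ≤ A0 := by positivity
  refine ⟨Real.exp A0, Real.one_le_exp hA00,
    fun y0 lam c c1 c2 ρ t1 t2 L2 L hl hρ hL2 hL hb hup H1 H2 => ?_⟩
  have hC := Real.one_le_exp hA00
  have hlog : 0 ≤ Real.log (L / L2) := Real.log_nonneg (by rwa [one_le_div hL2])
  have hlog2 : Real.log 2 ≤ 1 := by
    have := Real.log_le_sub_one_of_pos two_pos
    linarith
  rcases lt_or_ge L2 (2 * lam) with h1 | h1
  · have : Real.log (L2 / lam) ≤ Real.log 2 :=
      Real.log_le_log (by positivity) (by rw [div_le_iff₀ hl]; linarith)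
    nlinarith
  set m := Real.log (L / lam) with hm
  have hL0 : 0 < L := by linarith
  have hm0 : 0 ≤ m := Real.log_nonneg (by rw [one_le_div hl]; linarith)
  have hc := h.cacc hn hl hρ hm0 hb fun x hx hx' => by
    refine (lv_le hl (hup x hx hx') (by linarith)).trans (Real.log_le_log (by positivity) ?_)
    exact div_le_div_of_nonneg_left hL0.le hl (by linarith)
  set s2 := Real.log (L2 / (4 * lam)) with hs2
  have ha : Ps m s2 ≤ A0 := by
    rcases le_or_gt (Ps m s2) 0 with h2 | h2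
    · linarith
    have h3 := h.loew hn1 hl hρ (σ := 1 / 32) (by norm_num)
      (hb.mono (closedBall_subset_closedBall (by linarith))) (hasDerivAt_Ps hm0)
      (contDiff_ps hm0).continuous (fun s hs => Ps_zero hm0 hs) (Ps_mono hm0) h1 h2 le_rfl H1 H2
    have h4 := h3.trans (mul_le_mul_of_nonneg_left hc hK.le)
    rw [← hX] at h4
    have h5 : (Ps m s2 / (16 * n)) ^ n ≤ 640 * X / (volume : Measure (E n)).real (ball 0 1) := by
      rw [le_div_iff₀ hv]
      linarith
    have h6 := le_one_add_pow (Ps m s2 / (16 * n)) (by positivity) hn1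
    rw [hA0, ← div_le_iff₀' (by positivity)]
    linarith
  have e1 : s2 = Real.log (L2 / lam) - 2 * Real.log 2 := by
    rw [hs2, show L2 / (4 * lam) = L2 / lam / 2 ^ 2 by field_simp; ring,
      Real.log_div (by positivity) (by positivity), Real.log_pow]
    norm_num
  have e2 : m = Real.log (L / L2) + Real.log (L2 / lam) := by
    rw [hm, ← Real.log_mul (by positivity) (by positivity)]
    congr 1
    field_simp
  have hl2 : 0 < Real.log 2 := Real.log_pos one_lt_two
  have h7 : m + 1 - GG m s2 ≤ Real.log (L / L2) + 4 := by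
    rw [GG_eq_chi (by linarith)]
    linarith [le_chi s2]
  have h8 : m + 1 ≤ Real.exp A0 * (m + 1 - GG m s2) := by
    rw [Ps, ← Real.log_div (by positivity) (den_pos hm0 s2).ne',
      Real.log_le_iff_le_exp (div_pos (by positivity) (den_pos hm0 s2)),
      div_le_iff₀ (den_pos hm0 s2)] at ha
    exact ha
  have h9 := mul_le_mul_of_nonneg_left h7 (Real.exp_pos A0).le
  linarith

end Pool.Agent.Lib.MP_010b1d_an
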